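import Pool.Agent.Lib.MP_b090c9_co.Fam

set_option autoImplicit false

namespace Nonagon

open MeasureTheory Set Filter Topology

/-- set of corners -/
def corn (U : Set ℂ) : Set ℂ := {P | ∃ t α, IsCorner U P t α}

open Classical in
/-- angle of U at P -/
noncomputable def ang (U : Set ℂ) (P : ℂ) : ℝ :=
  if P ∈ closure U then 2 * (volume (tc U P ∩ Metric.ball 0 1)).toReal else 0

lemma ang_eq {U : Set ℂ} {P : ℂ} {t α : ℝ} (hP : P ∈ closure U) (h0 : 0 < α) (h1 : α ≤ Real.pi)
    (h : tc U P = Sec t α) : ang U P = α := by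
  unfold ang
  rw [if_pos hP, h, volume_Sec h0 h1, ENNReal.toReal_ofReal (by linarith)]
  ring

lemma ang_corner {U : Set ℂ} {P : ℂ} {t α : ℝ} (h : IsCorner U P t α) : ang U P = α :=
  ang_eq h.1 h.2.1 h.2.2.1.le h.2.2.2

lemma ang_pos_lt {U : Set ℂ} {P : ℂ} (h : P ∈ corn U) : 0 < ang U P ∧ ang U P < Real.pi := by
  obtain ⟨t, α, h⟩ := h
  rw [ang_corner h]
  exact ⟨h.2.1, h.2.2.1⟩

lemma decomp (t α : ℝ) (v : ℂ) :
    Real.sin α • v = crs v (e (t + α)) • e t + crs (e t) v • e (t + α) := by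
  have hs : Real.sin α = Real.sin (t + α) * Real.cos t - Real.cos (t + α) * Real.sin t := by
    rw [← Real.sin_sub]; congr 1; ring
  apply Complex.ext
  · simp only [crs, Complex.add_re, Complex.smul_re, e_re, e_im, smul_eq_mul]
    rw [hs]; ring
  · simp only [crs, Complex.add_im, Complex.smul_im, e_re, e_im, smul_eq_mul]
    rw [hs]; ring

lemma dot_nonpos_closure_tc {U : Set ℂ} {P w v : ℂ} (h : ∀ x ∈ U, dot w x ≤ dot w P)
    (hv : v ∈ closure (tc U P)) : dot w v ≤ 0 := by
  have hsub : tc U P ⊆ {v | dot w v ≤ 0} := by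
    rintro v ⟨t, ht, hv⟩
    have := h _ hv
    rw [dot_add, dot_smul] at this
    simp only [mem_ofPred_eq]
    by_contra hc
    push Not at hc
    nlinarith
  exact closure_minimal hsub (isClosed_le (continuous_dot _) continuous_const) hv

/-- a linear functional attains its maximum at a corner -/
lemma exists_corner_max {U : Set ℂ} (hU : IsCell U) (hb : Bornology.IsBounded U) {w : ℂ}
    (hw : w ≠ 0) : ∃ P ∈ corn U, ∀ x ∈ closure U, dot w x ≤ dot w P := by
  have hcomp : IsCompact (closure U) := hb.isCompact_closure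
  obtain ⟨z, hz, hmax⟩ := hcomp.exists_isMaxOn hU.ne.closure (continuous_dot w).continuousOn
  have hmax' : ∀ x ∈ closure U, dot w x ≤ dot w z := fun x hx => hmax hx
  obtain ⟨r, φ, hr, rfl⟩ := exists_angle hw
  have hle : ∀ v ∈ tc U z, dot (e φ) v ≤ 0 := by
    intro v hv
    have := dot_nonpos_closure_tc (fun x hx => hmax' x (subset_closure hx)) (subset_closure hv)
    rw [smul_dot] at this
    by_contra hc
    push Not at hc
    nlinarith
  have hneg : ∀ v ∈ tc U z, dot (e φ) v < 0 := by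
    intro v hv
    rcases (hle v hv).lt_or_eq with h | h
    · exact h
    · exfalso
      have hcont : Tendsto (fun r : ℝ => v + r • e φ) (𝓝[>] 0) (𝓝 v) := by
        have : Continuous (fun r : ℝ => v + r • e φ) := by fun_prop
        have h := (this.tendsto 0).mono_left (nhdsWithin_le_nhds (s := Ioi 0))
        simpa using h
      have hev := (hcont.eventually ((isOpen_tc hU.op).mem_nhds hv)).and self_mem_nhdsWithin
      obtain ⟨r, hr1, hr0⟩ := hev.exists
      have hr0' : (0:ℝ) < r := hr0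
      have h2 := hle _ hr1
      rw [dot_add, h, dot_smul, dot_e_e, sub_self, Real.cos_zero] at h2
      linarith
  have hhalf : ∀ v ∈ tc U z, 0 < crs (e (φ + Real.pi / 2)) v := by
    intro v hv
    rw [crs_e_eq_dot, show φ + Real.pi / 2 + Real.pi / 2 = φ + Real.pi by ring, e_add_pi]
    have h2 : dot (-e φ) v = - dot (e φ) v := by unfold dot; simp; ring
    rw [h2]; linarith [hneg v hv]
  obtain ⟨s, α, h1, h2, h3, h4⟩ := tc_frame hU.op hU.cv hU.ne hz hhalf
  rcases (show α ≤ Real.pi by linarith).lt_or_eq with hα | hα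
  · exact ⟨z, ⟨s, α, hz, h2, hα, h4⟩, hmax'⟩
  · have hs : s = φ + Real.pi / 2 := by linarith
    have hbk : e (s + Real.pi) ∈ closure (tc U z) := by
      rw [h4, hα]; exact e_end_mem_closure_Sec Real.pi_pos le_rfl
    have hhs : ∀ v ∈ tc U z, 0 < crs (e s) v := by rw [hs]; exact hhalf
    obtain ⟨l, β, hl, hcor⟩ := ray_back hU hb hz hhs hbk
    refine ⟨_, ⟨s, β, hcor⟩, ?_⟩
    intro x hx
    have h5 : dot (r • e φ) (e (s + Real.pi)) = 0 := by
      rw [smul_dot, dot_e_e]
      have : Real.cos (s + Real.pi - φ) = 0 := by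
        rw [hs, show φ + Real.pi / 2 + Real.pi - φ = Real.pi / 2 + Real.pi by ring, Real.cos_add_pi,
          Real.cos_pi_div_two, neg_zero]
      rw [this, mul_zero]
    rw [dot_add, dot_smul, h5, mul_zero, add_zero]
    exact hmax' x hx

/-- the open normal cone at a corner -/
lemma normal_cone_eq {t α : ℝ} : Sec (t + α + Real.pi / 2) (Real.pi - α) =
    {w | dot w (e t) < 0 ∧ dot w (e (t + α)) < 0} := by
  ext w
  unfold Sec
  simp only [mem_ofPred_eq]
  rw [crs_e_eq_dot, show t + α + Real.pi / 2 + Real.pi / 2 = t + α + Real.pi by ring,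
    show t + α + Real.pi / 2 + (Real.pi - α) = t + Real.pi + Real.pi / 2 by ring, crs_e_half,
    e_add_pi, e_add_pi]
  have h2 : ∀ u v, dot (-u) v = - dot u v := by intro u v; unfold dot; simp; ring
  rw [h2, h2, dot_comm w, dot_comm w]
  constructor <;> rintro ⟨a, b⟩ <;> constructor <;> linarith

lemma dot_neg_of_normal {U : Set ℂ} {P x w : ℂ} {t α : ℝ} (h : IsCorner U P t α)
    (hw : w ∈ Sec (t + α + Real.pi / 2) (Real.pi - α)) (hx : x ∈ closure U) (hne : x ≠ P) :
    dot w x < dot w P := by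
  rw [normal_cone_eq] at hw
  obtain ⟨h1, h2⟩ := hw
  have hxc : x - P ∈ closure (tc U P) := mem_closure_tc (t := 1) one_pos (by simpa using hx)
  rw [h.2.2.2] at hxc
  obtain ⟨h3, h4⟩ := closure_Sec_subset _ _ hxc
  have hsin : 0 < Real.sin α := Real.sin_pos_of_pos_of_lt_pi h.2.1 h.2.2.1
  have hd := decomp t α (x - P)
  have hdot : Real.sin α * dot w (x - P) =
      crs (x - P) (e (t + α)) * dot w (e t) + crs (e t) (x - P) * dot w (e (t + α)) := by
    rw [← dot_smul, hd, dot_add, dot_smul, dot_smul]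
  have hlt : Real.sin α * dot w (x - P) < 0 := by
    rcases h3.lt_or_eq with h5 | h5
    · rw [hdot]; nlinarith
    · rcases h4.lt_or_eq with h6 | h6
      · rw [hdot]; nlinarith
      · exfalso
        rw [← h5, ← h6] at hd
        simp only [zero_smul, add_zero, smul_eq_zero] at hd
        rcases hd with h7 | h7
        · linarith
        · exact hne (sub_eq_zero.mp h7)
  have : dot w (x - P) < 0 := by
    by_contra hc
    push Not at hc
    nlinarith
  rw [dot_sub] at this
  linarith

lemma volume_unit_ball : volume (Metric.ball (0:ℂ) 1) = ENNReal.ofReal Real.pi := by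
  rw [Complex.volume_ball]
  simp [← NNReal.coe_real_pi, ENNReal.ofReal_coe_nnreal]

theorem angle_sum {U : Set ℂ} (hU : IsCell U) (hb : Bornology.IsBounded U) :
    ∑ P ∈ (finite_corners hU).toFinset, (Real.pi - ang U P) = 2 * Real.pi := by
  classical
  have hex : ∀ P : ℂ, ∃ tα : ℝ × ℝ, P ∈ corn U → IsCorner U P tα.1 tα.2 := by
    intro P
    by_cases h : P ∈ corn U
    · obtain ⟨t, α, h'⟩ := h
      exact ⟨(t, α), fun _ => h'⟩
    · exact ⟨0, fun h' => absurd h' h⟩
  choose f hf using hex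
  set F := (finite_corners hU).toFinset with hF
  have hmem : ∀ P, P ∈ F ↔ P ∈ corn U := by
    intro P; rw [hF, Set.Finite.mem_toFinset]; rfl
  set N : ℂ → Set ℂ := fun P => Sec ((f P).1 + (f P).2 + Real.pi / 2) (Real.pi - (f P).2) with hN
  have hvol : ∀ P ∈ F, volume (N P ∩ Metric.ball 0 1) =
      ENNReal.ofReal ((Real.pi - ang U P) / 2) := by
    intro P hP
    have h1 := hf P ((hmem P).mp hP)
    rw [ang_corner h1]
    exact volume_Sec (by linarith [h1.2.2.1]) (by linarith [h1.2.1])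
  have hdisj : (F : Set ℂ).PairwiseDisjoint (fun P => N P ∩ Metric.ball 0 1) := by
    intro P hP Q hQ hPQ
    show Disjoint (N P ∩ Metric.ball 0 1) (N Q ∩ Metric.ball 0 1)
    rw [Set.disjoint_left]
    rintro w ⟨h1, _⟩ ⟨h2, _⟩
    have hcP := hf P ((hmem P).mp hP)
    have hcQ := hf Q ((hmem Q).mp hQ)
    have := dot_neg_of_normal hcP h1 hcQ.1 hPQ.symm
    have := dot_neg_of_normal hcQ h2 hcP.1 hPQ
    linarith
  have hsum : volume (⋃ P ∈ F, N P ∩ Metric.ball 0 1) =
      ∑ P ∈ F, ENNReal.ofReal ((Real.pi - ang U P) / 2) := by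
    rw [measure_biUnion_finset hdisj
      (fun P _ => (isOpen_Sec _ _).measurableSet.inter Metric.isOpen_ball.measurableSet)]
    exact Finset.sum_congr rfl hvol
  set Z : Set ℂ := ⋃ P ∈ F, ({w | dot (e (f P).1) w = 0} ∪ {w | dot (e ((f P).1 + (f P).2)) w = 0})
    with hZ
  have hZ0 : volume Z = 0 := by
    rw [hZ]
    apply (measure_biUnion_null_iff F.countable_toSet).mpr
    intro P _
    rw [measure_union_null_iff]
    exact ⟨volume_line (e_ne_zero _) 0, volume_line (e_ne_zero _) 0⟩
  have hcover : Metric.ball (0:ℂ) 1 ⊆ (⋃ P ∈ F, N P ∩ Metric.ball 0 1) ∪ (Z ∪ {0}) := by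
    intro w hw
    by_cases hw0 : w = 0
    · right; right; exact hw0
    obtain ⟨P, hP, hPm⟩ := exists_corner_max hU hb hw0
    have hPF := (hmem P).mpr hP
    have hc := hf P hP
    have hPm' : ∀ x ∈ U, dot w x ≤ dot w P := fun x hx => hPm x (subset_closure hx)
    have h1 : dot w (e (f P).1) ≤ 0 := by
      apply dot_nonpos_closure_tc hPm'
      rw [hc.2.2.2]; exact e_t_mem_closure_Sec hc.2.1 hc.2.2.1.le
    have h2 : dot w (e ((f P).1 + (f P).2)) ≤ 0 := by
      apply dot_nonpos_closure_tc hPm'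
      rw [hc.2.2.2]; exact e_end_mem_closure_Sec hc.2.1 hc.2.2.1.le
    rcases h1.lt_or_eq with h3 | h3
    · rcases h2.lt_or_eq with h4 | h4
      · left
        simp only [mem_iUnion]
        refine ⟨P, hPF, ?_, hw⟩
        simp only [hN]
        rw [normal_cone_eq]
        exact ⟨h3, h4⟩
      · right; left
        simp only [hZ, mem_iUnion]
        refine ⟨P, hPF, Or.inr ?_⟩
        simp only [mem_ofPred_eq]
        rw [dot_comm]; exact h4
    · right; left
      simp only [hZ, mem_iUnion]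
      refine ⟨P, hPF, Or.inl ?_⟩
      simp only [mem_ofPred_eq]
      rw [dot_comm]; exact h3
  have hle1 : volume (Metric.ball (0:ℂ) 1) ≤ volume (⋃ P ∈ F, N P ∩ Metric.ball 0 1) := by
    calc volume (Metric.ball (0:ℂ) 1) ≤ volume ((⋃ P ∈ F, N P ∩ Metric.ball 0 1) ∪ (Z ∪ {0})) :=
          measure_mono hcover
      _ ≤ volume (⋃ P ∈ F, N P ∩ Metric.ball 0 1) + volume (Z ∪ {0}) := measure_union_le _ _
      _ = volume (⋃ P ∈ F, N P ∩ Metric.ball 0 1) := by
          rw [measure_union_null hZ0 (by simp), add_zero]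
  have hle2 : volume (⋃ P ∈ F, N P ∩ Metric.ball 0 1) ≤ volume (Metric.ball (0:ℂ) 1) := by
    apply measure_mono
    simp only [iUnion_subset_iff]
    exact fun P _ => inter_subset_right
  have heq := le_antisymm hle2 hle1
  have hnn : ∀ P ∈ F, 0 ≤ (Real.pi - ang U P) / 2 := by
    intro P hP
    have := (ang_pos_lt ((hmem P).mp hP)).2
    linarith
  rw [hsum, volume_unit_ball, ← ENNReal.ofReal_sum_of_nonneg hnn,
    ENNReal.ofReal_eq_ofReal_iff (Finset.sum_nonneg hnn) Real.pi_pos.le, ← Finset.sum_div] at heq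
  linarith

end Nonagon
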