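import Pool.Agent.Lib.MP_b090c9_co.Nona

set_option autoImplicit false

namespace Nonagon

open MeasureTheory Set Filter Topology Real

lemma isOpen_tri {A B P : ℂ} (h : crs (B - A) (P - A) ≠ 0) : IsOpen (tri A B P) := by
  have hdet : LinearMap.det (lm (B - A) (P - A)) ≠ 0 := by rw [det_lm]; exact h
  set E := (LinearMap.equivOfDetNeZero (lm (B - A) (P - A)) hdet).toContinuousLinearEquiv with hE
  have h1 : tri A B P = (fun x => A + x) '' (E '' std) := by
    rw [image_image]
    rfl
  rw [h1, image_add_left]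
  apply IsOpen.preimage (by fun_prop)
  exact E.toHomeomorph.isOpenMap _ isOpen_std

lemma closure_volume {U : Set ℂ} (ho : IsOpen U) (hc : Convex ℝ U) :
    volume (closure U) = volume U := by
  have hfr := hc.addHaar_frontier volume
  apply le_antisymm _ (measure_mono subset_closure)
  have : closure U ⊆ U ∪ frontier U := by
    rw [frontier, ho.interior_eq]
    intro x hx
    by_cases h : x ∈ U
    · exact Or.inl h
    · exact Or.inr ⟨hx, h⟩
  calc volume (closure U) ≤ _ := measure_mono this
    _ ≤ _ := measure_union_le _ _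
    _ = volume U := by rw [hfr, add_zero]

lemma corner_ineq {t α φ h s : ℝ} {A' B' : ℂ} (hX : dot (e φ) (e t) < 0)
    (hZ : dot (e φ) (e (t + α)) < 0) (hA : dot (e φ) A' = -h) (hB : dot (e φ) B' = -h)
    (hAB : crs (e φ) (B' - A') = s) (h1 : 0 ≤ crs (e t) B') (h2 : 0 ≤ crs A' (e (t + α))) :
    s * (dot (e φ) (e t) * dot (e φ) (e (t + α))) ≤ h * sin α := by
  set X := - dot (e φ) (e t) with hXd
  set Z := - dot (e φ) (e (t + α)) with hZd
  have hX0 : 0 < X := by linarith
  have hZ0 : 0 < Z := by linarith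
  have fB := frame φ B'
  have fA := frame φ A'
  rw [hB] at fB
  rw [hA] at fA
  rw [fB, crs_add, crs_smul, crs_smul, crs_e_half, dot_comm] at h1
  rw [fA, add_crs, smul_crs, smul_crs] at h2
  have h3 : crs (e (φ + π / 2)) (e (t + α)) = Z := by
    rw [crs_e_eq_dot, show φ + π / 2 + π / 2 = φ + π by ring, e_add_pi, hZd]
    unfold dot; simp; ring
  rw [h3] at h2
  rw [crs_sub] at hAB
  have key : - (crs (e t) (e φ) * Z + crs (e φ) (e (t + α)) * X) = sin α := by
    rw [hXd, hZd, dot_e_e, dot_e_e, crs_e_e, crs_e_e]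
    have : sin α = sin ((φ - t) + (t + α - φ)) := by congr 1; ring
    rw [this, Real.sin_add, show t - φ = -(φ - t) by ring, Real.cos_neg]
    ring
  have m1 := mul_nonneg h1 hZ0.le
  have m2 := mul_nonneg h2 hX0.le
  have e1 : dot (e φ) (e t) = -X := by rw [hXd]; ring
  have e2 : dot (e φ) (e (t + α)) = -Z := by rw [hZd]; ring
  rw [dot_comm (e t) (e φ), e1] at m1
  rw [e1, e2, ← key, ← hAB]
  nlinarith

theorem cell_area {U : Set ℂ} (hU : IsCell U) (hb : Bornology.IsBounded U) {c : ℂ} {ρ : ℝ}
    (hsub : body c ρ ⊆ U) :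
    (volume (body c ρ)).toReal + ∑ P ∈ (finite_corners hU).toFinset, lam (9 - sang U P) ≤
      (volume U).toReal := by
  classical
  have hπ := Real.pi_pos
  have htau : 0 < tau := by linarith [tau_lo]
  have hcl : ∀ z ∈ bodyc c ρ, z ∈ closure U := fun z hz => closure_mono hsub (bodyc_subset_closure c ρ hz)
  have hnv : ∀ k, nv ρ k ≠ 0 := fun k => e_ne_zero _
  have hex := fun k => exists_corner_max hU hb (hnv k)
  choose Q hQc hQm using hex
  set h : ZMod 9 → ℝ := fun k => dot (nv ρ k) (Q k - c) - 1 with hh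
  have hh0 : ∀ k, 0 ≤ h k := by
    intro k
    have h1 := hQm k _ (hcl _ (vA_mem c ρ k))
    have h2 := dot_vA_self c ρ k
    simp only [hh]
    rw [dot_sub] at h2 ⊢
    linarith
  have hcross : ∀ k, crs (vB c ρ k - vA c ρ k) (Q k - vA c ρ k) = - (2 * tau * h k) := by
    intro k
    rw [vB_sub_vA, smul_crs, crs_e_eq_dot,
      show ρ + 2 * π * (k.val : ℝ) / 9 + π / 2 + π / 2 = ρ + 2 * π * (k.val : ℝ) / 9 + π by ring,
      e_add_pi]
    have h1 : dot (-e (ρ + 2 * π * (k.val : ℝ) / 9)) (Q k - vA c ρ k) =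
        - dot (nv ρ k) (Q k - vA c ρ k) := by unfold nv dot; simp; ring
    have h2 := dot_vA_self c ρ k
    rw [h1, dot_sub]
    simp only [hh]
    rw [dot_sub] at h2 ⊢
    have : dot (nv ρ k) (vA c ρ k) = 1 + dot (nv ρ k) c := by linarith
    rw [this]; ring
  set T : ZMod 9 → Set ℂ := fun k => if h k = 0 then ∅ else tri (vA c ρ k) (vB c ρ k) (Q k) with hT
  have hTo : ∀ k, IsOpen (T k) := by
    intro k
    simp only [hT]
    split_ifs with h0
    · exact isOpen_empty
    · apply isOpen_tri
      rw [hcross]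
      simp only [ne_eq, neg_eq_zero, mul_eq_zero, OfNat.ofNat_ne_zero, false_or, not_or]
      exact ⟨htau.ne', h0⟩
  have hTv : ∀ k, volume (T k) = ENNReal.ofReal (tau * h k) := by
    intro k
    simp only [hT]
    split_ifs with h0
    · rw [h0]; simp
    · rw [volume_tri, hcross, abs_neg, abs_of_nonneg (by have := hh0 k; positivity)]
      congr 1; ring
  have hTsub : ∀ k, T k ⊆ tri (vA c ρ k) (vB c ρ k) (Q k) := by
    intro k
    simp only [hT]
    split_ifs
    · exact empty_subset _
    · exact le_rfl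
  -- coordinates
  have hrep : ∀ k, ∀ x ∈ T k, ∃ a b p : ℝ, 0 < a ∧ 0 < b ∧ 0 < p ∧ a + b + p = 1 ∧
      x = a • vA c ρ k + b • vB c ρ k + p • Q k := by
    intro k x hx
    obtain ⟨z, ⟨h1, h2, h3⟩, rfl⟩ := hTsub k hx
    refine ⟨1 - z.re - z.im, z.re, z.im, by linarith, h1, h2, by ring, ?_⟩
    simp only [lm_apply]
    rw [smul_sub, smul_sub, sub_smul, sub_smul, one_smul]
    abel
  have hdotc : ∀ (w A B P : ℂ) (a b p : ℝ), a + b + p = 1 →
      dot w (a • A + b • B + p • P - c) = a * dot w (A - c) + b * dot w (B - c) + p * dot w (P - c) := by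
    intro w A B P a b p habp
    have : a • A + b • B + p • P - c = a • (A - c) + b • (B - c) + p • (P - c) := by
      have hc : c = a • c + b • c + p • c := by rw [← add_smul, ← add_smul, habp, one_smul]
      conv_lhs => rw [hc]
      rw [smul_sub, smul_sub, smul_sub]; abel
    rw [this, dot_add, dot_add, dot_smul, dot_smul, dot_smul]
  have hdot_self : ∀ k (a b p : ℝ), a + b + p = 1 →
      dot (nv ρ k) (a • vA c ρ k + b • vB c ρ k + p • Q k - c) = 1 + p * h k := by
    intro k a b p habp
    rw [hdotc _ _ _ _ _ _ _ habp, dot_vA_self, dot_vB_self]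
    simp only [hh]
    have : a = 1 - b - p := by linarith
    rw [this]; ring
  have hdot_ne : ∀ k l (a b p : ℝ), k ≠ l → 0 < a → 0 < b → 0 < p → a + b + p = 1 →
      dot (nv ρ l) (a • vA c ρ k + b • vB c ρ k + p • Q k - c) < 1 + p * h l := by
    intro k l a b p hkl ha hb' hp habp
    rw [hdotc _ _ _ _ _ _ _ habp]
    have h1 : dot (nv ρ l) (vA c ρ k - c) ≤ 1 := vA_mem c ρ k l
    have h2 : dot (nv ρ l) (vB c ρ k - c) ≤ 1 := vB_mem c ρ k l
    have h3 : dot (nv ρ l) (Q k - c) ≤ 1 + h l := by
      have := hQm l _ (mem_closure_of_corn (hQc k))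
      simp only [hh]
      rw [dot_sub, dot_sub]; linarith
    have e3 : p * dot (nv ρ l) (Q k - c) ≤ p * (1 + h l) := mul_le_mul_of_nonneg_left h3 hp.le
    rcases dot_vAB_lt c ρ hkl with h4 | h4
    · have e1 : a * dot (nv ρ l) (vA c ρ k - c) < a * 1 := mul_lt_mul_of_pos_left h4 ha
      have e2 : b * dot (nv ρ l) (vB c ρ k - c) ≤ b * 1 := mul_le_mul_of_nonneg_left h2 hb'.le
      nlinarith
    · have e1 : a * dot (nv ρ l) (vA c ρ k - c) ≤ a * 1 := mul_le_mul_of_nonneg_left h1 ha.le
      have e2 : b * dot (nv ρ l) (vB c ρ k - c) < b * 1 := mul_lt_mul_of_pos_left h4 hb'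
      nlinarith
  have hTd : Pairwise (fun k l => Disjoint (T k) (T l)) := by
    intro k l hkl
    rw [Set.disjoint_left]
    intro x hx hx'
    obtain ⟨a, b, p, ha, hb', hp, habp, hxe⟩ := hrep k x hx
    obtain ⟨a', b', p', ha', hb'', hp', habp', hxe'⟩ := hrep l x hx'
    have e1 := hdot_self k a b p habp
    have e2 := hdot_self l a' b' p' habp'
    have e3 := hdot_ne k l a b p hkl ha hb' hp habp
    have e4 := hdot_ne l k a' b' p' hkl.symm ha' hb'' hp' habp'
    rw [← hxe] at e1 e3
    rw [← hxe'] at e2 e4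
    have h5 : p * h k < p' * h k := by linarith
    have h6 : p' * h l < p * h l := by linarith
    have h7 : p < p' := lt_of_mul_lt_mul_right h5 (hh0 k)
    have h8 : p' < p := lt_of_mul_lt_mul_right h6 (hh0 l)
    linarith
  have hTb : Disjoint (body c ρ) (⋃ k, T k) := by
    rw [Set.disjoint_left]
    intro x hx hx'
    rw [mem_iUnion] at hx'
    obtain ⟨k, hk⟩ := hx'
    obtain ⟨a, b, p, ha, hb', hp, habp, hxe⟩ := hrep k x hk
    have e1 := hdot_self k a b p habp
    rw [← hxe] at e1
    have e2 := hx k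
    have := mul_nonneg hp.le (hh0 k)
    linarith
  have hTcl : ∀ k, T k ⊆ closure U := by
    intro k x hx
    obtain ⟨a, b, p, ha, hb', hp, habp, hxe⟩ := hrep k x hx
    rw [hxe]
    have hconv := hU.cv.closure
    have hA := hcl _ (vA_mem c ρ k)
    have hB := hcl _ (vB_mem c ρ k)
    have hQ := mem_closure_of_corn (hQc k)
    have := hconv.sum_mem (t := (Finset.univ : Finset (Fin 3))) (w := ![a, b, p])
      (z := ![vA c ρ k, vB c ρ k, Q k])
      (by intro i _; fin_cases i <;> simp [ha.le, hb'.le, hp.le])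
      (by simp [Fin.sum_univ_three, habp])
      (by intro i _; fin_cases i <;> simp [hA, hB, hQ])
    simpa [Fin.sum_univ_three] using this
  have hvol : volume (body c ρ) + ∑ k, ENNReal.ofReal (tau * h k) ≤ volume U := by
    rw [← closure_volume hU.op hU.cv]
    have h1 : body c ρ ∪ ⋃ k, T k ⊆ closure U :=
      union_subset (hsub.trans subset_closure) (iUnion_subset hTcl)
    have h2 := measure_mono (μ := volume) h1
    rw [measure_union hTb (MeasurableSet.iUnion (fun k => (hTo k).measurableSet)),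
      measure_iUnion hTd (fun k => (hTo k).measurableSet), tsum_fintype] at h2
    simp only [hTv] at h2
    exact h2
  have hUfin : volume U ≠ ⊤ := hb.measure_lt_top.ne
  have hbfin : volume (body c ρ) ≠ ⊤ := ne_top_of_le_ne_top hUfin (measure_mono hsub)
  have hvol' : (volume (body c ρ)).toReal + ∑ k, tau * h k ≤ (volume U).toReal := by
    rw [← ENNReal.ofReal_sum_of_nonneg (fun k _ => by have := hh0 k; positivity)] at hvol
    have h3 := ENNReal.toReal_mono hUfin hvol
    rw [ENNReal.toReal_add hbfin ENNReal.ofReal_ne_top, ENNReal.toReal_ofReal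
      (Finset.sum_nonneg (fun k _ => by have := hh0 k; positivity))] at h3
    exact h3
  refine le_trans (add_le_add le_rfl ?_) hvol'
  -- corners
  have hmaps : ∀ k ∈ (Finset.univ : Finset (ZMod 9)), Q k ∈ (finite_corners hU).toFinset := by
    intro k _
    rw [Set.Finite.mem_toFinset]; exact hQc k
  rw [← Finset.sum_fiberwise_of_maps_to hmaps]
  apply Finset.sum_le_sum
  intro P hP
  rw [Set.Finite.mem_toFinset] at hP
  obtain ⟨t, α, hc⟩ := hP
  obtain ⟨hPcl, hα0, hα1, htc⟩ := hc
  have hcor : IsCorner U P t α := ⟨hPcl, hα0, hα1, htc⟩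
  have hsang : 9 - sang U P = 9 * (π - α) / π := by
    unfold sang
    rw [ang_corner hcor]
    field_simp
  rw [hsang]
  have hx0 : 0 ≤ 9 * (π - α) / π := div_nonneg (by linarith) hπ.le
  have hx9 : 9 * (π - α) / π < 9 := by rw [div_lt_iff₀ hπ]; linarith
  have hxe : π * (9 * (π - α) / π) / 9 = π - α := by field_simp
  have hF := lam_le_F hx0 hx9
  rw [hxe] at hF
  have hsin : 0 < sin (π - α) := Real.sin_pos_of_pos_of_lt_pi (by linarith) (by linarith)
  set K := Finset.univ.filter (fun k : ZMod 9 => nv ρ k ∈ Sec (t + α + π / 2) (π - α)) with hK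
  have hsum := arc_sum ρ (t + α + π / 2) (π - α) (by linarith) (by linarith)
  have hKP : ∀ k ∈ K, Q k = P := by
    intro k hk
    by_contra hne
    have h1 := dot_neg_of_normal hcor (Finset.mem_filter.mp hk).2 (mem_closure_of_corn (hQc k)) hne
    have h2 := hQm k P hPcl
    linarith
  have hterm : ∀ k ∈ K, 2 * tau ^ 2 * (crs (e (t + α + π / 2)) (nv ρ k) *
      crs (nv ρ k) (e (t + α + π / 2 + (π - α)))) ≤ tau * h k * sin (π - α) := by
    intro k hk
    have hkS := (Finset.mem_filter.mp hk).2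
    have hQP := hKP k hk
    rw [normal_cone_eq] at hkS
    obtain ⟨g1, g2⟩ := hkS
    have mA : vA c ρ k - P ∈ closure (tc U P) :=
      mem_closure_tc (t := 1) one_pos (by simpa using hcl _ (vA_mem c ρ k))
    have mB : vB c ρ k - P ∈ closure (tc U P) :=
      mem_closure_tc (t := 1) one_pos (by simpa using hcl _ (vB_mem c ρ k))
    rw [htc] at mA mB
    have cA := (closure_Sec_subset _ _ mA).2
    have cB := (closure_Sec_subset _ _ mB).1
    have dA : dot (nv ρ k) (vA c ρ k - P) = - h k := by
      have := dot_vA_self c ρ k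
      simp only [hh]
      rw [hQP, dot_sub, dot_sub]
      rw [dot_sub] at this
      linarith
    have dB : dot (nv ρ k) (vB c ρ k - P) = - h k := by
      have := dot_vB_self c ρ k
      simp only [hh]
      rw [hQP, dot_sub, dot_sub]
      rw [dot_sub] at this
      linarith
    have dAB : crs (nv ρ k) (vB c ρ k - P - (vA c ρ k - P)) = 2 * tau := by
      rw [sub_sub_sub_cancel_right, vB_sub_vA, crs_smul]
      unfold nv
      rw [crs_e_e, add_sub_cancel_left, Real.sin_pi_div_two, mul_one]
    have hkey := corner_ineq (φ := ρ + 2 * π * (k.val : ℝ) / 9) (t := t) (α := α) (h := h k)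
      (s := 2 * tau) g1 g2 dA dB dAB cB cA
    have e1 : crs (e (t + α + π / 2)) (nv ρ k) = - dot (nv ρ k) (e (t + α)) := by
      rw [crs_e_eq_dot, show t + α + π / 2 + π / 2 = t + α + π by ring, e_add_pi, dot_comm]
      unfold dot; simp; ring
    have e2 : crs (nv ρ k) (e (t + α + π / 2 + (π - α))) = - dot (nv ρ k) (e t) := by
      rw [show t + α + π / 2 + (π - α) = t + π + π / 2 by ring, crs_e_half, e_add_pi, dot_comm]
      unfold dot; simp; ring
    rw [e1, e2, Real.sin_pi_sub]
    have e3 : nv ρ k = e (ρ + 2 * π * (k.val : ℝ) / 9) := rfl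
    rw [e3]
    have := mul_le_mul_of_nonneg_left hkey htau.le
    linarith
  have h5 : lam (9 * (π - α) / π) * sin (π - α) ≤ (∑ k ∈ K, tau * h k) * sin (π - α) := by
    refine le_trans hF ?_
    refine le_trans (mul_le_mul_of_nonneg_left hsum (by positivity)) ?_
    rw [Finset.mul_sum, Finset.sum_mul]
    exact Finset.sum_le_sum hterm
  have h6 : lam (9 * (π - α) / π) ≤ ∑ k ∈ K, tau * h k := le_of_mul_le_mul_right h5 hsin
  refine le_trans h6 ?_
  apply Finset.sum_le_sum_of_subset_of_nonneg
  · intro k hk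
    rw [Finset.mem_filter]
    exact ⟨Finset.mem_univ _, hKP k hk⟩
  · intro k _ _
    have := hh0 k
    positivity

end Nonagon
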