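import Mathlib

set_option autoImplicit false

namespace Nonagon

open MeasureTheory Set

/-- dot product on the plane -/
def dot (u v : ℂ) : ℝ := u.re * v.re + u.im * v.im

/-- cross product on the plane -/
def crs (u v : ℂ) : ℝ := u.re * v.im - u.im * v.re

/-- unit vector at angle t -/
noncomputable def e (t : ℝ) : ℂ := ⟨Real.cos t, Real.sin t⟩

/-- open sector from angle t to angle t + a (for a at most pi) -/
def Sec (t a : ℝ) : Set ℂ := {v | 0 < crs (e t) v ∧ 0 < crs v (e (t + a))}

@[simp] lemma e_re (t : ℝ) : (e t).re = Real.cos t := rfl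
@[simp] lemma e_im (t : ℝ) : (e t).im = Real.sin t := rfl

lemma dot_comm (u v : ℂ) : dot u v = dot v u := by unfold dot; ring
lemma crs_anti (u v : ℂ) : crs u v = - crs v u := by unfold crs; ring
lemma dot_add (u v w : ℂ) : dot u (v + w) = dot u v + dot u w := by
  unfold dot; simp; ring
lemma dot_sub (u v w : ℂ) : dot u (v - w) = dot u v - dot u w := by
  unfold dot; simp; ring
lemma dot_smul (u : ℂ) (r : ℝ) (v : ℂ) : dot u (r • v) = r * dot u v := by
  unfold dot; simp; ring
lemma dot_neg (u v : ℂ) : dot u (-v) = - dot u v := by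
  unfold dot; simp; ring
lemma add_dot (u v w : ℂ) : dot (u + v) w = dot u w + dot v w := by
  unfold dot; simp; ring
lemma smul_dot (u : ℂ) (r : ℝ) (v : ℂ) : dot (r • u) v = r * dot u v := by
  unfold dot; simp; ring
lemma dot_zero (u : ℂ) : dot u 0 = 0 := by unfold dot; simp
lemma crs_add (u v w : ℂ) : crs u (v + w) = crs u v + crs u w := by
  unfold crs; simp; ring
lemma crs_sub (u v w : ℂ) : crs u (v - w) = crs u v - crs u w := by
  unfold crs; simp; ring
lemma crs_smul (u : ℂ) (r : ℝ) (v : ℂ) : crs u (r • v) = r * crs u v := by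
  unfold crs; simp; ring
lemma smul_crs (u : ℂ) (r : ℝ) (v : ℂ) : crs (r • u) v = r * crs u v := by
  unfold crs; simp; ring
lemma add_crs (u v w : ℂ) : crs (u + v) w = crs u w + crs v w := by
  unfold crs; simp; ring
lemma sub_crs (u v w : ℂ) : crs (u - v) w = crs u w - crs v w := by
  unfold crs; simp; ring
lemma crs_neg (u v : ℂ) : crs u (-v) = - crs u v := by
  unfold crs; simp; ring
lemma neg_crs (u v : ℂ) : crs (-u) v = - crs u v := by
  unfold crs; simp; ring
lemma crs_zero (u : ℂ) : crs u 0 = 0 := by unfold crs; simp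
lemma zero_crs (u : ℂ) : crs 0 u = 0 := by unfold crs; simp
lemma crs_self (u : ℂ) : crs u u = 0 := by unfold crs; ring

lemma continuous_dot (u : ℂ) : Continuous (dot u) := by
  unfold dot; fun_prop
lemma continuous_crs (u : ℂ) : Continuous (crs u) := by
  unfold crs; fun_prop
lemma continuous_crs' (u : ℂ) : Continuous (fun v => crs v u) := by
  unfold crs; fun_prop
lemma e_eq_exp (t : ℝ) : e t = Complex.exp (t * Complex.I) := by
  rw [Complex.exp_mul_I]
  apply Complex.ext
  · rw [e_re, Complex.add_re, Complex.mul_re, Complex.I_re, Complex.I_im, ← Complex.ofReal_cos,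
      ← Complex.ofReal_sin, Complex.ofReal_re, Complex.ofReal_im]; ring
  · rw [e_im, Complex.add_im, Complex.mul_im, Complex.I_re, Complex.I_im, ← Complex.ofReal_cos,
      ← Complex.ofReal_sin, Complex.ofReal_re, Complex.ofReal_im]; ring
lemma continuous_e : Continuous e := by
  have : e = fun t : ℝ => Complex.exp (t * Complex.I) := by
    ext t; exact e_eq_exp t
  rw [this]; fun_prop

lemma crs_e_e (s t : ℝ) : crs (e s) (e t) = Real.sin (t - s) := by
  unfold crs; simp [Real.sin_sub]; ring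
lemma dot_e_e (s t : ℝ) : dot (e s) (e t) = Real.cos (t - s) := by
  unfold dot; simp [Real.cos_sub]; ring

lemma e_add_pi (t : ℝ) : e (t + Real.pi) = - e t := by
  apply Complex.ext
  · rw [e_re, Complex.neg_re, e_re, Real.cos_add_pi]
  · rw [e_im, Complex.neg_im, e_im, Real.sin_add_pi]
lemma e_sub_pi (t : ℝ) : e (t - Real.pi) = - e t := by
  apply Complex.ext
  · rw [e_re, Complex.neg_re, e_re, Real.cos_sub_pi]
  · rw [e_im, Complex.neg_im, e_im, Real.sin_sub_pi]
lemma e_add_two_pi (t : ℝ) : e (t + 2 * Real.pi) = e t := by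
  apply Complex.ext
  · rw [e_re, e_re, Real.cos_add_two_pi]
  · rw [e_im, e_im, Real.sin_add_two_pi]
lemma norm_e (t : ℝ) : ‖e t‖ = 1 := by
  have : ‖e t‖ ^ 2 = 1 := by
    rw [← Complex.normSq_eq_norm_sq, Complex.normSq_apply]
    simp
    nlinarith [Real.sin_sq_add_cos_sq t]
  nlinarith [norm_nonneg (e t)]
lemma e_ne_zero (t : ℝ) : e t ≠ 0 := by
  intro h
  have := norm_e t
  rw [h] at this; simp at this

lemma e_inj_of {s t : ℝ} (h : e s = e t) : ∃ n : ℤ, t = s + 2 * n * Real.pi := by
  have hc : Real.cos s = Real.cos t := by rw [← e_re, ← e_re, h]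
  have hs : Real.sin s = Real.sin t := by rw [← e_im, ← e_im, h]
  have h1 : Real.cos (t - s) = 1 := by
    rw [Real.cos_sub, ← hc, ← hs]; nlinarith [Real.sin_sq_add_cos_sq s]
  rw [Real.cos_eq_one_iff] at h1
  obtain ⟨n, hn⟩ := h1
  exact ⟨n, by linarith⟩

/-- orthonormal coordinates in the frame (e a, i e a) -/
lemma frame (a : ℝ) (v : ℂ) : v = (dot (e a) v) • e a + (crs (e a) v) • e (a + Real.pi / 2) := by
  have h := Real.sin_sq_add_cos_sq a
  apply Complex.ext
  · simp only [dot, crs, Complex.add_re, Complex.smul_re, e_re, e_im, smul_eq_mul,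
      Real.cos_add_pi_div_two]
    linear_combination (- v.re) * h
  · simp only [dot, crs, Complex.add_im, Complex.smul_im, e_re, e_im, smul_eq_mul,
      Real.sin_add_pi_div_two]
    linear_combination (- v.im) * h

lemma exists_polar {a : ℝ} {v : ℂ} (hv : 0 ≤ crs (e a) v) (hv0 : v ≠ 0) :
    ∃ r θ : ℝ, 0 < r ∧ a ≤ θ ∧ θ ≤ a + Real.pi ∧ v = r • e θ := by
  set w : ℂ := ⟨dot (e a) v, crs (e a) v⟩ with hw
  have hwim : 0 ≤ w.im := hv
  have hfr := frame a v
  have hw0 : w ≠ 0 := by
    intro h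
    have h1 : dot (e a) v = 0 := by simpa [hw] using congrArg Complex.re h
    have h2 : crs (e a) v = 0 := by simpa [hw] using congrArg Complex.im h
    rw [h1, h2] at hfr
    simp at hfr
    exact hv0 hfr
  refine ⟨‖w‖, a + w.arg, norm_pos_iff.mpr hw0, ?_, ?_, ?_⟩
  · have := Complex.arg_nonneg_iff.mpr hwim; linarith
  · have := Complex.arg_le_pi w; linarith
  · have h1 : ‖w‖ * Real.cos w.arg = dot (e a) v := by rw [Complex.norm_mul_cos_arg]
    have h2 : ‖w‖ * Real.sin w.arg = crs (e a) v := by rw [Complex.norm_mul_sin_arg]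
    rw [hfr, ← h1, ← h2]
    apply Complex.ext
    · simp only [Complex.add_re, Complex.smul_re, e_re, smul_eq_mul,
        Real.cos_add_pi_div_two, Real.cos_add a w.arg]
      ring
    · simp only [Complex.add_im, Complex.smul_im, e_im, smul_eq_mul,
        Real.sin_add_pi_div_two, Real.sin_add a w.arg]
      ring

lemma exists_polar' {a : ℝ} {v : ℂ} (hv : 0 < crs (e a) v) :
    ∃ r θ : ℝ, 0 < r ∧ a < θ ∧ θ < a + Real.pi ∧ v = r • e θ := by
  have hv0 : v ≠ 0 := by
    intro h; rw [h, crs_zero] at hv; exact lt_irrefl _ hv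
  obtain ⟨r, θ, hr, h1, h2, rfl⟩ := exists_polar hv.le hv0
  rw [crs_smul, crs_e_e] at hv
  have hs : 0 < Real.sin (θ - a) := by
    by_contra h
    push Not at h
    nlinarith
  refine ⟨r, θ, hr, ?_, ?_, rfl⟩
  · rcases h1.lt_or_eq with h | h
    · exact h
    · rw [h] at hs; simp at hs
  · rcases h2.lt_or_eq with h | h
    · exact h
    · rw [h] at hs; simp at hs

/-- membership of a unit vector in a sector, in a half-plane frame -/
lemma mem_Sec_iff {a s α θ r : ℝ} (h1 : a ≤ s) (h0 : 0 < α) (h2 : s + α ≤ a + Real.pi)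
    (hθ1 : a ≤ θ) (hθ2 : θ ≤ a + Real.pi) (hr : 0 < r) :
    r • e θ ∈ Sec s α ↔ s < θ ∧ θ < s + α := by
  unfold Sec
  simp only [mem_ofPred_eq, crs_smul, smul_crs, crs_e_e]
  rw [mul_pos_iff_of_pos_left hr, mul_pos_iff_of_pos_left hr]
  constructor
  · rintro ⟨ha, hb⟩
    constructor
    · by_contra hc
      push Not at hc
      have := Real.sin_nonpos_of_nonpos_of_neg_pi_le (x := θ - s) (by linarith) (by linarith)
      linarith
    · by_contra hc
      push Not at hc
      have := Real.sin_nonpos_of_nonpos_of_neg_pi_le (x := s + α - θ) (by linarith) (by linarith)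
      linarith
  · rintro ⟨ha, hb⟩
    constructor
    · exact Real.sin_pos_of_pos_of_lt_pi (by linarith) (by linarith)
    · exact Real.sin_pos_of_pos_of_lt_pi (by linarith) (by linarith)

lemma Sec_subset_half {s α : ℝ} : Sec s α ⊆ {v | 0 < crs (e s) v} := fun _ hv => hv.1

lemma Sec_pi (s : ℝ) : Sec s Real.pi = {v | 0 < crs (e s) v} := by
  ext v
  unfold Sec
  simp only [mem_ofPred_eq, e_add_pi, crs_neg]
  rw [crs_anti v (e s)]
  simp

lemma isOpen_Sec (s α : ℝ) : IsOpen (Sec s α) := by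
  apply IsOpen.inter
  · exact isOpen_lt continuous_const (continuous_crs _)
  · exact isOpen_lt continuous_const (continuous_crs' _)

lemma convex_Sec (s α : ℝ) : Convex ℝ (Sec s α) := by
  intro x hx y hy p q hp hq hpq
  obtain ⟨h1, h2⟩ := hx
  obtain ⟨h3, h4⟩ := hy
  constructor
  · rw [crs_add, crs_smul, crs_smul]
    rcases hp.lt_or_eq with h | h
    · have := mul_pos h h1
      have := mul_nonneg hq h3.le
      linarith
    · have hq1 : q = 1 := by linarith
      rw [← h, hq1]; simpa using h3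
  · rw [add_crs, smul_crs, smul_crs]
    rcases hp.lt_or_eq with h | h
    · have := mul_pos h h2
      have := mul_nonneg hq h4.le
      linarith
    · have hq1 : q = 1 := by linarith
      rw [← h, hq1]; simpa using h4

lemma smul_mem_Sec {s α r : ℝ} (hr : 0 < r) {v : ℂ} (hv : v ∈ Sec s α) : r • v ∈ Sec s α := by
  obtain ⟨h1, h2⟩ := hv
  refine ⟨?_, ?_⟩
  · rw [crs_smul]; positivity
  · rw [smul_crs]; positivity

lemma Sec_nonempty {s α : ℝ} (h0 : 0 < α) (h1 : α ≤ Real.pi) : (Sec s α).Nonempty := by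
  refine ⟨(1 : ℝ) • e (s + α / 2), ?_⟩
  rw [mem_Sec_iff (a := s) le_rfl h0 (by linarith) (by linarith) (by linarith) one_pos]
  constructor <;> linarith

/-- convex combination of unit vectors -/
lemma e_combo {a b c : ℝ} : Real.sin (c - a) • e b = Real.sin (c - b) • e a + Real.sin (b - a) • e c := by
  apply Complex.ext
  · simp only [Complex.add_re, Complex.smul_re, e_re, smul_eq_mul, Real.sin_sub]; ring
  · simp only [Complex.add_im, Complex.smul_im, e_im, smul_eq_mul, Real.sin_sub]; ring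

/-- classification of open convex cones in a half-plane -/
lemma cone_eq_Sec {K : Set ℂ} {a : ℝ} (hK : IsOpen K) (hc : Convex ℝ K)
    (hs : ∀ v ∈ K, ∀ r : ℝ, 0 < r → r • v ∈ K) (hne : K.Nonempty)
    (hsub : ∀ v ∈ K, 0 < crs (e a) v) :
    ∃ s α : ℝ, a ≤ s ∧ 0 < α ∧ s + α ≤ a + Real.pi ∧ K = Sec s α := by
  set A : Set ℝ := {θ | a < θ ∧ θ < a + Real.pi ∧ e θ ∈ K} with hA
  have hAopen : IsOpen A := by
    have : A = Ioo a (a + Real.pi) ∩ e ⁻¹' K := by
      ext θ; simp [hA, and_assoc]
    rw [this]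
    exact isOpen_Ioo.inter (hK.preimage continuous_e)
  have hAbdd : BddBelow A ∧ BddAbove A :=
    ⟨⟨a, fun x hx => hx.1.le⟩, ⟨a + Real.pi, fun x hx => hx.2.1.le⟩⟩
  have hAne : A.Nonempty := by
    obtain ⟨v, hv⟩ := hne
    obtain ⟨r, θ, hr, h1, h2, rfl⟩ := exists_polar' (hsub v hv)
    refine ⟨θ, h1, h2, ?_⟩
    have := hs _ hv r⁻¹ (inv_pos.mpr hr)
    rwa [smul_smul, inv_mul_cancel₀ hr.ne', one_smul] at this
  have hord : ∀ x ∈ A, ∀ y ∈ A, ∀ z, x < z → z < y → z ∈ A := by
    intro x hx y hy z hxz hzy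
    refine ⟨by linarith [hx.1], by linarith [hy.2.1], ?_⟩
    have hlt : y - x < Real.pi := by linarith [hx.1, hy.2.1]
    have s1 : 0 < Real.sin (y - x) := Real.sin_pos_of_pos_of_lt_pi (by linarith) hlt
    have s2 : 0 < Real.sin (y - z) := Real.sin_pos_of_pos_of_lt_pi (by linarith) (by linarith)
    have s3 : 0 < Real.sin (z - x) := Real.sin_pos_of_pos_of_lt_pi (by linarith) (by linarith)
    have key := @e_combo x z y
    have m1 : Real.sin (y - z) • e x ∈ K := hs _ hx.2.2 _ s2
    have m2 : Real.sin (z - x) • e y ∈ K := hs _ hy.2.2 _ s3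
    have m3 : (1/2 : ℝ) • (Real.sin (y - z) • e x) + (1/2 : ℝ) • (Real.sin (z - x) • e y) ∈ K :=
      hc m1 m2 (by norm_num) (by norm_num) (by norm_num)
    rw [← smul_add, ← key, smul_smul] at m3
    have m4 := hs _ m3 (1/2 * Real.sin (y - x))⁻¹ (by positivity)
    rwa [smul_smul, inv_mul_cancel₀ (by positivity), one_smul] at m4
  set s := sInf A
  set s' := sSup A
  have hmem : ∀ θ, θ ∈ A ↔ s < θ ∧ θ < s' := by
    intro θ
    constructor
    · intro hθ
      obtain ⟨ε, hε, hball⟩ := Metric.isOpen_iff.mp hAopen θ hθ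
      have h1 : θ - ε/2 ∈ A := hball (by simp [abs_of_pos hε]; exact hε)
      have h2 : θ + ε/2 ∈ A := hball (by simp [abs_of_pos hε]; exact hε)
      have := csInf_le hAbdd.1 h1
      have := le_csSup hAbdd.2 h2
      constructor <;> linarith
    · rintro ⟨h1, h2⟩
      obtain ⟨x, hx, hxl⟩ := exists_lt_of_csInf_lt hAne h1
      obtain ⟨y, hy, hyl⟩ := exists_lt_of_lt_csSup hAne h2
      exact hord x hx y hy θ hxl hyl
  have hss' : s < s' := by
    obtain ⟨x, hx⟩ := hAne
    have := (hmem x).mp hx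
    linarith
  have has : a ≤ s := le_csInf hAne (fun x hx => hx.1.le)
  have hsa : s' ≤ a + Real.pi := csSup_le hAne (fun x hx => hx.2.1.le)
  refine ⟨s, s' - s, has, by linarith, by linarith, ?_⟩
  ext v
  constructor
  · intro hv
    obtain ⟨r, θ, hr, h1, h2, rfl⟩ := exists_polar' (hsub v hv)
    rw [mem_Sec_iff has (by linarith) (by linarith) h1.le h2.le hr]
    have hθ : θ ∈ A := by
      refine ⟨h1, h2, ?_⟩
      have := hs _ hv r⁻¹ (inv_pos.mpr hr)
      rwa [smul_smul, inv_mul_cancel₀ hr.ne', one_smul] at this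
    have := (hmem θ).mp hθ
    constructor <;> linarith
  · intro hv
    have h0 : 0 ≤ crs (e a) v := by
      obtain ⟨r, θ, hr, h1, h2, rfl⟩ := exists_polar' hv.1
      -- θ ∈ (s, s + π)
      have h3 : r • e θ ∈ Sec s (s' - s) := hv
      rw [mem_Sec_iff (a := s) le_rfl (by linarith) (by linarith) h1.le h2.le hr] at h3
      rw [crs_smul, crs_e_e]
      exact mul_nonneg hr.le (Real.sin_nonneg_of_nonneg_of_le_pi (by linarith) (by linarith))
    have hv0 : v ≠ 0 := by
      rintro rfl
      have := hv.1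
      rw [crs_zero] at this
      exact lt_irrefl _ this
    obtain ⟨r, θ, hr, h1, h2, rfl⟩ := exists_polar h0 hv0
    rw [mem_Sec_iff has (by linarith) (by linarith) h1 h2 hr] at hv
    have : θ ∈ A := (hmem θ).mpr ⟨hv.1, by linarith [hv.2]⟩
    exact hs _ this.2.2 r hr

/-- closure of a sector -/
lemma mem_closure_Sec {a s α θ r : ℝ} (h1 : a ≤ s) (h0 : 0 < α) (h2 : s + α ≤ a + Real.pi)
    (hr : 0 < r) (h3 : s ≤ θ) (h4 : θ ≤ s + α) : r • e θ ∈ closure (Sec s α) := by
  -- approximate θ by angles inside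
  have hcont : Filter.Tendsto (fun x : ℝ => r • e x) (nhdsWithin θ (Ioo s (s + α)))
      (nhds (r • e θ)) := by
    have : Continuous (fun x : ℝ => r • e x) := continuous_e.const_smul r
    exact (this.tendsto θ).mono_left nhdsWithin_le_nhds
  have hne : (nhdsWithin θ (Ioo s (s + α))).NeBot := by
    apply mem_closure_iff_nhdsWithin_neBot.mp
    rw [closure_Ioo (by linarith)]
    exact ⟨h3, h4⟩
  refine mem_closure_of_tendsto hcont ?_
  filter_upwards [self_mem_nhdsWithin] with x hx
  rw [mem_Sec_iff h1 h0 h2 (by linarith [hx.1]) (by linarith [hx.2]) hr]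
  exact hx

lemma closure_Sec_subset (s α : ℝ) :
    closure (Sec s α) ⊆ {v | 0 ≤ crs (e s) v ∧ 0 ≤ crs v (e (s + α))} := by
  apply closure_minimal
  · intro v hv; exact ⟨hv.1.le, hv.2.le⟩
  · apply IsClosed.inter
    · exact isClosed_le continuous_const (continuous_crs _)
    · exact isClosed_le continuous_const (continuous_crs' _)

end Nonagon
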