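import Pool.Agent.Lib.MP_b090c9_co.Side

set_option autoImplicit false

namespace Nonagon

open MeasureTheory Set Filter Topology

lemma isOpen_half (n : ℂ) (c : ℝ) : IsOpen {x : ℂ | dot n x < c} :=
  isOpen_lt (continuous_dot _) continuous_const

lemma convex_half (n : ℂ) (c : ℝ) : Convex ℝ {x : ℂ | dot n x < c} := by
  intro x hx y hy a b ha hb hab
  simp only [mem_ofPred_eq] at *
  rw [dot_add, dot_smul, dot_smul]
  rcases ha.lt_or_eq with h | h
  · have h1 := mul_lt_mul_of_pos_left hx h
    have h2 := mul_le_mul_of_nonneg_left hy.le hb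
    calc a * dot n x + b * dot n y < a * c + b * c := by linarith
      _ = c := by rw [← add_mul, hab, one_mul]
  · have hb1 : b = 1 := by linarith
    rw [← h, hb1]; linarith

/-- V is a maximal open convex set disjoint from all U j -/
structure MaxDisj {J : Type*} (U : J → Set ℂ) (V : Set ℂ) : Prop where
  op : IsOpen V
  cv : Convex ℝ V
  dj : ∀ j, Disjoint V (U j)
  mx : ∀ V', IsOpen V' → Convex ℝ V' → (∀ j, Disjoint V' (U j)) → V ⊆ V' → V' ⊆ V

section
variable {J : Type*} [Fintype J] {U : J → Set ℂ} {V : Set ℂ}

lemma max_repr' (ho : ∀ j, IsOpen (U j)) (hc : ∀ j, Convex ℝ (U j)) (hn : ∀ j, (U j).Nonempty)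
    (hV : MaxDisj U V) (hne : V.Nonempty) :
    ∃ (n : J → ℂ) (c : J → ℝ), (∀ j, n j ≠ 0) ∧ V = {x | ∀ j, dot (n j) x < c j} ∧
      ∀ j, ∀ x ∈ U j, c j < dot (n j) x := by
  have hsep : ∀ j, ∃ (m : ℂ) (d : ℝ), m ≠ 0 ∧ (∀ x ∈ V, dot m x < d) ∧ ∀ x ∈ U j, d < dot m x := by
    intro j
    obtain ⟨f, u, h1, h2⟩ := geometric_hahn_banach_open_open hV.cv hV.op (hc j) (ho j) (hV.dj j)
    refine ⟨⟨f 1, f Complex.I⟩, u, ?_, ?_, ?_⟩
    · intro h
      obtain ⟨x, hx⟩ := hne
      obtain ⟨y, hy⟩ := hn j
      have h3 := h1 x hx
      have h4 := h2 y hy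
      rw [functional_eq_dot, h] at h3 h4
      unfold dot at h3 h4
      simp at h3 h4
      linarith
    · intro x hx
      have := h1 x hx
      rwa [functional_eq_dot] at this
    · intro x hx
      have := h2 x hx
      rwa [functional_eq_dot] at this
  choose n c hn h1 h2 using hsep
  refine ⟨n, c, hn, ?_, h2⟩
  have hopen : IsOpen {x | ∀ j, dot (n j) x < c j} := by
    have : {x | ∀ j, dot (n j) x < c j} = ⋂ j, {x | dot (n j) x < c j} := by
      ext x; simp
    rw [this]
    exact isOpen_iInter_of_finite (fun j => isOpen_half _ _)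
  have hconv : Convex ℝ {x | ∀ j, dot (n j) x < c j} := by
    have : {x | ∀ j, dot (n j) x < c j} = ⋂ j, {x | dot (n j) x < c j} := by
      ext x; simp
    rw [this]
    exact convex_iInter (fun j => convex_half _ _)
  apply Subset.antisymm
  · intro x hx j; exact h1 j x hx
  · apply hV.mx _ hopen hconv
    · intro j
      rw [Set.disjoint_left]
      intro x hx hxj
      exact lt_irrefl _ ((hx j).trans (h2 j x hxj))
    · intro x hx j; exact h1 j x hx

lemma max_repr (hU : ∀ j, IsCell (U j)) (hV : MaxDisj U V) (hne : V.Nonempty) :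
    ∃ (n : J → ℂ) (c : J → ℝ), (∀ j, n j ≠ 0) ∧ V = {x | ∀ j, dot (n j) x < c j} ∧
      ∀ j, ∀ x ∈ U j, c j < dot (n j) x :=
  max_repr' (fun j => (hU j).op) (fun j => (hU j).cv) (fun j => (hU j).ne) hV hne

lemma max_cell' (ho : ∀ j, IsOpen (U j)) (hc : ∀ j, Convex ℝ (U j)) (hn : ∀ j, (U j).Nonempty)
    (hV : MaxDisj U V) (hne : V.Nonempty) : IsCell V := by
  classical
  obtain ⟨n, c, _, hVeq, _⟩ := max_repr' ho hc hn hV hne
  refine ⟨hV.op, hV.cv, hne, Finset.univ.image (fun j => (n j, c j)), ?_⟩
  rw [hVeq]
  ext x; simp

lemma max_cell (hU : ∀ j, IsCell (U j)) (hV : MaxDisj U V) (hne : V.Nonempty) : IsCell V :=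
  max_cell' (fun j => (hU j).op) (fun j => (hU j).cv) (fun j => (hU j).ne) hV hne

/-- coordinates along the frame -/
lemma frame_sub (t : ℝ) (v : ℂ) (φ : ℝ) :
    crs (e φ) v = dot (e t) v * Real.sin (t - φ) + crs (e t) v * Real.cos (t - φ) := by
  conv_lhs => rw [frame t v]
  rw [crs_add, crs_smul, crs_smul, crs_e_e, crs_e_e]
  have : Real.sin (t + Real.pi / 2 - φ) = Real.cos (t - φ) := by
    rw [← Real.sin_add_pi_div_two]; congr 1; ring
  rw [this]

lemma block (hU : ∀ j, IsCell (U j)) (hV : MaxDisj U V) (hb : Bornology.IsBounded V)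
    {P : ℂ} {t α : ℝ} (hP : IsCorner V P t α) :
    ∃ j, (Osid V P (e t) ∩ closure (U j)).Nonempty := by
  obtain ⟨hPc, hα0, hαπ, htc⟩ := hP
  have hne : V.Nonempty := by
    by_contra h
    rw [Set.not_nonempty_iff_eq_empty] at h
    rw [h] at hPc; simp at hPc
  have hcell := max_cell hU hV hne
  obtain ⟨n, c, hn0, hVeq, hsep⟩ := max_repr hU hV hne
  have hhalfP : ∀ v ∈ tc V P, 0 < crs (e t) v := by
    intro v hv; rw [htc] at hv; exact hv.1
  have hfwd : e t ∈ closure (tc V P) := by
    rw [htc]; exact e_t_mem_closure_Sec hα0 hαπ.le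
  obtain ⟨L, s', hL, hts, hst, ⟨hbc, _, _, htcb⟩, hmax⟩ := ray_fwd hcell hb hPc hhalfP hfwd
  set b := P + L • e t with hbdef
  by_contra hcon
  have hcon' : ∀ j, ∀ z, z ∈ Osid V P (e t) → z ∉ closure (U j) := by
    intro j z hz hz'
    exact hcon ⟨j, z, hz, hz'⟩
  -- points strictly between P and b are in Osid
  have hOs : ∀ r, 0 < r → r < L → P + r • e t ∈ Osid V P (e t) :=
    fun r h1 h2 => ⟨r, L, h1, h2, rfl, hbc⟩
  set z := P + (L / 2) • e t with hz
  have hzc : z ∈ closure V := (flat_on_side hcell hPc hhalfP (hOs (L/2) (by linarith) (by linarith))).1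
  -- constraints are weak on the closure
  have hle : ∀ j, ∀ x ∈ closure V, dot (n j) x ≤ c j := by
    intro j
    have hsub : V ⊆ {x | dot (n j) x ≤ c j} := by
      intro x hx; rw [hVeq] at hx; exact (hx j).le
    exact closure_minimal hsub (isClosed_le (continuous_dot _) continuous_const)
  -- claims 1 and 2
  have claim1 : ∀ x ∈ V, ∀ ε, 0 < ε → ε ≤ Real.sin α →
      - crs (e t) (x - P) < ε * dot (e t) (x - P) := by
    intro x hx ε hε hεα
    have hx1 := sub_mem_tc (P := P) hx
    rw [htc] at hx1
    obtain ⟨h1, h2⟩ := hx1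
    rw [crs_anti, frame_sub t (x - P) (t + α)] at h2
    have e1 : Real.sin (t - (t + α)) = - Real.sin α := by
      rw [← Real.sin_neg]; congr 1; ring
    have e2 : Real.cos (t - (t + α)) = Real.cos α := by
      rw [← Real.cos_neg]; congr 1; ring
    rw [e1, e2] at h2
    set X := dot (e t) (x - P)
    set y := crs (e t) (x - P)
    rcases le_or_gt 0 X with hX | hX
    · have := mul_nonneg hε.le hX; linarith
    · have h3 : Real.sin α * X ≤ ε * X := mul_le_mul_of_nonpos_right hεα hX.le
      have h4 : - y ≤ y * Real.cos α := by nlinarith [Real.neg_one_le_cos α]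
      nlinarith
  have claim2 : ∀ x ∈ V, ∀ ε, 0 < ε → ε ≤ Real.sin (s' - t) →
      - crs (e t) (x - P) < ε * (L - dot (e t) (x - P)) := by
    intro x hx ε hε hεα
    have hx0 := hhalfP _ (sub_mem_tc (P := P) hx)
    have hx1 := sub_mem_tc (P := b) hx
    rw [htcb] at hx1
    have h2 := hx1.1
    have hxb : x - b = (x - P) - L • e t := by rw [hbdef]; abel
    rw [hxb, crs_sub, crs_smul, crs_e_e, frame_sub t (x - P) s'] at h2
    have e1 : Real.sin (t - s') = - Real.sin (s' - t) := by
      rw [← Real.sin_neg]; congr 1; ring
    have e2 : Real.cos (t - s') = Real.cos (s' - t) := by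
      rw [← Real.cos_neg]; congr 1; ring
    rw [e1, e2] at h2
    set X := dot (e t) (x - P)
    set y := crs (e t) (x - P)
    rcases le_or_gt 0 (L - X) with hX | hX
    · have := mul_nonneg hε.le hX; linarith
    · have h3 : Real.sin (s' - t) * (L - X) ≤ ε * (L - X) := mul_le_mul_of_nonpos_right hεα hX.le
      have h4 : y * Real.cos (s' - t) ≤ y := by nlinarith [Real.cos_le_one (s' - t)]
      nlinarith
  -- claim 3
  have claim3 : ∀ j, ∀ᶠ ε in 𝓝[>] (0:ℝ), ¬ dot (n j) z < c j → ∀ x ∈ U j,
      ¬ (- crs (e t) (x - P) < ε * dot (e t) (x - P) ∧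
        - crs (e t) (x - P) < ε * (L - dot (e t) (x - P))) := by
    intro j
    by_cases hj : dot (n j) z < c j
    · exact Filter.Eventually.of_forall (fun _ h => absurd hj h)
    · have hjz : dot (n j) z = c j := le_antisymm (hle j z hzc) (not_lt.mp hj)
      have hjP := hle j P hPc
      have hjb := hle j b hbc
      have hzexp : dot (n j) z = dot (n j) P + L / 2 * dot (n j) (e t) := by
        rw [hz, dot_add, dot_smul]
      have hbexp : dot (n j) b = dot (n j) P + L * dot (n j) (e t) := by
        rw [hbdef, dot_add, dot_smul]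
      have hperp : dot (n j) (e t) = 0 := by nlinarith
      have hjP' : dot (n j) P = c j := by rw [hzexp, hperp] at hjz; linarith
      have hexp : ∀ x, dot (n j) x - c j = crs (e t) (x - P) * dot (n j) (e (t + Real.pi / 2)) := by
        intro x
        have h1 : dot (n j) (x - P) = crs (e t) (x - P) * dot (n j) (e (t + Real.pi / 2)) := by
          conv_lhs => rw [frame t (x - P)]
          rw [dot_add, dot_smul, dot_smul, hperp]; ring
        rw [← h1, dot_sub, hjP']
      have hm : dot (n j) (e (t + Real.pi / 2)) < 0 := by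
        obtain ⟨x, hx⟩ := hne
        have h1 := hhalfP _ (sub_mem_tc (P := P) hx)
        have h2 : dot (n j) x < c j := by rw [hVeq] at hx; exact hx j
        have h3 := hexp x
        by_contra hc
        push Not at hc
        nlinarith
      have hUneg : ∀ x ∈ U j, crs (e t) (x - P) < 0 := by
        intro x hx
        have h1 := hsep j x hx
        have h3 := hexp x
        by_contra hc
        push Not at hc
        nlinarith
      -- half plane for tangent cones of U j at points of the line
      have hhalfU : ∀ r : ℝ, ∀ v ∈ tc (U j) (P + r • e t), 0 < crs (e (t + Real.pi)) v := by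
        rintro r v ⟨τ, hτ, hv⟩
        have h1 := hUneg _ hv
        have h2 : P + r • e t + τ • v - P = r • e t + τ • v := by abel
        rw [h2, crs_add, crs_smul, crs_smul, crs_self, mul_zero, zero_add] at h1
        rw [e_add_pi, neg_crs]
        by_contra hc
        push Not at hc
        nlinarith
      have hconv : (∃ ε₀ : ℝ, 0 < ε₀ ∧ ∀ ε, 0 < ε → ε ≤ ε₀ → ∀ x ∈ U j,
          ¬ (- crs (e t) (x - P) < ε * dot (e t) (x - P) ∧
            - crs (e t) (x - P) < ε * (L - dot (e t) (x - P)))) := by
        by_cases hbU : b ∈ closure (U j)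
        · -- case b in closure
          obtain ⟨s2, β, h1, h2, h3, h4⟩ := tc_frame (hU j).op (hU j).cv (hU j).ne hbU
            (hhalfU L)
          have hs2 : t + Real.pi < s2 := by
            rcases h1.lt_or_eq with h | h
            · exact h
            · exfalso
              have h6 : e (t + Real.pi) ∈ closure (tc (U j) b) := by
                rw [h4, ← h]; exact e_t_mem_closure_Sec h2 (by linarith)
              have hev := (local_exact (hU j) hbU h6).and (Ioo_mem_nhdsGT hL)
              obtain ⟨r, hr1, hr2⟩ := hev.exists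
              have hr3 : b + r • e (t + Real.pi) = P + (L - r) • e t := by
                rw [hbdef, e_add_pi, sub_smul, smul_neg]; abel
              rw [hr3] at hr1
              exact hcon' j _ (hOs (L - r) (by linarith [hr2.2]) (by linarith [hr2.1])) hr1
          refine ⟨Real.sin (s2 - (t + Real.pi)),
            Real.sin_pos_of_pos_of_lt_pi (by linarith) (by linarith), ?_⟩
          intro ε hε hε2 x hx ⟨_, hx2⟩
          have hx0 := hUneg x hx
          have hx1 := sub_mem_tc (P := b) hx
          rw [h4] at hx1
          have h5 := hx1.1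
          have hxb : x - b = (x - P) - L • e t := by rw [hbdef]; abel
          rw [hxb, crs_sub, crs_smul, crs_e_e, frame_sub t (x - P) s2] at h5
          have e1 : Real.sin (t - s2) = Real.sin (s2 - (t + Real.pi)) := by
            rw [show t - s2 = -(s2 - (t + Real.pi)) - Real.pi by ring, Real.sin_sub_pi, Real.sin_neg,
              neg_neg]
          have e2 : Real.cos (t - s2) = - Real.cos (s2 - (t + Real.pi)) := by
            rw [show t - s2 = -(s2 - (t + Real.pi)) - Real.pi by ring, Real.cos_sub_pi, Real.cos_neg]
          rw [e1, e2] at h5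
          set σ := s2 - (t + Real.pi)
          set X := dot (e t) (x - P)
          set y := crs (e t) (x - P)
          have hLX : 0 < L - X := by
            by_contra hc
            push Not at hc
            have := mul_nonpos_of_nonneg_of_nonpos hε.le hc
            linarith
          have h6 : -y * Real.cos σ ≤ -y := by nlinarith [Real.cos_le_one σ]
          have h7 : ε * (L - X) ≤ Real.sin σ * (L - X) := mul_le_mul_of_nonneg_right hε2 hLX.le
          nlinarith
        · by_cases hPU : P ∈ closure (U j)
          · -- case P in closure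
            have hPU' : P + (0:ℝ) • e t ∈ closure (U j) := by simpa using hPU
            have hh := hhalfU 0
            have hP0 : P + (0:ℝ) • e t = P := by simp
            rw [hP0] at hh
            obtain ⟨s2, β, h1, h2, h3, h4⟩ := tc_frame (hU j).op (hU j).cv (hU j).ne hPU hh
            have hs2 : s2 + β < t + 2 * Real.pi := by
              rcases h3.lt_or_eq with h | h
              · linarith
              · exfalso
                have h6 : e t ∈ closure (tc (U j) P) := by
                  have h7 : e (s2 + β) ∈ closure (tc (U j) P) := by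
                    rw [h4]; exact e_end_mem_closure_Sec h2 (by linarith)
                  rw [h, show t + Real.pi + Real.pi = t + 2 * Real.pi by ring, e_add_two_pi] at h7
                  exact h7
                have hev := (local_exact (hU j) hPU h6).and (Ioo_mem_nhdsGT hL)
                obtain ⟨r, hr1, hr2⟩ := hev.exists
                exact hcon' j _ (hOs r hr2.1 hr2.2) hr1
            refine ⟨Real.sin (t + 2 * Real.pi - (s2 + β)),
              Real.sin_pos_of_pos_of_lt_pi (by linarith) (by linarith), ?_⟩
            intro ε hε hε2 x hx ⟨hx2, _⟩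
            have hx0 := hUneg x hx
            have hx1 := sub_mem_tc (P := P) hx
            rw [h4] at hx1
            have h5 := hx1.2
            rw [crs_anti, frame_sub t (x - P) (s2 + β)] at h5
            have e1 : Real.sin (t - (s2 + β)) = Real.sin (t + 2 * Real.pi - (s2 + β)) := by
              rw [show t + 2 * Real.pi - (s2 + β) = (t - (s2 + β)) + 2 * Real.pi by ring,
                Real.sin_add_two_pi]
            have e2 : Real.cos (t - (s2 + β)) = Real.cos (t + 2 * Real.pi - (s2 + β)) := by
              rw [show t + 2 * Real.pi - (s2 + β) = (t - (s2 + β)) + 2 * Real.pi by ring,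
                Real.cos_add_two_pi]
            rw [e1, e2] at h5
            set σ := t + 2 * Real.pi - (s2 + β)
            set X := dot (e t) (x - P)
            set y := crs (e t) (x - P)
            have hX : 0 < X := by
              by_contra hc
              push Not at hc
              have := mul_nonpos_of_nonneg_of_nonpos hε.le hc
              linarith
            have h6 : -y * Real.cos σ ≤ -y := by nlinarith [Real.cos_le_one σ]
            have h7 : ε * X ≤ Real.sin σ * X := mul_le_mul_of_nonneg_right hε2 hX.le
            nlinarith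
          · -- neither
            set K : Set ℂ := (fun r : ℝ => P + r • e t) '' Icc 0 L with hK
            have hKc : IsCompact K := isCompact_Icc.image (by fun_prop)
            have hKsub : K ⊆ (closure (U j))ᶜ := by
              rintro _ ⟨r, ⟨hr0, hrL⟩, rfl⟩
              simp only [mem_compl_iff]
              rcases hr0.lt_or_eq with h | h
              · rcases hrL.lt_or_eq with h' | h'
                · exact hcon' j _ (hOs r h h')
                · rw [h']; exact hbU
              · rw [← h]; simpa using hPU
            obtain ⟨δ, hδ, hthick⟩ := hKc.exists_thickening_subset_open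
              isClosed_closure.isOpen_compl hKsub
            refine ⟨δ / L, by positivity, ?_⟩
            intro ε hε hε2 x hx ⟨hx1, hx2⟩
            have hx0 := hUneg x hx
            set X := dot (e t) (x - P)
            set y := crs (e t) (x - P) with hy
            have hX0 : 0 < X := by
              by_contra hc
              push Not at hc
              have := mul_nonpos_of_nonneg_of_nonpos hε.le hc
              linarith
            have hLX : 0 < L - X := by
              by_contra hc
              push Not at hc
              have := mul_nonpos_of_nonneg_of_nonpos hε.le hc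
              linarith
            have hyδ : -y < δ := by
              have h1 : ε * X < ε * L := mul_lt_mul_of_pos_left (by linarith) hε
              have h2 : ε * L ≤ δ / L * L := mul_le_mul_of_nonneg_right hε2 hL.le
              rw [div_mul_cancel₀ _ hL.ne'] at h2
              linarith
            have hmem : x ∈ Metric.thickening δ K := by
              rw [Metric.mem_thickening_iff]
              refine ⟨P + X • e t, ⟨X, ⟨hX0.le, by linarith⟩, rfl⟩, ?_⟩
              rw [dist_eq_norm]
              have : x - (P + X • e t) = y • e (t + Real.pi / 2) := by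
                have h := frame t (x - P)
                have h' : x - (P + X • e t) = (x - P) - X • e t := by abel
                rw [h']
                conv_lhs => rw [h]
                abel
              rw [this, norm_smul, norm_e, mul_one, Real.norm_eq_abs, abs_of_neg hx0]
              exact hyδ
            exact hthick hmem (subset_closure hx)
      obtain ⟨ε₀, hε₀, h⟩ := hconv
      filter_upwards [Ioc_mem_nhdsGT hε₀] with ε hε _
      exact h ε hε.1 hε.2
  have hsinα : 0 < Real.sin α := Real.sin_pos_of_pos_of_lt_pi hα0 hαπ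
  have hsins : 0 < Real.sin (s' - t) := Real.sin_pos_of_pos_of_lt_pi (by linarith) (by linarith)
  have hev := ((Filter.eventually_all.mpr claim3).and (Ioc_mem_nhdsGT hsinα)).and (Ioc_mem_nhdsGT hsins)
  obtain ⟨ε, ⟨h3, hε1⟩, hε2⟩ := hev.exists
  have hε : 0 < ε := hε1.1
  -- the enlarged set
  set m1 : ℂ := -(e (t + Real.pi / 2)) - ε • e t with hm1
  set m2 : ℂ := -(e (t + Real.pi / 2)) + ε • e t with hm2
  have hd1 : ∀ x, dot m1 x - dot m1 P = - crs (e t) (x - P) - ε * dot (e t) (x - P) := by
    intro x
    rw [← dot_sub, crs_e_eq_dot, hm1]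
    unfold dot; simp; ring
  have hd2 : ∀ x, dot m2 x - dot m2 P = - crs (e t) (x - P) + ε * dot (e t) (x - P) := by
    intro x
    rw [← dot_sub, crs_e_eq_dot, hm2]
    unfold dot; simp; ring
  set W : Set ℂ := ((⋂ j ∈ {j | dot (n j) z < c j}, {x | dot (n j) x < c j}) ∩
    {x | dot m1 x < dot m1 P}) ∩ {x | dot m2 x < dot m2 P + ε * L} with hW
  have hWopen : IsOpen W := by
    refine IsOpen.inter (IsOpen.inter ?_ (isOpen_half _ _)) (isOpen_half _ _)
    exact (Set.toFinite _).isOpen_biInter (fun j _ => isOpen_half _ _)
  have hWconv : Convex ℝ W := by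
    refine Convex.inter (Convex.inter ?_ (convex_half _ _)) (convex_half _ _)
    exact convex_iInter₂ (fun j _ => convex_half _ _)
  have hWmem : ∀ x, x ∈ W ↔ ((∀ j, dot (n j) z < c j → dot (n j) x < c j) ∧
      - crs (e t) (x - P) < ε * dot (e t) (x - P)) ∧
      - crs (e t) (x - P) < ε * (L - dot (e t) (x - P)) := by
    intro x
    have h1 := hd1 x
    have h2 := hd2 x
    simp only [hW, mem_inter_iff, mem_iInter, mem_ofPred_eq]
    constructor
    · rintro ⟨⟨ha, hb'⟩, hc'⟩
      exact ⟨⟨ha, by linarith⟩, by linarith⟩
    · rintro ⟨⟨ha, hb'⟩, hc'⟩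
      exact ⟨⟨ha, by linarith⟩, by linarith⟩
  have hVW : V ⊆ W := by
    intro x hx
    rw [hWmem]
    refine ⟨⟨fun j _ => ?_, claim1 x hx ε hε hε1.2⟩, claim2 x hx ε hε hε2.2⟩
    rw [hVeq] at hx; exact hx j
  have hWd : ∀ j, Disjoint W (U j) := by
    intro j
    rw [Set.disjoint_left]
    intro x hx hxj
    rw [hWmem] at hx
    by_cases hj : dot (n j) z < c j
    · have := hx.1.1 j hj
      have := hsep j x hxj
      linarith
    · exact h3 j hj x hxj ⟨hx.1.2, hx.2⟩
  have hWV := hV.mx W hWopen hWconv hWd hVW
  have hzW : z ∈ W := by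
    rw [hWmem]
    have hz1 : z - P = (L / 2) • e t := by rw [hz]; abel
    rw [hz1, crs_smul, crs_self, dot_smul]
    have : dot (e t) (e t) = 1 := by rw [dot_e_e]; simp
    rw [this]
    refine ⟨⟨fun j hj => hj, ?_⟩, ?_⟩
    · simp; positivity
    · simp; nlinarith
  have hzV := hWV hzW
  have := hhalfP _ (sub_mem_tc (P := P) hzV)
  rw [hz, add_sub_cancel_left, crs_smul, crs_self, mul_zero] at this
  exact lt_irrefl _ this

end

end Nonagon
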