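import Pool.Agent.Lib.MP_b090c9_co.Lam

set_option autoImplicit false

namespace Nonagon

open MeasureTheory Set Filter Topology

lemma not_mem_of_corn {U : Set ℂ} {P : ℂ} (h : P ∈ corn U) : P ∉ U := by
  obtain ⟨t, α, h⟩ := h
  exact not_mem_of_tc_Sec h.2.2.2

lemma mem_closure_of_corn {U : Set ℂ} {P : ℂ} (h : P ∈ corn U) : P ∈ closure U := by
  obtain ⟨t, α, h⟩ := h
  exact h.1

open Classical in
lemma ang_split {V : Set ℂ} {P : ℂ} (hV : IsCell V) (hP : P ∉ V) :
    ang V P = (if P ∈ corn V then ang V P else 0) + (if ang V P = Real.pi then Real.pi else 0) := by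
  by_cases hc : P ∈ closure V
  · obtain ⟨s, α, h0, h1, h2⟩ := tc_eq_Sec hV.op hV.cv hV.ne hc hP
    have ha := ang_eq hc h0 h1 h2
    rcases h1.lt_or_eq with h | h
    · have hcor : P ∈ corn V := ⟨s, α, hc, h0, h, h2⟩
      rw [if_pos hcor, if_neg (by rw [ha]; exact h.ne), add_zero]
    · have hncor : P ∉ corn V := by
        intro hcor
        have := (ang_pos_lt hcor).2
        rw [ha] at this
        linarith
      rw [if_neg hncor, if_pos (by rw [ha, h]), ha, h, zero_add]
  · have ha : ang V P = 0 := by unfold ang; rw [if_neg hc]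
    have hncor : P ∉ corn V := fun h => hc (mem_closure_of_corn h)
    rw [if_neg hncor, if_neg (by rw [ha]; exact Real.pi_pos.ne), ha, add_zero]

lemma ang_nonneg (V : Set ℂ) (P : ℂ) : 0 ≤ ang V P := by
  unfold ang
  split_ifs
  · positivity
  · exact le_rfl

/-- scaled angle -/
noncomputable def sang (V : Set ℂ) (P : ℂ) : ℝ := 9 / Real.pi * ang V P

/-- weight function -/
noncomputable def gw (x : ℝ) : ℝ := lam x - W / 9 * x

lemma sang_bounds {V : Set ℂ} {P : ℂ} (h : P ∈ corn V) : 0 < sang V P ∧ sang V P < 9 := by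
  obtain ⟨h1, h2⟩ := ang_pos_lt h
  have hπ := Real.pi_pos
  unfold sang
  constructor
  · positivity
  · rw [div_mul_eq_mul_div, div_lt_iff₀ hπ]; linarith

lemma gap_weight {D : Set ℂ} (hD : IsCell D) (hb : Bornology.IsBounded D) :
    0 ≤ ∑ P ∈ (finite_corners hD).toFinset, gw (sang D P) := by
  have h := angle_sum hD hb
  have hπ := Real.pi_pos
  have hmem : ∀ P ∈ (finite_corners hD).toFinset, P ∈ corn D := by
    intro P hP; rw [Set.Finite.mem_toFinset] at hP; exact hP
  have := point_ineq (κ := ℂ) (finite_corners hD).toFinset ∅ (sang D) (sang D) 0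
    (fun P hP => sang_bounds (hmem P hP)) (by simp) (by
      have h2 : ∑ P ∈ (finite_corners hD).toFinset, (9 - sang D P) =
          9 / Real.pi * ∑ P ∈ (finite_corners hD).toFinset, (Real.pi - ang D P) := by
        rw [Finset.mul_sum]
        apply Finset.sum_congr rfl
        intro P _
        unfold sang
        field_simp
      rw [h2, h]
      simp
      field_simp
      norm_num) (by simp)
  simpa [gw] using this

section
variable {ι : Type*} [Fintype ι] {L : ℝ} {U : ι → Set ℂ}

open Classical in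
/-- inequality at a corner point -/
lemma point_weight [Fintype (Gap (Sum.elim U (outer L)))]
    (hF : Family (Sum.elim U (outer L)))
    (hS : ∀ D : Gap (Sum.elim U (outer L)), Bornology.IsBounded D.1) {P : ℂ}
    (hP : ∀ j, P ∉ (Sum.elim U (outer L)) j) (hP' : ∀ D : Gap (Sum.elim U (outer L)), P ∉ D.1) :
    -(if P ∈ Finset.univ.image (Qc L) then (1:ℝ) else 0) ≤
      ∑ i ∈ Finset.univ.filter (fun i => P ∈ corn (U i)), gw (9 - sang (U i) P) -
      ∑ D ∈ Finset.univ.filter (fun D : Gap (Sum.elim U (outer L)) => P ∈ corn D.1),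
        gw (sang D.1 P) := by
  have hπ := Real.pi_pos
  set V : (ι ⊕ Fin 4) ⊕ Gap (Sum.elim U (outer L)) → Set ℂ := Sum.elim (Sum.elim U (outer L)) (fun D => D.1) with hV
  have hcell : ∀ T, IsCell (V T) := by
    rintro (j | D)
    · exact hF.cell j
    · exact max_cell hF.cell D.2.1 D.2.2
  have hdj : Pairwise (fun S T => Disjoint (V S) (V T)) := by
    rintro (j | D) (k | D') hne
    · exact hF.dj (fun h => hne (by rw [h]))
    · exact (D'.2.1.dj j).symm
    · exact D.2.1.dj k
    · exact gap_disj hF hS (fun h => hne (by rw [h]))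
  have hcov : ∀ x, ∃ T, x ∈ closure (V T) := by
    intro x
    rcases cover_point (U := Sum.elim U (outer L)) x with ⟨j, hj⟩ | ⟨D, hD⟩
    · exact ⟨Sum.inl j, hj⟩
    · exact ⟨Sum.inr D, subset_closure hD⟩
  have hnot : ∀ T, P ∉ V T := by
    rintro (j | D)
    · exact hP j
    · exact hP' D
  have hsum := local_sum (fun T => (hcell T).op) (fun T => (hcell T).cv) hdj hcov P
  set f := (Finset.univ.filter (fun T => ang (V T) P = Real.pi)).card with hf
  have hsplit : ∑ T, ang (V T) P = ∑ T, (if P ∈ corn (V T) then ang (V T) P else 0) +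
      Real.pi * f := by
    rw [Finset.sum_congr rfl (fun T _ => ang_split (hcell T) (hnot T)), Finset.sum_add_distrib]
    congr 1
    rw [← Finset.sum_filter, Finset.sum_const, nsmul_eq_mul, mul_comm]
  have hsplit2 : ∑ T, (if P ∈ corn (V T) then ang (V T) P else 0) =
      ∑ i ∈ Finset.univ.filter (fun i => P ∈ corn (U i)), ang (U i) P +
      ∑ k ∈ Finset.univ.filter (fun k => P ∈ corn (outer L k)), ang (outer L k) P +
      ∑ D ∈ Finset.univ.filter (fun D : Gap (Sum.elim U (outer L)) => P ∈ corn D.1), ang D.1 P := by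
    rw [Fintype.sum_sum_type, Fintype.sum_sum_type, Finset.sum_filter, Finset.sum_filter,
      Finset.sum_filter]
    rfl
  set sR := ∑ i ∈ Finset.univ.filter (fun i => P ∈ corn (U i)), ang (U i) P with hsR
  set sO := ∑ k ∈ Finset.univ.filter (fun k => P ∈ corn (outer L k)), ang (outer L k) P with hsO
  set sG := ∑ D ∈ Finset.univ.filter (fun D : Gap (Sum.elim U (outer L)) => P ∈ corn D.1), ang D.1 P with hsG
  have hsO0 : 0 ≤ sO := Finset.sum_nonneg (fun k _ => ang_nonneg _ _)
  have htot : sR + sO + sG + Real.pi * f = 2 * Real.pi := by rw [← hsplit2, ← hsplit, hsum]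
  have e1 : ∑ i ∈ Finset.univ.filter (fun i => P ∈ corn (U i)), (9 - (9 - sang (U i) P)) =
      9 / Real.pi * sR := by
    rw [hsR, Finset.mul_sum]
    apply Finset.sum_congr rfl
    intro i _
    unfold sang; ring
  have e2 : ∑ D ∈ Finset.univ.filter (fun D : Gap (Sum.elim U (outer L)) => P ∈ corn D.1), sang D.1 P =
      9 / Real.pi * sG := by
    rw [hsG, Finset.mul_sum]
    rfl
  have b1 : ∀ i ∈ Finset.univ.filter (fun i => P ∈ corn (U i)),
      0 < 9 - sang (U i) P ∧ 9 - sang (U i) P < 9 := by
    intro i hi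
    have := sang_bounds (Finset.mem_filter.mp hi).2
    constructor <;> linarith [this.1, this.2]
  have b2 : ∀ D ∈ Finset.univ.filter (fun D : Gap (Sum.elim U (outer L)) => P ∈ corn D.1),
      0 < sang D.1 P ∧ sang D.1 P < 9 := fun D hD => sang_bounds (Finset.mem_filter.mp hD).2
  by_cases hPQ : P ∈ Finset.univ.image (Qc L)
  · rw [if_pos hPQ]
    have := point_crude (Finset.univ.filter (fun i => P ∈ corn (U i)))
      (Finset.univ.filter (fun D : Gap (Sum.elim U (outer L)) => P ∈ corn D.1)) (fun i => 9 - sang (U i) P)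
      (fun D => sang D.1 P) b1 b2 (by
        rw [e1, e2, ← mul_add]
        have : sR + sG ≤ 2 * Real.pi := by
          have : (0:ℝ) ≤ Real.pi * f := by positivity
          linarith
        rw [div_mul_eq_mul_div, div_le_iff₀ hπ]
        linarith)
    exact this
  · rw [if_neg hPQ, neg_zero]
    have hno : ∀ k, P ∉ corn (outer L k) := by
      rintro k ⟨t, α, h⟩
      apply hPQ
      rw [Finset.mem_image]
      exact ⟨k, Finset.mem_univ k, (quad_corner h).1.symm⟩
    have hsO' : sO = 0 := by
      rw [hsO]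
      apply Finset.sum_eq_zero
      intro k hk
      exact absurd (Finset.mem_filter.mp hk).2 (hno k)
    have := point_ineq (Finset.univ.filter (fun i => P ∈ corn (U i)))
      (Finset.univ.filter (fun D : Gap (Sum.elim U (outer L)) => P ∈ corn D.1)) (fun i => 9 - sang (U i) P)
      (fun D => sang D.1 P) f b1 b2 (by
        rw [e1, e2]
        have h3 : sR + sG + Real.pi * f = 2 * Real.pi := by linarith
        have h4 : 9 / Real.pi * sR + 9 * (f:ℝ) + 9 / Real.pi * sG =
            9 / Real.pi * (sR + sG + Real.pi * f) := by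
          field_simp
          ring
        rw [h4, h3]
        field_simp
        norm_num) (by
        rintro ⟨D, hD⟩
        obtain ⟨τ, γ, hc⟩ := (Finset.mem_filter.mp hD).2
        obtain ⟨k, t, hk1, hk2⟩ := gap_corner_flat hF D.2.1 D.2.2 (hS D) hc
        obtain ⟨k', t', α', hk'⟩ := gap_corner_corner hF D.2.1 D.2.2 (hS D) hc
        constructor
        · rw [hf, Nat.one_le_iff_ne_zero, Finset.card_ne_zero]
          refine ⟨Sum.inl k, ?_⟩
          rw [Finset.mem_filter]
          exact ⟨Finset.mem_univ _, ang_eq hk1 hπ le_rfl hk2⟩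
        · rcases k' with i | k'
          · exact ⟨i, Finset.mem_filter.mpr ⟨Finset.mem_univ _, t', α', hk'⟩⟩
          · exact absurd ⟨t', α', hk'⟩ (hno k'))
    exact this

theorem weight_sum (hL : 0 < L) (hF : Family (Sum.elim U (outer L))) :
    -4 ≤ ∑ i, ∑ P ∈ (finite_corners (hF.cell (Sum.inl i))).toFinset, gw (9 - sang (U i) P) := by
  classical
  have hS : ∀ D : Gap (Sum.elim U (outer L)), Bornology.IsBounded D.1 := by
    intro D
    exact (bounded_sq L).subset (subset_sq hL D.2.1.op (fun k => D.2.1.dj (Sum.inr k)))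
  have hfin := finite_gap hF hS
  have hft : Fintype (Gap (Sum.elim U (outer L))) := Fintype.ofFinite _
  set G := Gap (Sum.elim U (outer L)) with hG
  have hDc : ∀ D : G, IsCell D.1 := fun D => max_cell hF.cell D.2.1 D.2.2
  set cR : ι → Finset ℂ := fun i => (finite_corners (hF.cell (Sum.inl i))).toFinset with hcR
  set cG : G → Finset ℂ := fun D => (finite_corners (hDc D)).toFinset with hcG
  have mR : ∀ i P, P ∈ cR i ↔ P ∈ corn (U i) := by
    intro i P; simp only [hcR]; rw [Set.Finite.mem_toFinset]; rfl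
  have mG : ∀ D P, P ∈ cG D ↔ P ∈ corn D.1 := by
    intro i P; simp only [hcG]; rw [Set.Finite.mem_toFinset]; rfl
  set Pts : Finset ℂ := Finset.univ.biUnion cR ∪ Finset.univ.biUnion cG with hPts
  have h1 : ∑ i, ∑ P ∈ cR i, gw (9 - sang (U i) P) =
      ∑ P ∈ Pts, ∑ i ∈ Finset.univ.filter (fun i => P ∈ corn (U i)), gw (9 - sang (U i) P) := by
    have : ∀ i, ∑ P ∈ cR i, gw (9 - sang (U i) P) =
        ∑ P ∈ Pts, (if P ∈ corn (U i) then gw (9 - sang (U i) P) else 0) := by
      intro i
      rw [← Finset.sum_filter]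
      apply Finset.sum_congr _ (fun _ _ => rfl)
      ext P
      rw [Finset.mem_filter, mR]
      constructor
      · intro h
        refine ⟨?_, h⟩
        rw [hPts, Finset.mem_union, Finset.mem_biUnion]
        exact Or.inl ⟨i, Finset.mem_univ _, (mR i P).mpr h⟩
      · exact fun h => h.2
    rw [Finset.sum_congr rfl (fun i _ => this i), Finset.sum_comm]
    apply Finset.sum_congr rfl
    intro P _
    rw [Finset.sum_filter]
  have h2 : ∑ D, ∑ P ∈ cG D, gw (sang D.1 P) =
      ∑ P ∈ Pts, ∑ D ∈ Finset.univ.filter (fun D : G => P ∈ corn D.1), gw (sang D.1 P) := by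
    have : ∀ D, ∑ P ∈ cG D, gw (sang D.1 P) =
        ∑ P ∈ Pts, (if P ∈ corn D.1 then gw (sang D.1 P) else 0) := by
      intro D
      rw [← Finset.sum_filter]
      apply Finset.sum_congr _ (fun _ _ => rfl)
      ext P
      rw [Finset.mem_filter, mG]
      constructor
      · intro h
        refine ⟨?_, h⟩
        rw [hPts, Finset.mem_union, Finset.mem_biUnion, Finset.mem_biUnion]
        exact Or.inr ⟨D, Finset.mem_univ _, (mG D P).mpr h⟩
      · exact fun h => h.2
    rw [Finset.sum_congr rfl (fun D _ => this D), Finset.sum_comm]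
    apply Finset.sum_congr rfl
    intro P _
    rw [Finset.sum_filter]
  have h3 : 0 ≤ ∑ D, ∑ P ∈ cG D, gw (sang D.1 P) :=
    Finset.sum_nonneg (fun D _ => gap_weight (hDc D) (hS D))
  have h4 : ∑ P ∈ Pts, -(if P ∈ Finset.univ.image (Qc L) then (1:ℝ) else 0) ≤
      ∑ P ∈ Pts, (∑ i ∈ Finset.univ.filter (fun i => P ∈ corn (U i)), gw (9 - sang (U i) P) -
      ∑ D ∈ Finset.univ.filter (fun D : G => P ∈ corn D.1), gw (sang D.1 P)) := by
    apply Finset.sum_le_sum
    intro P hP
    have hex : (∃ j, P ∈ corn (Sum.elim U (outer L) j)) ∨ ∃ D : G, P ∈ corn D.1 := by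
      rw [hPts, Finset.mem_union, Finset.mem_biUnion, Finset.mem_biUnion] at hP
      rcases hP with ⟨i, _, hi⟩ | ⟨D, _, hD⟩
      · exact Or.inl ⟨Sum.inl i, (mR i P).mp hi⟩
      · exact Or.inr ⟨D, (mG D P).mp hD⟩
    apply point_weight hF hS
    · intro j hj
      rcases hex with ⟨k, hk⟩ | ⟨D, hD⟩
      · by_cases hkj : k = j
        · subst hkj; exact not_mem_of_corn hk hj
        · exact not_mem_of_disjoint_closure (hF.cell j).op (hF.dj hkj) (mem_closure_of_corn hk) hj
      · exact not_mem_of_disjoint_closure (hF.cell j).op (D.2.1.dj j) (mem_closure_of_corn hD) hj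
    · intro D' hD'
      rcases hex with ⟨k, hk⟩ | ⟨D, hD⟩
      · exact not_mem_of_disjoint_closure D'.2.1.op (D'.2.1.dj k).symm (mem_closure_of_corn hk) hD'
      · by_cases hkj : D = D'
        · subst hkj; exact not_mem_of_corn hD hD'
        · exact not_mem_of_disjoint_closure D'.2.1.op (gap_disj hF hS hkj)
            (mem_closure_of_corn hD) hD'
  have h5 : -4 ≤ ∑ P ∈ Pts, -(if P ∈ Finset.univ.image (Qc L) then (1:ℝ) else 0) := by
    rw [Finset.sum_neg_distrib, ← Finset.sum_filter, Finset.sum_const, nsmul_eq_mul, mul_one]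
    have : (Pts.filter (fun P => P ∈ Finset.univ.image (Qc L))).card ≤ 4 := by
      calc (Pts.filter (fun P => P ∈ Finset.univ.image (Qc L))).card
          ≤ (Finset.univ.image (Qc L)).card := Finset.card_le_card (by
            intro P hP; exact (Finset.mem_filter.mp hP).2)
        _ ≤ (Finset.univ : Finset (Fin 4)).card := Finset.card_image_le
        _ = 4 := by simp
    have h6 : ((Pts.filter (fun P => P ∈ Finset.univ.image (Qc L))).card : ℝ) ≤ 4 := by
      exact_mod_cast this
    linarith
  rw [Finset.sum_sub_distrib, ← h1, ← h2] at h4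
  linarith

end

end Nonagon
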