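import Pool.Agent.Lib.MP_b090c9_co.Meas

set_option autoImplicit false

namespace Nonagon

open MeasureTheory Set Filter Topology

/-- tangent cone of U at P -/
def tc (U : Set ℂ) (P : ℂ) : Set ℂ := {v | ∃ t : ℝ, 0 < t ∧ P + t • v ∈ U}

/-- open polyhedral set -/
def IsPoly (U : Set ℂ) : Prop := ∃ F : Finset (ℂ × ℝ), U = {x | ∀ p ∈ F, dot p.1 x < p.2}

structure IsCell (U : Set ℂ) : Prop where
  op : IsOpen U
  cv : Convex ℝ U
  ne : U.Nonempty
  poly : IsPoly U

section general
variable {U : Set ℂ} {P v w : ℂ}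

lemma seg_mem (ho : IsOpen U) (hc : Convex ℝ U) {x y : ℂ} (hx : x ∈ U) (hy : y ∈ closure U)
    {a : ℝ} (ha : 0 < a) (ha1 : a ≤ 1) : a • x + (1 - a) • y ∈ U := by
  have h := hc.combo_interior_closure_mem_interior (x := x) (y := y) (a := a) (b := 1 - a)
    (by rwa [ho.interior_eq]) hy ha (by linarith) (by ring)
  rwa [ho.interior_eq] at h

lemma tc_seg (ho : IsOpen U) (hc : Convex ℝ U) (hP : P ∈ closure U) {t s : ℝ} (ht : 0 < t)
    (h : P + t • v ∈ U) (hs : 0 < s) (hst : s ≤ t) : P + s • v ∈ U := by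
  have := seg_mem ho hc h hP (a := s / t) (by positivity) (by rw [div_le_one ht]; exact hst)
  have h2 : (s / t) • (P + t • v) + (1 - s / t) • P = P + s • v := by
    rw [smul_add, smul_smul, div_mul_cancel₀ _ ht.ne', sub_smul, one_smul]
    abel
  rwa [h2] at this

lemma tc_eventually (ho : IsOpen U) (hc : Convex ℝ U) (hP : P ∈ closure U) (hv : v ∈ tc U P) :
    ∀ᶠ s in 𝓝[>] (0:ℝ), P + s • v ∈ U := by
  obtain ⟨t, ht, h⟩ := hv
  have : Ioc (0:ℝ) t ∈ 𝓝[>] (0:ℝ) := Ioc_mem_nhdsGT ht
  filter_upwards [this] with s hs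
  exact tc_seg ho hc hP ht h hs.1 hs.2

lemma isOpen_tc (ho : IsOpen U) : IsOpen (tc U P) := by
  have : tc U P = ⋃ t : {t : ℝ // 0 < t}, (fun v => P + (t:ℝ) • v) ⁻¹' U := by
    ext v; simp [tc]
  rw [this]
  apply isOpen_iUnion
  intro t
  exact ho.preimage (by fun_prop)

lemma convex_tc (ho : IsOpen U) (hc : Convex ℝ U) (hP : P ∈ closure U) : Convex ℝ (tc U P) := by
  rintro v ⟨t, ht, hv⟩ w ⟨s, hs, hw⟩ a b ha hb hab
  refine ⟨min t s, lt_min ht hs, ?_⟩
  have h1 := tc_seg ho hc hP ht hv (lt_min ht hs) (min_le_left t s)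
  have h2 := tc_seg ho hc hP hs hw (lt_min ht hs) (min_le_right t s)
  have h3 := hc h1 h2 ha hb hab
  have : a • (P + min t s • v) + b • (P + min t s • w) = P + min t s • (a • v + b • w) := by
    have hP' : P = a • P + b • P := by rw [← add_smul, hab, one_smul]
    calc a • (P + min t s • v) + b • (P + min t s • w)
        = (a • P + b • P) + min t s • (a • v + b • w) := by
          simp only [smul_add, smul_smul]
          rw [mul_comm a, mul_comm b]; abel
      _ = _ := by rw [← hP']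
  rwa [this] at h3

lemma smul_mem_tc {r : ℝ} (hr : 0 < r) (hv : v ∈ tc U P) : r • v ∈ tc U P := by
  obtain ⟨t, ht, h⟩ := hv
  refine ⟨t / r, by positivity, ?_⟩
  rwa [smul_smul, div_mul_cancel₀ _ hr.ne']

lemma sub_mem_tc {x : ℂ} (hx : x ∈ U) : x - P ∈ tc U P := ⟨1, one_pos, by simpa using hx⟩

lemma tc_nonempty (hne : U.Nonempty) : (tc U P).Nonempty := by
  obtain ⟨x, hx⟩ := hne
  exact ⟨x - P, sub_mem_tc hx⟩

lemma zero_mem_tc : (0:ℂ) ∈ tc U P ↔ P ∈ U := by
  constructor
  · rintro ⟨t, ht, h⟩; simpa using h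
  · intro h; exact ⟨1, one_pos, by simpa using h⟩

lemma mem_closure_tc {t : ℝ} (ht : 0 < t) (h : P + t • v ∈ closure U) : v ∈ closure (tc U P) := by
  have hf : Continuous (fun x : ℂ => t⁻¹ • (x - P)) := by fun_prop
  have h1 := map_mem_closure hf h (t := tc U P) (fun x hx => smul_mem_tc (inv_pos.mpr ht) (sub_mem_tc hx))
  have h2 : t⁻¹ • (P + t • v - P) = v := by
    rw [add_sub_cancel_left, smul_smul, inv_mul_cancel₀ ht.ne', one_smul]
  rwa [h2] at h1

lemma tc_add_closure (ho : IsOpen U) (hc : Convex ℝ U) (hP : P ∈ closure U)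
    (hv : v ∈ tc U P) (hw : w ∈ closure (tc U P)) : v + w ∈ tc U P := by
  have h := seg_mem (isOpen_tc ho) (convex_tc ho hc hP) hv hw (a := 1/2) (by norm_num) (by norm_num)
  have h2 := smul_mem_tc (r := 2) (by norm_num) h
  have : (2:ℝ) • ((1/2 : ℝ) • v + (1 - 1/2 : ℝ) • w) = v + w := by
    rw [smul_add, smul_smul, smul_smul]; norm_num
  rwa [this] at h2

lemma smul_mem_closure_tc {r : ℝ} (hr : 0 < r) (hv : v ∈ closure (tc U P)) :
    r • v ∈ closure (tc U P) := by
  have hf : Continuous (fun x : ℂ => r • x) := by fun_prop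
  exact map_mem_closure hf hv (fun x hx => smul_mem_tc hr hx)

lemma disjoint_tc {V : Set ℂ} (ho : IsOpen U) (hc : Convex ℝ U) (hP : P ∈ closure U)
    (ho' : IsOpen V) (hc' : Convex ℝ V) (hP' : P ∈ closure V) (hd : Disjoint U V) :
    Disjoint (tc U P) (tc V P) := by
  rw [Set.disjoint_left]
  intro v h1 h2
  have h := (tc_eventually ho hc hP h1).and (tc_eventually ho' hc' hP' h2)
  obtain ⟨s, hs1, hs2⟩ := h.exists
  exact Set.disjoint_left.mp hd hs1 hs2

/-- linear functionals on the plane are dot products -/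
lemma functional_eq_dot (f : StrongDual ℝ ℂ) (v : ℂ) : f v = dot ⟨f 1, f Complex.I⟩ v := by
  have hv : v = v.re • (1:ℂ) + v.im • Complex.I := by
    apply Complex.ext <;> simp
  conv_lhs => rw [hv]
  rw [map_add, map_smul, map_smul]
  unfold dot
  simp only [smul_eq_mul]
  ring

lemma crs_e_eq_dot (a : ℝ) (v : ℂ) : crs (e a) v = dot (e (a + Real.pi / 2)) v := by
  unfold crs dot
  rw [e_re, e_im, e_re, e_im, Real.cos_add_pi_div_two, Real.sin_add_pi_div_two]
  ring

lemma exists_angle {n : ℂ} (hn : n ≠ 0) : ∃ r φ : ℝ, 0 < r ∧ n = r • e φ := by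
  refine ⟨‖n‖, n.arg, norm_pos_iff.mpr hn, ?_⟩
  apply Complex.ext
  · rw [Complex.smul_re, e_re, smul_eq_mul, Complex.norm_mul_cos_arg]
  · rw [Complex.smul_im, e_im, smul_eq_mul, Complex.norm_mul_sin_arg]

lemma half_plane_of_not_mem (ho : IsOpen U) (hc : Convex ℝ U) (hne : U.Nonempty)
    (hP : P ∈ closure U) (hPU : P ∉ U) : ∃ a : ℝ, ∀ v ∈ tc U P, 0 < crs (e a) v := by
  have h0 : (0:ℂ) ∉ tc U P := fun h => hPU (zero_mem_tc.mp h)
  obtain ⟨f, hf⟩ := geometric_hahn_banach_open_point (convex_tc ho hc hP) (isOpen_tc ho) h0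
  set n : ℂ := ⟨f 1, f Complex.I⟩ with hn
  have hn0 : n ≠ 0 := by
    intro h
    obtain ⟨v, hv⟩ := tc_nonempty (P := P) hne
    have := hf v hv
    rw [map_zero, functional_eq_dot, ← hn, h] at this
    unfold dot at this; simp at this
  obtain ⟨r, φ, hr, hφ⟩ := exists_angle hn0
  refine ⟨φ + Real.pi / 2, fun v hv => ?_⟩
  have h1 := hf v hv
  rw [map_zero, functional_eq_dot, ← hn, hφ, smul_dot] at h1
  rw [crs_e_eq_dot]
  have : φ + Real.pi / 2 + Real.pi / 2 = φ + Real.pi := by ring
  rw [this, e_add_pi]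
  have h2 : dot (-e φ) v = - dot (e φ) v := by unfold dot; simp; ring
  rw [h2]
  nlinarith

lemma tc_frame (ho : IsOpen U) (hc : Convex ℝ U) (hne : U.Nonempty) (hP : P ∈ closure U) {a : ℝ}
    (ha : ∀ v ∈ tc U P, 0 < crs (e a) v) :
    ∃ s α : ℝ, a ≤ s ∧ 0 < α ∧ s + α ≤ a + Real.pi ∧ tc U P = Sec s α :=
  cone_eq_Sec (isOpen_tc ho) (convex_tc ho hc hP) (fun _ hv _ hr => smul_mem_tc hr hv)
    (tc_nonempty hne) ha

lemma tc_eq_Sec (ho : IsOpen U) (hc : Convex ℝ U) (hne : U.Nonempty) (hP : P ∈ closure U)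
    (hPU : P ∉ U) : ∃ s α : ℝ, 0 < α ∧ α ≤ Real.pi ∧ tc U P = Sec s α := by
  obtain ⟨a, ha⟩ := half_plane_of_not_mem ho hc hne hP hPU
  obtain ⟨s, α, h1, h2, h3, h4⟩ := tc_frame ho hc hne hP ha
  exact ⟨s, α, h2, by linarith, h4⟩

end general

section poly

lemma closure_poly {F : Finset (ℂ × ℝ)} {U : Set ℂ} (hU : U = {x | ∀ p ∈ F, dot p.1 x < p.2})
    (hne : U.Nonempty) : closure U = {x | ∀ p ∈ F, dot p.1 x ≤ p.2} := by
  apply Subset.antisymm
  · apply closure_minimal
    · intro x hx p hp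
      rw [hU] at hx
      exact (hx p hp).le
    · have : {x : ℂ | ∀ p ∈ F, dot p.1 x ≤ p.2} = ⋂ p ∈ F, {x | dot p.1 x ≤ p.2} := by
        ext x; simp
      rw [this]
      exact isClosed_biInter (fun p _ => isClosed_le (continuous_dot _) continuous_const)
  · intro x hx
    obtain ⟨u, hu⟩ := hne
    have hcont : Tendsto (fun s : ℝ => x + s • (u - x)) (𝓝[>] 0) (𝓝 x) := by
      have : Continuous (fun s : ℝ => x + s • (u - x)) := by fun_prop
      have h := (this.tendsto 0).mono_left (nhdsWithin_le_nhds (s := Ioi 0))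
      simpa using h
    refine mem_closure_of_tendsto hcont ?_
    have : Ioo (0:ℝ) 1 ∈ 𝓝[>] (0:ℝ) := Ioo_mem_nhdsGT one_pos
    filter_upwards [this] with s hs
    rw [hU] at hu ⊢
    intro p hp
    have h1 := hx p hp
    have h2 := hu p hp
    rw [dot_add, dot_smul, dot_sub]
    nlinarith [hs.1, hs.2]

variable {U : Set ℂ} {P v : ℂ}

lemma tc_poly {F : Finset (ℂ × ℝ)} (hU : U = {x | ∀ p ∈ F, dot p.1 x < p.2})
    (hne : U.Nonempty) (hP : P ∈ closure U) :
    tc U P = {v | ∀ p ∈ F, dot p.1 P = p.2 → dot p.1 v < 0} := by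
  ext v
  constructor
  · rintro ⟨t, ht, h⟩ p hp hact
    rw [hU] at h
    have := h p hp
    rw [dot_add, dot_smul, hact] at this
    nlinarith
  · intro hv
    have hev : ∀ᶠ s in 𝓝[>] (0:ℝ), ∀ p ∈ F, dot p.1 (P + s • v) < p.2 := by
      rw [Filter.eventually_all_finset]
      intro p hp
      rw [closure_poly hU hne] at hP
      rcases (hP p hp).lt_or_eq with h | h
      · have hcont : Tendsto (fun s : ℝ => dot p.1 (P + s • v)) (𝓝[>] 0) (𝓝 (dot p.1 P)) := by
          have : Continuous (fun s : ℝ => dot p.1 (P + s • v)) :=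
            (continuous_dot _).comp (by fun_prop)
          have h := (this.tendsto 0).mono_left (nhdsWithin_le_nhds (s := Ioi 0))
          simpa using h
        exact hcont.eventually (gt_mem_nhds h)
      · filter_upwards [self_mem_nhdsWithin] with s hs
        rw [dot_add, dot_smul, h]
        have := hv p hp h
        have hs' : (0:ℝ) < s := hs
        nlinarith
    obtain ⟨s, hs, hs0⟩ := (hev.and self_mem_nhdsWithin).exists
    exact ⟨s, hs0, by rw [hU]; exact hs⟩

/-- local exactness for polyhedra -/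
lemma local_exact (hU : IsCell U) (hP : P ∈ closure U) (hv : v ∈ closure (tc U P)) :
    ∀ᶠ s in 𝓝[>] (0:ℝ), P + s • v ∈ closure U := by
  obtain ⟨F, hF⟩ := hU.poly
  have htc := tc_poly hF hU.ne hP
  have hv' : ∀ p ∈ F, dot p.1 P = p.2 → dot p.1 v ≤ 0 := by
    intro p hp hact
    have hsub : tc U P ⊆ {v | dot p.1 v ≤ 0} := by
      intro x hx
      rw [htc] at hx
      exact (hx p hp hact).le
    exact closure_minimal hsub (isClosed_le (continuous_dot _) continuous_const) hv
  rw [closure_poly hF hU.ne] at hP ⊢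
  have : ∀ᶠ s in 𝓝[>] (0:ℝ), ∀ p ∈ F, dot p.1 (P + s • v) ≤ p.2 := by
    rw [Filter.eventually_all_finset]
    intro p hp
    rcases (hP p hp).lt_or_eq with h | h
    · have hcont : Tendsto (fun s : ℝ => dot p.1 (P + s • v)) (𝓝[>] 0) (𝓝 (dot p.1 P)) := by
        have : Continuous (fun s : ℝ => dot p.1 (P + s • v)) :=
          (continuous_dot _).comp (by fun_prop)
        have h := (this.tendsto 0).mono_left (nhdsWithin_le_nhds (s := Ioi 0))
        simpa using h
      exact (hcont.eventually (gt_mem_nhds h)).mono (fun s hs => le_of_lt hs)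
    · filter_upwards [self_mem_nhdsWithin] with s hs
      rw [dot_add, dot_smul, h]
      have := hv' p hp h
      have hs' : (0:ℝ) < s := hs
      nlinarith
  exact this

end poly

/-- P is a corner of U, with tangent cone the sector from t to t + α -/
def IsCorner (U : Set ℂ) (P : ℂ) (t α : ℝ) : Prop :=
  P ∈ closure U ∧ 0 < α ∧ α < Real.pi ∧ tc U P = Sec t α

lemma not_mem_of_tc_Sec {U : Set ℂ} {P : ℂ} {t α : ℝ} (h : tc U P = Sec t α) : P ∉ U := by
  intro hP
  have := zero_mem_tc.mpr hP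
  rw [h] at this
  have h1 := this.1
  rw [crs_zero] at h1
  exact lt_irrefl _ h1

/-- finitely many corners -/
lemma finite_corners {U : Set ℂ} (hU : IsCell U) : {P | ∃ t α, IsCorner U P t α}.Finite := by
  obtain ⟨F, hF⟩ := hU.poly
  have hfin : (⋃ p ∈ (F : Set (ℂ × ℝ)), ⋃ q ∈ (F : Set (ℂ × ℝ)),
      {x : ℂ | crs p.1 q.1 ≠ 0 ∧ dot p.1 x = p.2 ∧ dot q.1 x = q.2}).Finite := by
    apply Set.Finite.biUnion F.finite_toSet
    intro p _
    apply Set.Finite.biUnion F.finite_toSet
    intro q _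
    apply Set.Subsingleton.finite
    rintro x ⟨h0, h1, h2⟩ y ⟨_, h3, h4⟩
    unfold dot at *
    unfold crs at h0
    have e1 : p.1.re * (x.re - y.re) + p.1.im * (x.im - y.im) = 0 := by linarith
    have e2 : q.1.re * (x.re - y.re) + q.1.im * (x.im - y.im) = 0 := by linarith
    apply Complex.ext
    · have : (p.1.re * q.1.im - p.1.im * q.1.re) * (x.re - y.re) = 0 := by
        linear_combination q.1.im * e1 - p.1.im * e2
      rcases mul_eq_zero.mp this with h | h
      · exact absurd h h0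
      · linarith
    · have : (p.1.re * q.1.im - p.1.im * q.1.re) * (x.im - y.im) = 0 := by
        linear_combination p.1.re * e2 - q.1.re * e1
      rcases mul_eq_zero.mp this with h | h
      · exact absurd h h0
      · linarith
  apply hfin.subset
  rintro P ⟨t, α, hP, hα0, hαπ, htc⟩
  have htc' := tc_poly hF hU.ne hP
  by_contra hcon
  have hpar : ∀ p ∈ F, dot p.1 P = p.2 → ∀ q ∈ F, dot q.1 P = q.2 → crs p.1 q.1 = 0 := by
    intro p hp h1 q hq h2
    by_contra h
    apply hcon
    simp only [mem_iUnion]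
    exact ⟨p, hp, q, hq, h, h1, h2⟩
  obtain ⟨v, hv⟩ := tc_nonempty (P := P) hU.ne
  -- there is an active constraint
  have hact : ∃ p ∈ F, dot p.1 P = p.2 := by
    by_contra hno
    push Not at hno
    have : (0:ℂ) ∈ tc U P := by
      rw [htc']; intro p hp h; exact absurd h (hno p hp)
    rw [htc] at this
    have h1 := this.1
    rw [crs_zero] at h1
    exact lt_irrefl _ h1
  obtain ⟨p, hp, hpa⟩ := hact
  have hp0 : p.1 ≠ 0 := by
    intro h
    rw [htc'] at hv
    have := hv p hp hpa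
    rw [h] at this
    unfold dot at this; simp at this
  -- direction w perpendicular to p.1
  set w : ℂ := ⟨- p.1.im, p.1.re⟩ with hw
  have hdw : ∀ q ∈ F, dot q.1 P = q.2 → dot q.1 w = 0 := by
    intro q hq h
    have := hpar p hp hpa q hq h
    unfold crs at this
    unfold dot
    simp only [hw]
    linarith
  have hinv : ∀ c : ℝ, v + c • w ∈ Sec t α := by
    intro c
    rw [← htc, htc']
    rw [htc'] at hv
    intro q hq h
    rw [dot_add, dot_smul, hdw q hq h, mul_zero, add_zero]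
    exact hv q hq h
  have key : ∀ A B : ℝ, (∀ c : ℝ, 0 < A + c * B) → B = 0 := by
    intro A B h
    by_contra hB
    have := h (-A / B)
    rw [div_mul_cancel₀ _ hB] at this
    linarith
  have h1 : crs (e t) w = 0 := by
    apply key (crs (e t) v)
    intro c
    have := (hinv c).1
    rwa [crs_add, crs_smul] at this
  have h2 : crs w (e (t + α)) = 0 := by
    apply key (crs v (e (t + α)))
    intro c
    have := (hinv c).2
    rwa [add_crs, smul_crs] at this
  have hsin : Real.sin α ≠ 0 := (Real.sin_pos_of_pos_of_lt_pi hα0 hαπ).ne'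
  have h3 : crs w (e t) = 0 := by rw [crs_anti]; linarith
  -- w = 0
  have hre : w.re * Real.sin α = 0 := by
    unfold crs at h2 h3
    rw [e_re, e_im] at h2 h3
    have hs : Real.sin α = Real.sin (t + α) * Real.cos t - Real.cos (t + α) * Real.sin t := by
      rw [← Real.sin_sub]; congr 1; ring
    rw [hs]
    linear_combination Real.cos t * h2 - Real.cos (t + α) * h3
  have him : w.im * Real.sin α = 0 := by
    unfold crs at h2 h3
    rw [e_re, e_im] at h2 h3
    have hs : Real.sin α = Real.sin (t + α) * Real.cos t - Real.cos (t + α) * Real.sin t := by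
      rw [← Real.sin_sub]; congr 1; ring
    rw [hs]
    linear_combination Real.sin t * h2 - Real.sin (t + α) * h3
  have hre' : w.re = 0 := by
    rcases mul_eq_zero.mp hre with h | h
    · exact h
    · exact absurd h hsin
  have him' : w.im = 0 := by
    rcases mul_eq_zero.mp him with h | h
    · exact h
    · exact absurd h hsin
  apply hp0
  simp only [hw] at hre' him'
  apply Complex.ext
  · simpa using him'
  · simp; linarith

end Nonagon
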