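import Pool.Agent.Lib.MP_b090c9_co.Quad

set_option autoImplicit false

namespace Nonagon

open MeasureTheory Set Filter Topology

lemma exists_fam {ι : Type*} [Fintype ι] {L : ℝ} (hL : 0 < L) {B : ι → Set ℂ}
    (hBo : ∀ i, IsOpen (B i)) (hBc : ∀ i, Convex ℝ (B i)) (hBn : ∀ i, (B i).Nonempty)
    (hBd : Pairwise (fun i j => Disjoint (B i) (B j))) (hBs : ∀ i, B i ⊆ sq L) :
    ∃ U : ι → Set ℂ, (∀ i, B i ⊆ U i) ∧ (∀ i, U i ⊆ sq L) ∧ Family (Sum.elim U (outer L)) := by
  classical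
  have hBO : ∀ i k, Disjoint (B i) (outer L k) := by
    intro i k
    rw [Set.disjoint_left]
    intro x hx hx'
    obtain ⟨h1, h2, h3, h4⟩ := hBs i hx
    fin_cases k <;>
      simp only [Fin.zero_eta, Fin.mk_one, Fin.reduceFinMk, Fin.isValue, outer_zero, outer_one,
        outer_two, outer_three, mem_ofPred_eq] at hx' <;>
      linarith [hx'.1, hx'.2]
  obtain ⟨U, h1, h2, h3, h4, h5, h6⟩ := exists_family hBo hBc hBd hBO
  have hUs : ∀ i, U i ⊆ sq L := fun i => subset_sq hL (h2 i) (h5 i)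
  have hne : ∀ i, (U i).Nonempty := fun i => (hBn i).mono (h1 i)
  set W : ι ⊕ Fin 4 → Set ℂ := Sum.elim U (outer L) with hW
  have hWo : ∀ j, IsOpen (W j) := by
    rintro (i | k)
    · exact h2 i
    · exact (outer_cell L k).op
  have hWc : ∀ j, Convex ℝ (W j) := by
    rintro (i | k)
    · exact h3 i
    · exact (outer_cell L k).cv
  have hWn : ∀ j, (W j).Nonempty := by
    rintro (i | k)
    · exact hne i
    · exact (outer_cell L k).ne
  have hWd : Pairwise (fun i j => Disjoint (W i) (W j)) := by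
    rintro (i | k) (j | l) hij
    · exact h4 (fun h => hij (by rw [h]))
    · exact h5 i l
    · exact (h5 j k).symm
    · exact outer_disj hL (fun h => hij (by rw [h]))
  have hmax : ∀ i, MaxDisj (fun j : {j : ι ⊕ Fin 4 // j ≠ Sum.inl i} => W j.1) (U i) := by
    intro i
    refine ⟨h2 i, h3 i, ?_, ?_⟩
    · rintro ⟨j, hj⟩
      exact hWd (i := Sum.inl i) (j := j) hj.symm
    · intro V' ho hc hd hsub
      apply h6 i V' ho hc _ _ hsub
      · intro j hj
        exact hd ⟨Sum.inl j, fun h => hj (Sum.inl_injective h)⟩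
      · intro k
        exact hd ⟨Sum.inr k, by simp⟩
  have hcell : ∀ j, IsCell (W j) := by
    rintro (i | k)
    · exact max_cell' (J := {j : ι ⊕ Fin 4 // j ≠ Sum.inl i}) (fun j => hWo j.1)
        (fun j => hWc j.1) (fun j => hWn j.1) (hmax i) (hne i)
    · exact outer_cell L k
  refine ⟨U, h1, hUs, hcell, hWd, ?_⟩
  rintro (i | k) P t α hcor
  · obtain ⟨⟨j, hj⟩, hh⟩ := block (fun j : {j : ι ⊕ Fin 4 // j ≠ Sum.inl i} => hcell j.1) (hmax i)
      ((bounded_sq L).subset (hUs i)) hcor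
    exact ⟨j, hj, hh⟩
  · obtain ⟨k', hk', hh⟩ := outer_bl hL hcor
    exact ⟨Sum.inr k', fun h => hk' (Sum.inr_injective h), hh⟩

end Nonagon
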