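import Pool.Agent.Lib.MP_b090c9_co.Walk

set_option autoImplicit false

namespace Nonagon

open MeasureTheory Set Filter Topology

lemma flat_frame {U : Set ℂ} {z : ℂ} {a t : ℝ} (hU : IsCell U) (hz : z ∈ closure U)
    (hh : ∀ v ∈ tc U z, 0 < crs (e a) v) (hf : tc U z = Sec t Real.pi) :
    tc U z = Sec a Real.pi := by
  obtain ⟨s, α, h1, h2, h3, h4⟩ := tc_frame hU.op hU.cv hU.ne hz hh
  have hα : α = Real.pi :=
    Sec_angle_inj h2 (by linarith) Real.pi_pos le_rfl (h4.symm.trans hf)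
  have hs : s = a := by linarith
  rw [h4, hs, hα]

lemma not_mem_of_disjoint_closure {U D : Set ℂ} {z : ℂ} (hU : IsOpen U) (hd : Disjoint D U)
    (hz : z ∈ closure D) : z ∉ U := by
  intro hzU
  rw [mem_closure_iff] at hz
  obtain ⟨x, hx1, hx2⟩ := hz U hU hzU
  exact Set.disjoint_left.mp hd hx2 hx1

section
variable {J : Type*} [Fintype J] {U : J → Set ℂ} {D : Set ℂ}

structure Family (U : J → Set ℂ) : Prop where
  cell : ∀ j, IsCell (U j)
  dj : Pairwise (fun i j => Disjoint (U i) (U j))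
  bl : ∀ j P t α, IsCorner (U j) P t α → ∃ k, k ≠ j ∧ (Osid (U j) P (e t) ∩ closure (U k)).Nonempty

variable (hF : Family U) (hD : MaxDisj U D) (hne : D.Nonempty) (hb : Bornology.IsBounded D)
include hF hD hne

lemma gap_flat {z : ℂ} {τ : ℝ} (hz : z ∈ closure D) (hf : tc D z = Sec τ Real.pi)
    (hj : ∃ j, z ∈ closure (U j)) :
    ∃ k, z ∈ closure (U k) ∧ tc (U k) z = Sec (τ + Real.pi) Real.pi := by
  have hDc := max_cell hF.cell hD hne
  have hhalf : ∀ k, z ∈ closure (U k) → ∀ v ∈ tc (U k) z, 0 < crs (e (τ + Real.pi)) v := by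
    intro k hzk v hv
    have hdis := disjoint_tc (hF.cell k).op (hF.cell k).cv hzk hDc.op hDc.cv hz (hD.dj k).symm
    rw [hf] at hdis
    have := half_of_disjoint (isOpen_tc (hF.cell k).op) hdis v hv
    rw [e_add_pi, neg_crs]; linarith
  obtain ⟨j, hzj⟩ := hj
  obtain ⟨k, s, β, hzk, h1, h2, h3, h4, hfree⟩ := first_cell hF.cell hF.dj (z := z)
    (a := τ + Real.pi) (fun k hzk => Or.inl (hhalf k hzk)) ⟨j, hzj, hhalf j hzj⟩
  rcases lt_or_ge β Real.pi with hβ | hβ
  · obtain ⟨j', t', _, hzj', hf'⟩ := walk hF.cell hF.dj hF.bl ⟨hzk, h2, hβ, h4⟩ hfree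
    exact ⟨j', hzj', flat_frame (hF.cell j') hzj' (hhalf j' hzj') hf'⟩
  · refine ⟨k, hzk, ?_⟩
    have hs : s = τ + Real.pi := by linarith
    have hβ' : β = Real.pi := by linarith
    rw [h4, hs, hβ']

include hb

lemma gap_side {P : ℂ} {τ γ : ℝ} (hP : IsCorner D P τ γ) {z : ℂ} (hz : z ∈ Osid D P (e τ)) :
    ∃ j, z ∈ closure (U j) := by
  have hDc := max_cell hF.cell hD hne
  have hhalfP : ∀ v ∈ tc D P, 0 < crs (e τ) v := by
    intro v hv; rw [hP.2.2.2] at hv; exact hv.1
  have hfwd : e τ ∈ closure (tc D P) := by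
    rw [hP.2.2.2]; exact e_t_mem_closure_Sec hP.2.1 hP.2.2.1.le
  obtain ⟨L, s', hL, _, _, ⟨hbc, _, _, _⟩, hmax⟩ := ray_fwd hDc hb hP.1 hhalfP hfwd
  have hOs : ∀ r, 0 < r → r < L → P + r • e τ ∈ Osid D P (e τ) :=
    fun r h1 h2 => ⟨r, L, h1, h2, rfl, hbc⟩
  set A : Set ℝ := ⋃ j, (fun s : ℝ => P + s • e τ) ⁻¹' closure (U j) with hA
  have hAclosed : IsClosed A :=
    isClosed_iUnion_of_finite (fun j => isClosed_closure.preimage (by fun_prop))
  have hAint : ∀ s ∈ Ioo 0 L, s ∈ A → s ∈ interior A := by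
    intro s hs hsA
    rw [hA, mem_iUnion] at hsA
    obtain ⟨hzc, hzf⟩ := flat_on_side hDc hP.1 hhalfP (hOs s hs.1 hs.2)
    obtain ⟨k, hzk, hkf⟩ := gap_flat hF hD hne hzc hzf hsA
    have hp : e τ ∈ closure (tc (U k) (P + s • e τ)) := by
      rw [hkf]
      have := e_end_mem_closure_Sec (t := τ + Real.pi) Real.pi_pos le_rfl
      rwa [show τ + Real.pi + Real.pi = τ + 2 * Real.pi by ring, e_add_two_pi] at this
    have hm : e (τ + Real.pi) ∈ closure (tc (U k) (P + s • e τ)) := by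
      rw [hkf]; exact e_t_mem_closure_Sec Real.pi_pos le_rfl
    have h1 := local_exact (hF.cell k) hzk hp
    have h2 := local_exact (hF.cell k) hzk hm
    obtain ⟨ε1, hε1, h1'⟩ := mem_nhdsGT_iff_exists_Ioo_subset.mp h1
    obtain ⟨ε2, hε2, h2'⟩ := mem_nhdsGT_iff_exists_Ioo_subset.mp h2
    have hε1' : (0:ℝ) < ε1 := hε1
    have hε2' : (0:ℝ) < ε2 := hε2
    rw [mem_interior]
    refine ⟨Ioo (s - ε2) (s + ε1), ?_, isOpen_Ioo, ⟨by linarith, by linarith⟩⟩
    intro x hx
    rw [hA, mem_iUnion]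
    refine ⟨k, ?_⟩
    simp only [mem_preimage]
    rcases lt_trichotomy x s with h | h | h
    · have := h2' (show s - x ∈ Ioo 0 ε2 from ⟨by linarith, by linarith [hx.1]⟩)
      have heq : P + s • e τ + (s - x) • e (τ + Real.pi) = P + x • e τ := by
        rw [e_add_pi, sub_smul, smul_neg, smul_neg]; abel
      simp only [mem_ofPred_eq] at this
      rwa [heq] at this
    · rw [h]; exact hzk
    · have := h1' (show x - s ∈ Ioo 0 ε1 from ⟨by linarith, by linarith [hx.2]⟩)
      have heq : P + s • e τ + (x - s) • e τ = P + x • e τ := by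
        rw [sub_smul]; abel
      simp only [mem_ofPred_eq] at this
      rwa [heq] at this
  have hsub : Ioo 0 L ⊆ interior A := by
    obtain ⟨j, w, hw1, hw2⟩ := block hF.cell hD hb hP
    obtain ⟨s, s1, hs0, hss, rfl, hs1⟩ := hw1
    have hsL : s < L := by
      by_contra hc
      push Not at hc
      exact hmax s1 (by linarith) hs1
    have hsA : s ∈ A := by rw [hA, mem_iUnion]; exact ⟨j, hw2⟩
    apply isPreconnected_Ioo.subset_left_of_subset_union isOpen_interior hAclosed.isOpen_compl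
    · rw [Set.disjoint_left]
      intro x hx hx'
      exact hx' (interior_subset hx)
    · intro x hx
      by_cases hxA : x ∈ A
      · left; exact hAint x hx hxA
      · right; exact hxA
    · exact ⟨s, ⟨hs0, hsL⟩, hAint s ⟨hs0, hsL⟩ hsA⟩
  obtain ⟨s, s1, hs0, hss, rfl, hs1⟩ := hz
  have hsL : s < L := by
    by_contra hc
    push Not at hc
    exact hmax s1 (by linarith) hs1
  have := interior_subset (hsub ⟨hs0, hsL⟩)
  rw [hA, mem_iUnion] at this
  exact this

omit hD hne hb in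
lemma pigeon {P d : ℂ} (h : ∀ᶠ s in 𝓝[>] (0:ℝ), ∃ j, P + s • d ∈ closure (U j)) :
    ∃ j, P ∈ closure (U j) ∧ d ∈ closure (tc (U j) P) := by
  have hfreq : ∃ j, ∃ᶠ s in 𝓝[>] (0:ℝ), P + s • d ∈ closure (U j) := by
    by_contra hc
    push Not at hc
    have : ∀ᶠ s in 𝓝[>] (0:ℝ), ∀ j, P + s • d ∉ closure (U j) := by
      rw [Filter.eventually_all]
      intro j
      exact hc j
    obtain ⟨s, ⟨j, hs1⟩, hs2⟩ := (h.and this).exists
    exact hs2 j hs1
  obtain ⟨j, hj⟩ := hfreq
  have hcont : Tendsto (fun r : ℝ => P + r • d) (𝓝[>] 0) (𝓝 P) := by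
    have : Continuous (fun r : ℝ => P + r • d) := by fun_prop
    have h := (this.tendsto 0).mono_left (nhdsWithin_le_nhds (s := Ioi 0))
    simpa using h
  refine ⟨j, isClosed_closure.mem_of_frequently_of_tendsto hj hcont, ?_⟩
  obtain ⟨s, hs1, hs2⟩ := (hj.and_eventually self_mem_nhdsWithin).exists
  exact mem_closure_tc hs2 hs1

/-- a cell closes up against the outgoing side of a gap corner -/
lemma gap_out {P : ℂ} {τ γ : ℝ} (hP : IsCorner D P τ γ) :
    ∃ j, P ∈ closure (U j) ∧ e τ ∈ closure (tc (U j) P) := by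
  have hDc := max_cell hF.cell hD hne
  apply pigeon hF
  have hhalfP : ∀ v ∈ tc D P, 0 < crs (e τ) v := by
    intro v hv; rw [hP.2.2.2] at hv; exact hv.1
  have hfwd : e τ ∈ closure (tc D P) := by
    rw [hP.2.2.2]; exact e_t_mem_closure_Sec hP.2.1 hP.2.2.1.le
  obtain ⟨L, s', hL, _, _, ⟨hbc, _, _, _⟩, hmax⟩ := ray_fwd hDc hb hP.1 hhalfP hfwd
  filter_upwards [Ioo_mem_nhdsGT hL] with s hs
  exact gap_side hF hD hne hb hP ⟨s, L, hs.1, hs.2, rfl, hbc⟩

lemma gap_in {P : ℂ} {τ γ : ℝ} (hP : IsCorner D P τ γ) :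
    ∃ j, P ∈ closure (U j) ∧ e (τ + γ) ∈ closure (tc (U j) P) := by
  have hDc := max_cell hF.cell hD hne
  apply pigeon hF
  have hhalfP : ∀ v ∈ tc D P, 0 < crs (e (τ + γ - Real.pi)) v := by
    intro v hv; rw [hP.2.2.2] at hv
    have := hv.2
    rw [e_sub_pi, neg_crs, ← crs_anti]; exact this
  have hbk : e (τ + γ - Real.pi + Real.pi) ∈ closure (tc D P) := by
    rw [hP.2.2.2, sub_add_cancel]; exact e_end_mem_closure_Sec hP.2.1 hP.2.2.1.le
  obtain ⟨L, α, hL, hcor⟩ := ray_back hDc hb hP.1 hhalfP hbk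
  filter_upwards [Ioo_mem_nhdsGT hL] with s hs
  apply gap_side hF hD hne hb hcor
  refine ⟨L - s, L, by linarith [hs.2], by linarith [hs.1], ?_, ?_⟩
  · rw [sub_add_cancel, e_sub_pi, smul_neg, sub_smul]; abel
  · rw [sub_add_cancel, e_sub_pi, smul_neg]
    have : P + L • e (τ + γ) + -(L • e (τ + γ)) = P := by abel
    rw [this]; exact hP.1

omit hb in
/-- shape of a cell whose closure contains the incoming ray of a gap corner -/
lemma gap_in_shape {P : ℂ} {τ γ : ℝ} (hP : IsCorner D P τ γ) {j : J} (hj : P ∈ closure (U j))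
    (hr : e (τ + γ) ∈ closure (tc (U j) P)) :
    ∃ α, 0 < α ∧ α ≤ Real.pi ∧ tc (U j) P = Sec (τ + γ) α := by
  have hc := hF.cell j
  have hdis := disjoint_tc hc.op hc.cv hj hD.op hD.cv hP.1 (hD.dj j).symm
  rw [hP.2.2.2] at hdis
  have hsinγ : 0 < Real.sin γ := Real.sin_pos_of_pos_of_lt_pi hP.2.1 hP.2.2.1
  have hneg : ∀ v ∈ tc (U j) P, ¬ crs (e (τ + γ)) v < 0 := by
    intro v hv hlt
    set lam : ℝ := (|crs (e τ) v| + 1) / Real.sin γ with hlam
    have hlam0 : 0 < lam := by positivity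
    have h1 := tc_add_closure hc.op hc.cv hj hv (smul_mem_closure_tc hlam0 hr)
    apply Set.disjoint_left.mp hdis h1
    constructor
    · rw [crs_add, crs_smul, crs_e_e, add_sub_cancel_left, hlam, div_mul_cancel₀ _ hsinγ.ne']
      linarith [neg_abs_le (crs (e τ) v)]
    · rw [add_crs, smul_crs, crs_self, mul_zero, add_zero, crs_anti]; linarith
  have hpos : ∀ v ∈ tc (U j) P, 0 < crs (e (τ + γ)) v := by
    intro v hv
    rcases lt_trichotomy 0 (crs (e (τ + γ)) v) with h | h | h
    · exact h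
    · exfalso
      have hcont : Tendsto (fun r : ℝ => v + r • e (τ + γ - Real.pi / 2)) (𝓝[>] 0) (𝓝 v) := by
        have : Continuous (fun r : ℝ => v + r • e (τ + γ - Real.pi / 2)) := by fun_prop
        have h := (this.tendsto 0).mono_left (nhdsWithin_le_nhds (s := Ioi 0))
        simpa using h
      have hev := (hcont.eventually ((isOpen_tc hc.op).mem_nhds hv)).and self_mem_nhdsWithin
      obtain ⟨r, hr1, hr0⟩ := hev.exists
      have hr0' : (0:ℝ) < r := hr0
      apply hneg _ hr1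
      rw [crs_add, ← h, crs_smul, crs_e_e]
      have : Real.sin (τ + γ - Real.pi / 2 - (τ + γ)) = -1 := by
        rw [show τ + γ - Real.pi / 2 - (τ + γ) = -(Real.pi / 2) by ring, Real.sin_neg,
          Real.sin_pi_div_two]
      rw [this]; linarith
    · exact absurd h (hneg v hv)
  obtain ⟨s, α, h1, h2, h3, h4⟩ := tc_frame hc.op hc.cv hc.ne hj hpos
  rw [h4] at hr
  have h5 := mem_closure_Sec_frame' h1 h2 h3 le_rfl (by linarith [Real.pi_pos]) hr
  have hs : s = τ + γ := le_antisymm h5.1 h1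
  exact ⟨α, h2, by linarith, by rw [h4, hs]⟩

omit hb in
lemma gap_out_shape {P : ℂ} {τ γ : ℝ} (hP : IsCorner D P τ γ) {j : J} (hj : P ∈ closure (U j))
    (hr : e τ ∈ closure (tc (U j) P)) :
    ∃ α, 0 < α ∧ α ≤ Real.pi ∧ tc (U j) P = Sec (τ - α) α := by
  have hc := hF.cell j
  have hdis := disjoint_tc hc.op hc.cv hj hD.op hD.cv hP.1 (hD.dj j).symm
  rw [hP.2.2.2] at hdis
  have hsinγ : 0 < Real.sin γ := Real.sin_pos_of_pos_of_lt_pi hP.2.1 hP.2.2.1
  have hneg : ∀ v ∈ tc (U j) P, ¬ 0 < crs (e τ) v := by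
    intro v hv hlt
    set lam : ℝ := (|crs v (e (τ + γ))| + 1) / Real.sin γ with hlam
    have hlam0 : 0 < lam := by positivity
    have h1 := tc_add_closure hc.op hc.cv hj hv (smul_mem_closure_tc hlam0 hr)
    apply Set.disjoint_left.mp hdis h1
    constructor
    · rw [crs_add, crs_smul, crs_self, mul_zero, add_zero]; exact hlt
    · rw [add_crs, smul_crs, crs_e_e, add_sub_cancel_left, hlam, div_mul_cancel₀ _ hsinγ.ne']
      linarith [neg_abs_le (crs v (e (τ + γ)))]
  have hpos : ∀ v ∈ tc (U j) P, 0 < crs (e (τ - Real.pi)) v := by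
    intro v hv
    rw [e_sub_pi, neg_crs]
    rcases lt_trichotomy 0 (crs (e τ) v) with h | h | h
    · exact absurd h (hneg v hv)
    · exfalso
      have hcont : Tendsto (fun r : ℝ => v + r • e (τ + Real.pi / 2)) (𝓝[>] 0) (𝓝 v) := by
        have : Continuous (fun r : ℝ => v + r • e (τ + Real.pi / 2)) := by fun_prop
        have h := (this.tendsto 0).mono_left (nhdsWithin_le_nhds (s := Ioi 0))
        simpa using h
      have hev := (hcont.eventually ((isOpen_tc hc.op).mem_nhds hv)).and self_mem_nhdsWithin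
      obtain ⟨r, hr1, hr0⟩ := hev.exists
      have hr0' : (0:ℝ) < r := hr0
      apply hneg _ hr1
      rw [crs_add, ← h, crs_smul, crs_e_e]
      simp; exact hr0'
    · linarith
  obtain ⟨s, α, h1, h2, h3, h4⟩ := tc_frame hc.op hc.cv hc.ne hj hpos
  rw [sub_add_cancel] at h3
  rw [h4] at hr
  have h5 := mem_closure_Sec_frame' h1 h2 (by linarith) (by linarith [Real.pi_pos])
    (by linarith) hr
  have hs : s = τ - α := by linarith [h5.2]
  exact ⟨α, h2, by linarith, by rw [h4, hs]⟩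

/-- at every corner of a gap there is a flat cell -/
lemma gap_corner_flat {P : ℂ} {τ γ : ℝ} (hP : IsCorner D P τ γ) :
    ∃ k t, P ∈ closure (U k) ∧ tc (U k) P = Sec t Real.pi := by
  obtain ⟨j, hj, hr⟩ := gap_in hF hD hne hb hP
  obtain ⟨α, h0, h1, h2⟩ := gap_in_shape hF hD hne hP hj hr
  rcases h1.lt_or_eq with hα | hα
  · have hfree : Free U j P (τ + γ) := by
      unfold Free
      rw [Filter.eventually_all]
      intro m
      by_cases hmj : m = j
      · exact Filter.Eventually.of_forall (fun _ h => absurd hmj h)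
      by_cases hPm : P ∈ closure (U m)
      · filter_upwards [self_mem_nhdsWithin] with r hr' _ hcl
        have hcl' := mem_closure_tc hr' hcl
        obtain ⟨β, h3, h4, h5⟩ := gap_in_shape hF hD hne hP hPm hcl'
        have hdis := disjoint_tc (hF.cell m).op (hF.cell m).cv hPm (hF.cell j).op (hF.cell j).cv hj
          (hF.dj hmj)
        rw [h5, h2] at hdis
        have hmin : 0 < min α β := lt_min h0 h3
        have e1 : (1:ℝ) • e (τ + γ + min α β / 2) ∈ Sec (τ + γ) β := by
          rw [mem_Sec_iff (a := τ + γ) le_rfl h3 (by linarith) (by linarith) _ one_pos]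
          · constructor
            · linarith
            · linarith [min_le_right α β]
          · linarith [min_le_right α β]
        have e2 : (1:ℝ) • e (τ + γ + min α β / 2) ∈ Sec (τ + γ) α := by
          rw [mem_Sec_iff (a := τ + γ) le_rfl h0 (by linarith) (by linarith) _ one_pos]
          · constructor
            · linarith
            · linarith [min_le_left α β]
          · linarith [min_le_right α β]
        exact Set.disjoint_left.mp hdis e1 e2
      · have hcont : Tendsto (fun r : ℝ => P + r • e (τ + γ)) (𝓝[>] 0) (𝓝 P) := by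
          have : Continuous (fun r : ℝ => P + r • e (τ + γ)) := by fun_prop
          have h := (this.tendsto 0).mono_left (nhdsWithin_le_nhds (s := Ioi 0))
          simpa using h
        have hev := hcont.eventually (isClosed_closure.isOpen_compl.mem_nhds hPm)
        filter_upwards [hev] with r hr _
        exact hr
    obtain ⟨k, t, _, hk, hkf⟩ := walk hF.cell hF.dj hF.bl ⟨hj, h0, hα, h2⟩ hfree
    exact ⟨k, t, hk, hkf⟩
  · exact ⟨j, τ + γ, hj, by rw [h2, hα]⟩

/-- at every corner of a gap there is a cell with a corner -/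
lemma gap_corner_corner {P : ℂ} {τ γ : ℝ} (hP : IsCorner D P τ γ) :
    ∃ k t α, IsCorner (U k) P t α := by
  obtain ⟨j, hj, hr⟩ := gap_in hF hD hne hb hP
  obtain ⟨α, h0, h1, h2⟩ := gap_in_shape hF hD hne hP hj hr
  obtain ⟨i, hi, hri⟩ := gap_out hF hD hne hb hP
  obtain ⟨β, h3, h4, h5⟩ := gap_out_shape hF hD hne hP hi hri
  rcases h1.lt_or_eq with hα | hα
  · exact ⟨j, τ + γ, α, hj, h0, hα, h2⟩
  rcases h4.lt_or_eq with hβ | hβ
  · exact ⟨i, τ - β, β, hi, h3, hβ, h5⟩
  exfalso
  rw [hα] at h2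
  rw [hβ] at h5
  have hsinγ : 0 < Real.sin γ := Real.sin_pos_of_pos_of_lt_pi hP.2.1 hP.2.2.1
  by_cases hij : i = j
  · subst hij
    have := half_eq (h5.symm.trans h2)
    have h6 : crs (e τ) (e (τ + γ)) = 0 := by
      rw [← this, e_sub_pi, crs_neg, crs_self, neg_zero]
    rw [crs_e_e, add_sub_cancel_left] at h6
    linarith
  · have hdis := disjoint_tc (hF.cell i).op (hF.cell i).cv hi (hF.cell j).op (hF.cell j).cv hj
      (hF.dj hij)
    rw [h5, h2] at hdis
    obtain ⟨v, hv⟩ := Sec_nonempty (s := τ) hP.2.1 hP.2.2.1.le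
    have m1 : -v ∈ Sec (τ - Real.pi) Real.pi := by
      rw [Sec_pi]; simp only [mem_ofPred_eq]
      rw [e_sub_pi, crs_neg, neg_crs, neg_neg]; exact hv.1
    have m2 : -v ∈ Sec (τ + γ) Real.pi := by
      rw [Sec_pi]; simp only [mem_ofPred_eq]
      rw [crs_neg, ← crs_anti]; exact hv.2
    exact Set.disjoint_left.mp hdis m1 m2

/-- the boundary of a gap is covered by closures of cells -/
lemma gap_boundary {z : ℂ} (hz : z ∈ closure D) (hzD : z ∉ D) : ∃ j, z ∈ closure (U j) := by
  have hDc := max_cell hF.cell hD hne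
  obtain ⟨s, α, h0, h1, h2⟩ := tc_eq_Sec hDc.op hDc.cv hne hz hzD
  rcases h1.lt_or_eq with hα | hα
  · obtain ⟨j, hj, _⟩ := gap_out hF hD hne hb ⟨hz, h0, hα, h2⟩
    exact ⟨j, hj⟩
  · rw [hα] at h2
    have hh : ∀ v ∈ tc D z, 0 < crs (e s) v := by
      intro v hv; rw [h2] at hv; exact hv.1
    have hbk : e (s + Real.pi) ∈ closure (tc D z) := by
      rw [h2]; exact e_end_mem_closure_Sec Real.pi_pos le_rfl
    have hfw : e s ∈ closure (tc D z) := by
      rw [h2]; exact e_t_mem_closure_Sec Real.pi_pos le_rfl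
    obtain ⟨L, β, hL, hcor⟩ := ray_back hDc hb hz hh hbk
    obtain ⟨r, hr, hr0⟩ := ((local_exact hDc hz hfw).and self_mem_nhdsWithin).exists
    have hr0' : (0:ℝ) < r := hr0
    apply gap_side hF hD hne hb hcor
    refine ⟨L, L + r, hL, by linarith, ?_, ?_⟩
    · rw [e_add_pi, smul_neg]; abel
    · rw [e_add_pi, smul_neg, add_smul]
      have : z + -(L • e s) + (L • e s + r • e s) = z + r • e s := by abel
      rw [this]; exact hr

/-- two gaps are equal or disjoint -/
lemma gap_unique {D' : Set ℂ} (hD' : MaxDisj U D') (hint : (D' ∩ D).Nonempty) : D' ⊆ D := by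
  have hpre : IsPreconnected D' := hD'.cv.isPreconnected
  apply hpre.subset_left_of_subset_union hD.op isClosed_closure.isOpen_compl (v := (closure D)ᶜ)
  · rw [Set.disjoint_left]
    intro x hx hx'
    exact hx' (subset_closure hx)
  · intro x hx
    by_cases hxD : x ∈ D
    · left; exact hxD
    · right
      intro hxc
      obtain ⟨j, hj⟩ := gap_boundary hF hD hne hb hxc hxD
      exact not_mem_of_disjoint_closure hD'.op (hD'.dj j).symm hj hx
  · exact hint

end

end Nonagon
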