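import Pool.Agent.Lib.MP_b090c9_co.Loc

set_option autoImplicit false

namespace Nonagon

open Finset

/-- piecewise linear weight -/
noncomputable def lam (x : ℝ) : ℝ :=
  max 0 (max (min (0.067 * x - 0.134) (0.0438 * x - 0.0644)) (min (0.067 * x - 0.1572) (0.03556 * x)))

/-- the gain per body is 2W -/
noncomputable def W : ℝ := 0.1778

lemma lam_nonneg (x : ℝ) : 0 ≤ lam x := le_max_left _ _

lemma lam_cases (x : ℝ) : (x ≤ 3 ∧ 0.067 * x - 0.134 ≤ lam x) ∨
    (3 ≤ x ∧ x ≤ 5 ∧ 0.0438 * x - 0.0644 ≤ lam x ∧ 0.067 * x - 0.1572 ≤ lam x) ∨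
    (5 ≤ x ∧ 0.0438 * x - 0.0644 ≤ lam x ∧ 0.03556 * x ≤ lam x) := by
  have h1 : min (0.067 * x - 0.134) (0.0438 * x - 0.0644) ≤ lam x :=
    (le_max_left _ _).trans (le_max_right _ _)
  have h2 : min (0.067 * x - 0.1572) (0.03556 * x) ≤ lam x :=
    (le_max_right _ _).trans (le_max_right _ _)
  rcases le_or_gt x 3 with h3 | h3
  · left
    rw [min_eq_left (by linarith)] at h1
    exact ⟨h3, h1⟩
  · right
    rw [min_eq_right (by linarith)] at h1
    rcases le_or_gt x 5 with h5 | h5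
    · left
      rw [min_eq_left (by linarith)] at h2
      exact ⟨h3.le, h5, h1, h2⟩
    · right
      rw [min_eq_right (by linarith)] at h2
      exact ⟨h5.le, h1, h2⟩

lemma lam_le {x : ℝ} (h0 : 0 ≤ x) (h9 : x ≤ 9) : lam x ≤ 0.04 * x := by
  unfold lam
  apply max_le (by linarith)
  apply max_le
  · exact (min_le_right _ _).trans (by linarith)
  · exact (min_le_right _ _).trans (by linarith)

lemma lam_ge (x : ℝ) : 0.04 * x - 0.08 ≤ lam x := by
  rcases le_or_gt x 2 with h | h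
  · linarith [lam_nonneg x]
  · rcases lam_cases x with h1 | h1 | h1
    · linarith [h1.2]
    · linarith [h1.2.2.1]
    · linarith [h1.2.1]

lemma lam_triple {a b c : ℝ} (ha : 0 ≤ a) (hb : 0 ≤ b) (hc : 0 ≤ c) (h : a + b + c = 9) :
    W ≤ lam a + lam b + lam c := by
  unfold W
  have na := lam_nonneg a
  have nb := lam_nonneg b
  have nc := lam_nonneg c
  rcases lam_cases a with ⟨a1, a2⟩ | ⟨a1, a2, a3, a4⟩ | ⟨a1, a2, a3⟩ <;>
    rcases lam_cases b with ⟨b1, b2⟩ | ⟨b1, b2, b3, b4⟩ | ⟨b1, b2, b3⟩ <;>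
      rcases lam_cases c with ⟨c1, c2⟩ | ⟨c1, c2, c3, c4⟩ | ⟨c1, c2, c3⟩ <;>
        linarith

lemma lam_star {x θ : ℝ} (h0 : 0 ≤ θ) (h1 : θ ≤ 1) : lam (θ * x) ≤ θ * lam x := by
  have e1 : θ * min (0.067 * x - 0.134) (0.0438 * x - 0.0644) ≤ θ * lam x :=
    mul_le_mul_of_nonneg_left ((le_max_left _ _).trans (le_max_right _ _)) h0
  have e2 : θ * min (0.067 * x - 0.1572) (0.03556 * x) ≤ θ * lam x :=
    mul_le_mul_of_nonneg_left ((le_max_right _ _).trans (le_max_right _ _)) h0
  rw [mul_min_of_nonneg _ _ h0] at e1 e2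
  conv_lhs => unfold lam
  apply max_le (mul_nonneg h0 (lam_nonneg x))
  apply max_le
  · refine le_trans (min_le_min ?_ ?_) e1 <;> nlinarith
  · refine le_trans (min_le_min ?_ ?_) e2 <;> nlinarith

lemma lam_sum {ι : Type*} (s : Finset ι) (g : ι → ℝ) (hg : ∀ i ∈ s, 0 ≤ g i) :
    ∑ i ∈ s, lam (g i) ≤ lam (∑ i ∈ s, g i) := by
  set G := ∑ i ∈ s, g i with hG
  have hG0 : 0 ≤ G := Finset.sum_nonneg hg
  rcases hG0.lt_or_eq with h | h
  · have : ∀ i ∈ s, lam (g i) ≤ g i / G * lam G := by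
      intro i hi
      have h1 := lam_star (x := G) (θ := g i / G) (div_nonneg (hg i hi) hG0)
        (by rw [div_le_one h]; exact Finset.single_le_sum hg hi)
      rwa [div_mul_cancel₀ _ h.ne'] at h1
    calc ∑ i ∈ s, lam (g i) ≤ ∑ i ∈ s, g i / G * lam G := Finset.sum_le_sum this
      _ = lam G := by
        rw [← Finset.sum_mul, ← Finset.sum_div, ← hG, div_self h.ne', one_mul]
  · have h0 : ∀ i ∈ s, g i = 0 := by
      intro i hi
      have := (Finset.sum_eq_zero_iff_of_nonneg hg).mp (by rw [← hG, ← h]) i hi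
      exact this
    have hl0 : lam 0 = 0 := by
      unfold lam; norm_num
    rw [Finset.sum_congr rfl (fun i hi => by rw [h0 i hi]), ← h, hl0]
    simp

/-- inequality at a point: ν are exterior angles of real corners, γ interior angles of gap corners,
f the number of flat cells -/
lemma point_ineq {ι κ : Type*} (R : Finset ι) (G : Finset κ) (ν : ι → ℝ) (γ : κ → ℝ) (f : ℕ)
    (hν : ∀ i ∈ R, 0 < ν i ∧ ν i < 9) (hγ : ∀ k ∈ G, 0 < γ k ∧ γ k < 9)
    (hsum : ∑ i ∈ R, (9 - ν i) + 9 * (f : ℝ) + ∑ k ∈ G, γ k = 18)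
    (hG : G.Nonempty → 1 ≤ f ∧ R.Nonempty) :
    0 ≤ ∑ i ∈ R, (lam (ν i) - W / 9 * ν i) - ∑ k ∈ G, (lam (γ k) - W / 9 * γ k) := by
  classical
  rw [Finset.sum_sub_distrib, Finset.sum_sub_distrib, ← Finset.mul_sum, ← Finset.mul_sum]
  rw [Finset.sum_sub_distrib, Finset.sum_const, nsmul_eq_mul] at hsum
  have hl1 : 0.04 * ∑ i ∈ R, ν i - 0.08 * (R.card : ℝ) ≤ ∑ i ∈ R, lam (ν i) := by
    have : ∑ i ∈ R, (0.04 * ν i - 0.08) ≤ ∑ i ∈ R, lam (ν i) :=
      Finset.sum_le_sum (fun i hi => lam_ge _)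
    rw [Finset.sum_sub_distrib, Finset.sum_const, nsmul_eq_mul, ← Finset.mul_sum] at this
    linarith
  have hl2 : ∑ k ∈ G, lam (γ k) ≤ 0.04 * ∑ k ∈ G, γ k := by
    rw [Finset.mul_sum]
    exact Finset.sum_le_sum (fun k hk => lam_le (hγ k hk).1.le (hγ k hk).2.le)
  have hg0 : 0 ≤ ∑ k ∈ G, γ k := Finset.sum_nonneg (fun k hk => (hγ k hk).1.le)
  have hpos : ∑ i ∈ R, ν i ≤ 9 * (R.card : ℝ) := by
    have : ∑ i ∈ R, ν i ≤ ∑ i ∈ R, (9:ℝ) := Finset.sum_le_sum (fun i hi => (hν i hi).2.le)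
    rw [Finset.sum_const, nsmul_eq_mul] at this
    linarith
  have hν0 : 0 ≤ ∑ i ∈ R, ν i := Finset.sum_nonneg (fun k hk => (hν k hk).1.le)
  set m := R.card with hm
  set S := ∑ i ∈ R, ν i with hS
  set g := ∑ k ∈ G, γ k with hg
  have hf2 : f ≤ 2 := by
    by_contra hc
    push Not at hc
    have : (3:ℝ) ≤ f := by exact_mod_cast hc
    linarith
  have hGe : ¬ G.Nonempty → g = 0 ∧ ∑ k ∈ G, lam (γ k) = 0 := by
    intro h
    rw [Finset.not_nonempty_iff_eq_empty] at h
    constructor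
    · rw [hg, h]; simp
    · rw [h]; simp
  unfold W
  interval_cases f
  · -- no flat
    have hGn : ¬ G.Nonempty := fun h => by have := (hG h).1; omega
    obtain ⟨hg1, hg2⟩ := hGe hGn
    rw [hg1] at hsum
    rw [hg1, hg2]
    have hm3 : 3 ≤ m := by
      by_contra hc
      push Not at hc
      have h2 : (m:ℝ) ≤ 2 := by exact_mod_cast Nat.lt_succ_iff.mp hc
      have hS0 : S = 0 := by push_cast at hsum; linarith
      have hR : R = ∅ := by
        by_contra hne
        have : 0 < S := Finset.sum_pos (fun i hi => (hν i hi).1) (Finset.nonempty_iff_ne_empty.mpr hne)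
        linarith
      rw [hm, hR] at hsum
      simp at hsum
      linarith
    rcases hm3.lt_or_eq with h4 | h3
    · have : (4:ℝ) ≤ m := by exact_mod_cast h4
      push_cast at hsum
      linarith
    · obtain ⟨a, b, c, hab, hac, hbc, hR⟩ := Finset.card_eq_three.mp (hm ▸ h3.symm)
      have hSum : S = ν a + ν b + ν c := by
        rw [hS, hR, Finset.sum_insert (by simp [hab, hac]), Finset.sum_insert (by simp [hbc]),
          Finset.sum_singleton]; ring
      have hLam : ∑ i ∈ R, lam (ν i) = lam (ν a) + lam (ν b) + lam (ν c) := by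
        rw [hR, Finset.sum_insert (by simp [hab, hac]), Finset.sum_insert (by simp [hbc]),
          Finset.sum_singleton]; ring
      have h9 : ν a + ν b + ν c = 9 := by
        rw [← hSum]; rw [← h3] at hsum; push_cast at hsum; linarith
      have := lam_triple (hν a (by rw [hR]; simp)).1.le (hν b (by rw [hR]; simp)).1.le
        (hν c (by rw [hR]; simp)).1.le h9
      rw [hLam, hSum, h9]
      unfold W at this
      linarith
  · -- one flat
    rcases Nat.lt_or_ge m 2 with h2 | h2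
    · interval_cases hmm : m
      · -- m = 0
        exfalso
        have hRe : R = ∅ := Finset.card_eq_zero.mp hmm
        by_cases hGn : G.Nonempty
        · have := (hG hGn).2
          rw [hRe] at this
          simp at this
        · obtain ⟨hg1, hg2⟩ := hGe hGn
          have hS0 : S = 0 := by rw [hS, hRe]; simp
          rw [hg1, hS0] at hsum
          norm_num at hsum
      · -- m = 1
        obtain ⟨a, ha⟩ := Finset.card_eq_one.mp hmm
        have hSa : S = ν a := by rw [hS, ha, Finset.sum_singleton]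
        have hLa : ∑ i ∈ R, lam (ν i) = lam (ν a) := by rw [ha, Finset.sum_singleton]
        have hgS : g = S := by push_cast at hsum; linarith
        have h1 := lam_sum G γ (fun k hk => (hγ k hk).1.le)
        rw [← hg, hgS, hSa, ← hLa] at h1
        rw [hgS]
        linarith
    · have : (2:ℝ) ≤ m := by exact_mod_cast h2
      push_cast at hsum
      linarith
  · -- two flats
    have h1 : S = 9 * (m:ℝ) := by push_cast at hsum; linarith
    have h2 : g = 0 := by push_cast at hsum; linarith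
    have hR : R = ∅ := by
      by_contra hne
      have : S < ∑ i ∈ R, (9:ℝ) :=
        Finset.sum_lt_sum_of_nonempty (Finset.nonempty_iff_ne_empty.mpr hne) (fun i hi => (hν i hi).2)
      rw [Finset.sum_const, nsmul_eq_mul] at this
      linarith
    have hG' : G = ∅ := by
      by_contra hne
      have : 0 < g := Finset.sum_pos (fun i hi => (hγ i hi).1) (Finset.nonempty_iff_ne_empty.mpr hne)
      linarith
    rw [hS, hg, hR, hG']
    simp

/-- crude inequality used at the four corners of the square -/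
lemma point_crude {ι κ : Type*} (R : Finset ι) (G : Finset κ) (ν : ι → ℝ) (γ : κ → ℝ)
    (hν : ∀ i ∈ R, 0 < ν i ∧ ν i < 9) (hγ : ∀ k ∈ G, 0 < γ k ∧ γ k < 9)
    (hsum : ∑ i ∈ R, (9 - ν i) + ∑ k ∈ G, γ k ≤ 18) :
    -1 ≤ ∑ i ∈ R, (lam (ν i) - W / 9 * ν i) - ∑ k ∈ G, (lam (γ k) - W / 9 * γ k) := by
  have h1 : ∑ i ∈ R, (-0.04 * (9 - ν i)) ≤ ∑ i ∈ R, (lam (ν i) - W / 9 * ν i) := by
    apply Finset.sum_le_sum
    intro i hi
    have := lam_ge (ν i)
    have h9 := (hν i hi).2
    have h0 := (hν i hi).1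
    unfold W
    linarith
  have h2 : ∑ k ∈ G, (lam (γ k) - W / 9 * γ k) ≤ ∑ k ∈ G, 0.04 * γ k := by
    apply Finset.sum_le_sum
    intro k hk
    have := lam_le (hγ k hk).1.le (hγ k hk).2.le
    have h0 := (hγ k hk).1
    unfold W
    linarith
  rw [← Finset.mul_sum] at h1 h2
  linarith

end Nonagon
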