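import Pool.Agent.Lib.MP_b090c9_co.ASum

set_option autoImplicit false

namespace Nonagon

open MeasureTheory Set Filter Topology

lemma pigeon' {T : Type*} [Finite T] {V : T → Set ℂ} {P d : ℂ}
    (h : ∀ᶠ s in 𝓝[>] (0:ℝ), ∃ j, P + s • d ∈ closure (V j)) :
    ∃ j, P ∈ closure (V j) ∧ d ∈ closure (tc (V j) P) := by
  have hfreq : ∃ j, ∃ᶠ s in 𝓝[>] (0:ℝ), P + s • d ∈ closure (V j) := by
    by_contra hc
    push Not at hc
    have : ∀ᶠ s in 𝓝[>] (0:ℝ), ∀ j, P + s • d ∉ closure (V j) := by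
      rw [Filter.eventually_all]
      intro j
      exact hc j
    obtain ⟨s, ⟨j, hs1⟩, hs2⟩ := (h.and this).exists
    exact hs2 j hs1
  obtain ⟨j, hj⟩ := hfreq
  have hcont : Tendsto (fun r : ℝ => P + r • d) (𝓝[>] 0) (𝓝 P) := by
    have : Continuous (fun r : ℝ => P + r • d) := by fun_prop
    have h := (this.tendsto 0).mono_left (nhdsWithin_le_nhds (s := Ioi 0))
    simpa using h
  refine ⟨j, isClosed_closure.mem_of_frequently_of_tendsto hj hcont, ?_⟩
  obtain ⟨s, hs1, hs2⟩ := (hj.and_eventually self_mem_nhdsWithin).exists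
  exact mem_closure_tc hs2 hs1

open Classical in
theorem local_sum {T : Type*} [Fintype T] {V : T → Set ℂ} (ho : ∀ i, IsOpen (V i))
    (hc : ∀ i, Convex ℝ (V i)) (hd : Pairwise (fun i j => Disjoint (V i) (V j)))
    (hcov : ∀ x, ∃ i, x ∈ closure (V i)) (P : ℂ) : ∑ i, ang (V i) P = 2 * Real.pi := by
  set K : T → Set ℂ := fun i => if P ∈ closure (V i) then tc (V i) P ∩ Metric.ball 0 1 else ∅ with hK
  have hKm : ∀ i, MeasurableSet (K i) := by
    intro i
    simp only [hK]
    split_ifs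
    · exact (isOpen_tc (ho i)).measurableSet.inter Metric.isOpen_ball.measurableSet
    · exact MeasurableSet.empty
  have hKb : ∀ i, K i ⊆ Metric.ball 0 1 := by
    intro i
    simp only [hK]
    split_ifs
    · exact inter_subset_right
    · exact empty_subset _
  have hKa : ∀ i, ang (V i) P = 2 * (volume (K i)).toReal := by
    intro i
    unfold ang
    simp only [hK]
    split_ifs
    · rfl
    · simp
  have hKd : Pairwise (fun i j => Disjoint (K i) (K j)) := by
    intro i j hij
    by_cases hi : P ∈ closure (V i)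
    · by_cases hj : P ∈ closure (V j)
      · simp only [hK, if_pos hi, if_pos hj]
        have := disjoint_tc (ho i) (hc i) hi (ho j) (hc j) hj (hd hij)
        exact this.mono inter_subset_left inter_subset_left
      · simp only [hK, if_neg hj]; exact disjoint_empty _
    · simp only [hK, if_neg hi]; exact empty_disjoint _
  have hcover : Metric.ball (0:ℂ) 1 ⊆ (⋃ i, K i) ∪
      (⋃ i, if P ∈ closure (V i) then frontier (tc (V i) P) else ∅) := by
    intro v hv
    obtain ⟨i, hi, hvi⟩ := pigeon' (P := P) (d := v) (Filter.Eventually.of_forall (fun s => hcov (P + s • v)))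
    by_cases hvt : v ∈ tc (V i) P
    · left
      rw [mem_iUnion]
      refine ⟨i, ?_⟩
      simp only [hK, if_pos hi]
      exact ⟨hvt, hv⟩
    · right
      rw [mem_iUnion]
      refine ⟨i, ?_⟩
      rw [if_pos hi, frontier, (isOpen_tc (ho i)).interior_eq]
      exact ⟨hvi, hvt⟩
  have hnull : volume (⋃ i, if P ∈ closure (V i) then frontier (tc (V i) P) else ∅) = 0 := by
    rw [measure_iUnion_null_iff]
    intro i
    split_ifs with hi
    · exact (convex_tc (ho i) (hc i) hi).addHaar_frontier volume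
    · simp
  have h1 : volume (Metric.ball (0:ℂ) 1) = volume (⋃ i, K i) := by
    apply le_antisymm
    · calc volume (Metric.ball (0:ℂ) 1) ≤ _ := measure_mono hcover
        _ ≤ _ := measure_union_le _ _
        _ = volume (⋃ i, K i) := by rw [hnull, add_zero]
    · exact measure_mono (iUnion_subset hKb)
  have hfin : ∀ i, volume (K i) ≠ ⊤ := by
    intro i
    apply ne_top_of_le_ne_top _ (measure_mono (hKb i))
    rw [volume_unit_ball]; exact ENNReal.ofReal_ne_top
  rw [measure_iUnion hKd hKm, tsum_fintype, volume_unit_ball] at h1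
  have h2 := congrArg ENNReal.toReal h1
  rw [ENNReal.toReal_ofReal Real.pi_pos.le, ENNReal.toReal_sum (fun i _ => hfin i)] at h2
  rw [Finset.sum_congr rfl (fun i _ => hKa i), ← Finset.mul_sum, ← h2]

section gaps
variable {J : Type*} [Fintype J] {U : J → Set ℂ}

/-- gaps of the family -/
def Gap (U : J → Set ℂ) : Type := {D : Set ℂ // MaxDisj U D ∧ D.Nonempty}

variable (hF : Family U) (hS : ∀ D : Gap U, Bornology.IsBounded D.1)
include hF hS

lemma gap_eq (D D' : Gap U) (h : (D.1 ∩ D'.1).Nonempty) : D = D' := by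
  apply Subtype.ext
  apply Subset.antisymm
  · exact gap_unique hF D'.2.1 D'.2.2 (hS D') D.2.1 h
  · exact gap_unique hF D.2.1 D.2.2 (hS D) D'.2.1 (by rwa [inter_comm])

lemma gap_disj : Pairwise (fun D D' : Gap U => Disjoint D.1 D'.1) := by
  intro D D' h
  rw [Set.disjoint_iff_inter_eq_empty, ← Set.not_nonempty_iff_eq_empty]
  exact fun hne => h (gap_eq hF hS D D' hne)

theorem finite_gap : Finite (Gap U) := by
  classical
  have hpts : (⋃ j, corn (U j)).Finite := Set.finite_iUnion (fun j => finite_corners (hF.cell j))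
  have hex : ∀ D : Gap U, ∃ (P : ℂ) (j : J) (τ γ α : ℝ), P ∈ (⋃ j, corn (U j)) ∧
      IsCorner D.1 P τ γ ∧ 0 < α ∧ α ≤ Real.pi ∧ tc (U j) P = Sec (τ - α) α := by
    intro D
    have hDc := max_cell hF.cell D.2.1 D.2.2
    obtain ⟨P, ⟨τ, γ, hP⟩, _⟩ := exists_corner_max hDc (hS D) (w := 1) one_ne_zero
    obtain ⟨j, hj, hr⟩ := gap_out hF D.2.1 D.2.2 (hS D) hP
    obtain ⟨α, h0, h1, h2⟩ := gap_out_shape hF D.2.1 D.2.2 hP hj hr
    obtain ⟨k, t, β, hk⟩ := gap_corner_corner hF D.2.1 D.2.2 (hS D) hP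
    exact ⟨P, j, τ, γ, α, mem_iUnion.mpr ⟨k, t, β, hk⟩, hP, h0, h1, h2⟩
  choose P j τ γ α hPm hPc h0 h1 h2 using hex
  have hfinX : Finite ((⋃ j, corn (U j) : Set ℂ) × J) := by
    have := hpts.to_subtype
    infer_instance
  apply Finite.of_injective (fun D : Gap U => ((⟨P D, hPm D⟩, j D) : (⋃ j, corn (U j) : Set ℂ) × J))
  intro D D' hDD
  simp only [Prod.mk.injEq, Subtype.mk.injEq] at hDD
  obtain ⟨hP, hj⟩ := hDD
  have h3 : Sec (τ D - α D) (α D) = Sec (τ D' - α D') (α D') := by
    rw [← h2 D, ← h2 D', hP, hj]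
  obtain ⟨h4, h5⟩ := Sec_inj (h0 D) (h1 D) (h0 D') (h1 D') h3
  rw [← h4] at h5
  obtain ⟨n, hn⟩ := e_inj_of h5
  have hτ : τ D' = τ D + n * (2 * Real.pi) := by linarith
  have hs : Sec (τ D') (γ D') = Sec (τ D) (γ D') := by
    have e1 : ∀ x, e (x + n * (2 * Real.pi)) = e x := by
      intro x
      apply Complex.ext
      · rw [e_re, e_re, Real.cos_add_int_mul_two_pi]
      · rw [e_im, e_im, Real.sin_add_int_mul_two_pi]
    unfold Sec
    rw [hτ, e1, show τ D + n * (2 * Real.pi) + γ D' = τ D + γ D' + n * (2 * Real.pi) by ring, e1]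
  apply gap_eq hF hS
  by_contra hcon
  rw [Set.not_nonempty_iff_eq_empty, ← Set.disjoint_iff_inter_eq_empty] at hcon
  have hc := hPc D
  have hc' := hPc D'
  rw [← hP] at hc'
  have hdis := disjoint_tc D.2.1.op D.2.1.cv hc.1 D'.2.1.op D'.2.1.cv hc'.1 hcon
  rw [hc.2.2.2, hc'.2.2.2, hs] at hdis
  have g0 := hc.2.1
  have g0' := hc'.2.1
  have g1 := hc.2.2.1
  have g1' := hc'.2.2.1
  have hmin : 0 < min (γ D) (γ D') := lt_min g0 g0'
  have m1 : (1:ℝ) • e (τ D + min (γ D) (γ D') / 2) ∈ Sec (τ D) (γ D) := by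
    rw [mem_Sec_iff (a := τ D) le_rfl g0 (by linarith) (by linarith) _ one_pos]
    · constructor
      · linarith
      · linarith [min_le_left (γ D) (γ D')]
    · linarith [min_le_left (γ D) (γ D')]
  have m2 : (1:ℝ) • e (τ D + min (γ D) (γ D') / 2) ∈ Sec (τ D) (γ D') := by
    rw [mem_Sec_iff (a := τ D) le_rfl g0' (by linarith) (by linarith) _ one_pos]
    · constructor
      · linarith
      · linarith [min_le_right (γ D) (γ D')]
    · linarith [min_le_right (γ D) (γ D')]
  exact Set.disjoint_left.mp hdis m1 m2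

omit hS hF in
/-- every point is in the closure of a cell or in a gap -/
lemma cover_point (x : ℂ) : (∃ j, x ∈ closure (U j)) ∨ ∃ D : Gap U, x ∈ D.1 := by
  by_cases h : ∃ j, x ∈ closure (U j)
  · exact Or.inl h
  right
  push Not at h
  have hopen : IsOpen (⋂ j, (closure (U j))ᶜ) :=
    isOpen_iInter_of_finite (fun j => isClosed_closure.isOpen_compl)
  obtain ⟨ε, hε, hball⟩ := Metric.isOpen_iff.mp hopen x (mem_iInter.mpr (fun j => h j))
  have hd : ∀ j, Disjoint (Metric.ball x ε) (U j) := by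
    intro j
    rw [Set.disjoint_left]
    intro y hy hyj
    exact mem_iInter.mp (hball hy) j (subset_closure hyj)
  obtain ⟨D, hD, hsub⟩ := exists_max Metric.isOpen_ball (convex_ball x ε) hd
  have hx := hsub (Metric.mem_ball_self hε)
  exact ⟨⟨D, hD, ⟨x, hx⟩⟩, hx⟩

end gaps

end Nonagon
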