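import Pool.Agent.Lib.MP_b090c9_co.Gap

set_option autoImplicit false

namespace Nonagon

open MeasureTheory Set Filter Topology

lemma exists_max {J : Type*} {U : J → Set ℂ} {V : Set ℂ} (ho : IsOpen V) (hc : Convex ℝ V)
    (hd : ∀ j, Disjoint V (U j)) : ∃ D, MaxDisj U D ∧ V ⊆ D := by
  obtain ⟨D, hVD, hD⟩ := zorn_subset_nonempty
    {W : Set ℂ | IsOpen W ∧ Convex ℝ W ∧ ∀ j, Disjoint W (U j)} (by
      intro c hc1 hc2 _
      refine ⟨⋃₀ c, ⟨isOpen_sUnion (fun W hW => (hc1 hW).1), ?_, ?_⟩, fun W hW => subset_sUnion_of_mem hW⟩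
      · exact DirectedOn.convex_sUnion hc2.directedOn (fun W hW => (hc1 hW).2.1)
      · intro j
        rw [Set.disjoint_left]
        rintro x ⟨W, hW, hx⟩ hxj
        exact Set.disjoint_left.mp ((hc1 hW).2.2 j) hx hxj) V ⟨ho, hc, hd⟩
  refine ⟨D, ⟨hD.prop.1, hD.prop.2.1, hD.prop.2.2, ?_⟩, hVD⟩
  intro V' h1 h2 h3 h4
  exact hD.le_of_ge ⟨h1, h2, h3⟩ h4

/-- maximal enlargement of a disjoint family, in presence of fixed outer sets -/
lemma exists_family {ι κ : Type*} {B : ι → Set ℂ} {O : κ → Set ℂ}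
    (hBo : ∀ i, IsOpen (B i)) (hBc : ∀ i, Convex ℝ (B i))
    (hBd : Pairwise (fun i j => Disjoint (B i) (B j))) (hBO : ∀ i k, Disjoint (B i) (O k)) :
    ∃ U : ι → Set ℂ, (∀ i, B i ⊆ U i) ∧ (∀ i, IsOpen (U i)) ∧ (∀ i, Convex ℝ (U i)) ∧
      Pairwise (fun i j => Disjoint (U i) (U j)) ∧ (∀ i k, Disjoint (U i) (O k)) ∧
      ∀ i V', IsOpen V' → Convex ℝ V' → (∀ j, j ≠ i → Disjoint V' (U j)) →
        (∀ k, Disjoint V' (O k)) → U i ⊆ V' → V' ⊆ U i := by
  classical
  obtain ⟨U, hBU, hU⟩ := zorn_le_nonempty₀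
    {W : ι → Set ℂ | (∀ i, IsOpen (W i)) ∧ (∀ i, Convex ℝ (W i)) ∧
      Pairwise (fun i j => Disjoint (W i) (W j)) ∧ (∀ i k, Disjoint (W i) (O k))} (by
      intro c hc1 hc2 y hy
      refine ⟨fun i => ⋃ W ∈ c, W i, ⟨?_, ?_, ?_, ?_⟩, ?_⟩
      · intro i
        exact isOpen_biUnion (fun W hW => (hc1 hW).1 i)
      · intro i
        have : (⋃ W ∈ c, W i) = ⋃₀ ((fun W : ι → Set ℂ => W i) '' c) := by
          ext x; simp
        show Convex ℝ (⋃ W ∈ c, W i)
        rw [this]
        apply DirectedOn.convex_sUnion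
        · rintro _ ⟨W1, h1, rfl⟩ _ ⟨W2, h2, rfl⟩
          rcases hc2.total h1 h2 with h | h
          · exact ⟨_, ⟨W2, h2, rfl⟩, h i, le_rfl⟩
          · exact ⟨_, ⟨W1, h1, rfl⟩, le_rfl, h i⟩
        · rintro _ ⟨W1, h1, rfl⟩
          exact (hc1 h1).2.1 i
      · intro i j hij
        rw [Set.disjoint_left]
        intro x hx hx'
        simp only [mem_iUnion] at hx hx'
        obtain ⟨W1, h1, hx1⟩ := hx
        obtain ⟨W2, h2, hx2⟩ := hx'
        rcases hc2.total h1 h2 with h | h
        · exact Set.disjoint_left.mp ((hc1 h2).2.2.1 hij) (h i hx1) hx2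
        · exact Set.disjoint_left.mp ((hc1 h1).2.2.1 hij) hx1 (h j hx2)
      · intro i k
        rw [Set.disjoint_left]
        intro x hx hx'
        simp only [mem_iUnion] at hx
        obtain ⟨W1, h1, hx1⟩ := hx
        exact Set.disjoint_left.mp ((hc1 h1).2.2.2 i k) hx1 hx'
      · intro W hW i x hx
        simp only [mem_iUnion]
        exact ⟨W, hW, hx⟩) B ⟨hBo, hBc, hBd, hBO⟩
  obtain ⟨h1, h2, h3, h4⟩ := hU.prop
  refine ⟨U, hBU, h1, h2, h3, h4, ?_⟩
  intro i V' ho hc hdj hdk hsub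
  have hmem : Function.update U i V' ∈ {W : ι → Set ℂ | (∀ i, IsOpen (W i)) ∧ (∀ i, Convex ℝ (W i)) ∧
      Pairwise (fun i j => Disjoint (W i) (W j)) ∧ (∀ i k, Disjoint (W i) (O k))} := by
    refine ⟨?_, ?_, ?_, ?_⟩
    · intro j
      by_cases hj : j = i
      · subst hj; rw [Function.update_self]; exact ho
      · rw [Function.update_of_ne hj]; exact h1 j
    · intro j
      by_cases hj : j = i
      · subst hj; rw [Function.update_self]; exact hc
      · rw [Function.update_of_ne hj]; exact h2 j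
    · intro j k hjk
      by_cases hj : j = i
      · subst hj
        rw [Function.update_self, Function.update_of_ne hjk.symm]; exact hdj k hjk.symm
      · by_cases hk : k = i
        · subst hk
          rw [Function.update_self, Function.update_of_ne hj]; exact (hdj j hj).symm
        · rw [Function.update_of_ne hj, Function.update_of_ne hk]; exact h3 hjk
    · intro j k
      by_cases hj : j = i
      · subst hj; rw [Function.update_self]; exact hdk k
      · rw [Function.update_of_ne hj]; exact h4 j k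
  have hle : U ≤ Function.update U i V' := by
    intro j
    by_cases hj : j = i
    · subst hj; rw [Function.update_self]; exact hsub
    · rw [Function.update_of_ne hj]
  have := hU.le_of_ge hmem hle i
  rwa [Function.update_self] at this

end Nonagon
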