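import Pool.Agent.Lib.MP_b090c9_co.Basic

set_option autoImplicit false

namespace Nonagon

open MeasureTheory Set

lemma volume_line {n : ℂ} (hn : n ≠ 0) (c : ℝ) : volume {x : ℂ | dot n x = c} = 0 := by
  set S : Set ℂ := {x : ℂ | dot n x = c} with hS
  have hconv : Convex ℝ S := by
    intro x hx y hy p q hp hq hpq
    simp only [hS, mem_ofPred_eq] at *
    rw [dot_add, dot_smul, dot_smul, hx, hy, ← add_mul, hpq, one_mul]
  have hclosed : IsClosed S := isClosed_eq (continuous_dot n) continuous_const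
  have hint : interior S = ∅ := by
    by_contra hne
    obtain ⟨x, hx⟩ := Set.nonempty_iff_ne_empty.mpr hne
    have hxo := isOpen_interior.mem_nhds hx
    have hcont : Filter.Tendsto (fun t : ℝ => x + t • n) (nhds 0) (nhds x) := by
      have : Continuous (fun t : ℝ => x + t • n) := by fun_prop
      have h := this.tendsto 0
      simpa using h
    have hev := hcont.eventually hxo
    obtain ⟨ε, hε, hball⟩ := Metric.eventually_nhds_iff.mp hev
    have h1 := hball (y := ε / 2) (by simp [abs_of_pos hε]; linarith)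
    have h2 : x + (ε / 2) • n ∈ S := interior_subset h1
    have h3 : x ∈ S := interior_subset hx
    simp only [hS, mem_ofPred_eq] at h2 h3
    rw [dot_add, dot_smul, h3] at h2
    have h4 : dot n n = 0 := by
      have : ε / 2 * dot n n = 0 := by linarith
      rcases mul_eq_zero.mp this with h | h
      · linarith
      · exact h
    apply hn
    unfold dot at h4
    apply Complex.ext
    · simp; nlinarith [sq_nonneg n.re, sq_nonneg n.im]
    · simp; nlinarith [sq_nonneg n.re, sq_nonneg n.im]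
  have h := hconv.addHaar_frontier volume
  have hfr : frontier S = S := by
    rw [frontier, hclosed.closure_eq, hint, sdiff_empty]
  rwa [hfr] at h

lemma crs_mul (u v w : ℂ) : crs (u * v) (u * w) = (u.re ^ 2 + u.im ^ 2) * crs v w := by
  unfold crs; simp [Complex.mul_re, Complex.mul_im]; ring

lemma e_mul (s t : ℝ) : e s * e t = e (s + t) := by
  rw [e_eq_exp, e_eq_exp, e_eq_exp, ← Complex.exp_add]
  congr 1
  push_cast
  ring

lemma volume_image_rot (τ : ℝ) (S : Set ℂ) (hS : MeasurableSet S) :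
    volume ((fun z : ℂ => e τ * z) ⁻¹' S) = volume S := by
  have ha : ‖e τ‖ = 1 := norm_e τ
  let a : Circle := ⟨e τ, by simp [Submonoid.unitSphere, norm_e]⟩
  have h := (rotation a).measurePreserving.measure_preimage hS.nullMeasurableSet
  have h2 : (rotation a : ℂ → ℂ) = (fun z : ℂ => e τ * z) := by
    ext z; rw [rotation_apply]
  rw [h2] at h
  exact h

lemma sin_pos_iff_of_mem {x : ℝ} (h1 : -Real.pi < x) (h2 : x < 2 * Real.pi) :
    0 < Real.sin x ↔ 0 < x ∧ x < Real.pi := by
  constructor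
  · intro h
    constructor
    · by_contra hc
      push Not at hc
      have := Real.sin_nonpos_of_nonpos_of_neg_pi_le hc h1.le
      linarith
    · by_contra hc
      push Not at hc
      have h3 : Real.sin (x - Real.pi) = - Real.sin x := Real.sin_sub_pi x
      have h4 := Real.sin_nonneg_of_nonneg_of_le_pi (x := x - Real.pi) (by linarith) (by linarith)
      linarith
  · rintro ⟨h3, h4⟩
    exact Real.sin_pos_of_pos_of_lt_pi h3 h4

lemma mem_Sec_sym {β θ r : ℝ} (h0 : 0 < β) (h1 : β ≤ Real.pi / 2) (hθ1 : -Real.pi < θ)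
    (hθ2 : θ < Real.pi) (hr : 0 < r) :
    r • e θ ∈ Sec (-β) (2 * β) ↔ -β < θ ∧ θ < β := by
  unfold Sec
  simp only [mem_ofPred_eq, crs_smul, smul_crs, crs_e_e]
  rw [mul_pos_iff_of_pos_left hr, mul_pos_iff_of_pos_left hr]
  rw [sin_pos_iff_of_mem (by linarith) (by linarith), sin_pos_iff_of_mem (by linarith) (by linarith)]
  constructor
  · rintro ⟨⟨a, b⟩, c, d⟩
    constructor <;> linarith
  · rintro ⟨a, b⟩
    refine ⟨⟨?_, ?_⟩, ?_, ?_⟩ <;> linarith

lemma volume_Sec_sym {β : ℝ} (h0 : 0 < β) (h1 : β ≤ Real.pi / 2) :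
    volume (Sec (-β) (2 * β) ∩ Metric.ball 0 1) = ENNReal.ofReal β := by
  have hmeas : MeasurableSet (Sec (-β) (2 * β) ∩ Metric.ball (0:ℂ) 1) :=
    (isOpen_Sec _ _).measurableSet.inter Metric.isOpen_ball.measurableSet
  rw [← lintegral_indicator_one hmeas, ← Complex.lintegral_comp_polarCoord_symm]
  have hset : MeasurableSet (Ioo (0:ℝ) 1 ×ˢ Ioo (-β) β) := measurableSet_Ioo.prod measurableSet_Ioo
  have hsub : Ioo (0:ℝ) 1 ×ˢ Ioo (-β) β ⊆ polarCoord.target := by
    rintro ⟨r, θ⟩ ⟨hr, hθ⟩
    simp only [polarCoord_target, mem_prod, mem_Ioi, mem_Ioo] at *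
    exact ⟨hr.1, by linarith [hθ.1], by linarith [hθ.2]⟩
  have step : ∫⁻ (p : ℝ × ℝ) in polarCoord.target, ENNReal.ofReal p.1 •
      (Sec (-β) (2 * β) ∩ Metric.ball 0 1).indicator (1 : ℂ → ENNReal) (Complex.polarCoord.symm p)
      = ∫⁻ (p : ℝ × ℝ) in polarCoord.target,
        (Ioo (0:ℝ) 1 ×ˢ Ioo (-β) β).indicator (fun p => ENNReal.ofReal p.1) p := by
    apply setLIntegral_congr_fun polarCoord.open_target.measurableSet
    rintro ⟨r, θ⟩ hp
    simp only [polarCoord_target, mem_prod, mem_Ioi, mem_Ioo] at hp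
    have hsymm : (Complex.polarCoord.symm (r, θ) : ℂ) = r • e θ := by
      rw [Complex.polarCoord_symm_apply]
      apply Complex.ext
      · rw [Complex.smul_re, e_re]; simp [-Complex.ofReal_cos, -Complex.ofReal_sin]
      · rw [Complex.smul_im, e_im]; simp [-Complex.ofReal_cos, -Complex.ofReal_sin]
    simp only [hsymm]
    have hball : r • e θ ∈ Metric.ball (0:ℂ) 1 ↔ r < 1 := by
      rw [Metric.mem_ball, dist_zero_right, norm_smul, norm_e, mul_one, Real.norm_eq_abs,
        abs_of_pos hp.1]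
    have hmem := mem_Sec_sym h0 h1 hp.2.1 hp.2.2 hp.1
    by_cases hc : (r, θ) ∈ Ioo (0:ℝ) 1 ×ˢ Ioo (-β) β
    · rw [indicator_of_mem hc, indicator_of_mem]
      · simp
      · exact ⟨hmem.mpr hc.2, hball.mpr hc.1.2⟩
    · rw [indicator_of_notMem hc, indicator_of_notMem]
      · simp
      · rintro ⟨h2, h3⟩
        exact hc ⟨⟨hp.1, hball.mp h3⟩, hmem.mp h2⟩
  rw [step, lintegral_indicator hset, Measure.restrict_restrict hset,
    inter_eq_left.mpr hsub, Measure.volume_eq_prod, ← Measure.prod_restrict]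
  have hprod := lintegral_prod_mul (μ := volume.restrict (Ioo (0:ℝ) 1))
    (ν := volume.restrict (Ioo (-β) β)) (f := fun r => ENNReal.ofReal r) (g := fun _ => 1)
    (by fun_prop) (by fun_prop)
  simp only [mul_one] at hprod
  rw [hprod]
  have hr : ∫⁻ (x : ℝ) in Ioo 0 1, ENNReal.ofReal x = ENNReal.ofReal (1/2) := by
    rw [← ofReal_integral_eq_lintegral_ofReal]
    · congr 1
      rw [← integral_Ioc_eq_integral_Ioo, ← intervalIntegral.integral_of_le (by norm_num)]
      simp
    · have : IntegrableOn (fun x : ℝ => x) (Ioo 0 1) := by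
        have h := (continuous_id (X := ℝ)).integrableOn_Icc (a := (0:ℝ)) (b := 1) (μ := volume)
        exact h.mono_set Ioo_subset_Icc_self
      exact this
    · filter_upwards [self_mem_ae_restrict measurableSet_Ioo] with x hx
      exact hx.1.le
  rw [hr]
  simp only [lintegral_const, one_mul, Measure.restrict_apply_univ, Real.volume_Ioo]
  rw [← ENNReal.ofReal_mul (by norm_num)]
  congr 1
  ring

/-- area of a sector of the unit disc -/
lemma volume_Sec {s α : ℝ} (h0 : 0 < α) (h1 : α ≤ Real.pi) :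
    volume (Sec s α ∩ Metric.ball 0 1) = ENNReal.ofReal (α / 2) := by
  have hmeas : MeasurableSet (Sec (-(α/2)) (2 * (α/2)) ∩ Metric.ball (0:ℂ) 1) :=
    (isOpen_Sec _ _).measurableSet.inter Metric.isOpen_ball.measurableSet
  rw [← volume_Sec_sym (β := α / 2) (by linarith) (by linarith),
    ← volume_image_rot (-(s + α / 2)) _ hmeas]
  congr 1
  ext z
  have hn : (e (-(s + α/2))).re ^ 2 + (e (-(s + α/2))).im ^ 2 = 1 := by
    rw [e_re, e_im]; nlinarith [Real.sin_sq_add_cos_sq (-(s + α/2))]
  have e1 : e (-(α / 2)) = e (-(s + α/2)) * e s := by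
    rw [e_mul]; congr 1; ring
  have e2 : e (-(α / 2) + 2 * (α / 2)) = e (-(s + α/2)) * e (s + α) := by
    rw [e_mul]; congr 1; ring
  simp only [mem_inter_iff, mem_preimage, Sec, mem_ofPred_eq, Metric.mem_ball, dist_zero_right,
    norm_mul, norm_e, one_mul]
  rw [e1, e2, crs_mul, crs_mul, hn, one_mul, one_mul]

end Nonagon
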