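import Pool.Agent.Lib.MP_b090c9_co.Trig

set_option autoImplicit false

namespace Nonagon

open MeasureTheory Set Filter Topology Real

/-- normals of the regular nonagon -/
noncomputable def nv (ρ : ℝ) (k : ZMod 9) : ℂ := e (ρ + 2 * π * (k.val : ℝ) / 9)

lemma e_add_int (x : ℝ) (n : ℤ) : e (x + n * (2 * π)) = e x := by
  apply Complex.ext
  · rw [e_re, e_re, Real.cos_add_int_mul_two_pi]
  · rw [e_im, e_im, Real.sin_add_int_mul_two_pi]

lemma nv_int (ρ : ℝ) (j : ℤ) : nv ρ (j : ZMod 9) = e (ρ + 2 * π * (j : ℝ) / 9) := by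
  unfold nv
  have h : (((j : ZMod 9).val : ℤ)) = j % 9 := ZMod.val_intCast j
  have h2 : j = 9 * (j / 9) + j % 9 := (Int.mul_ediv_add_emod j 9).symm
  have h3 : (((j : ZMod 9).val : ℕ) : ℝ) = ((j % 9 : ℤ) : ℝ) := by
    rw [← h]; simp
  have h4 : (j : ℝ) = 9 * ((j / 9 : ℤ) : ℝ) + ((j % 9 : ℤ) : ℝ) := by exact_mod_cast h2
  rw [h3, ← e_add_int _ (j / 9)]
  congr 1
  rw [h4]
  ring

/-- lower bound for the sum over the normals in an arc -/
theorem arc_sum (ρ θ ν : ℝ) (h0 : 0 < ν) (h1 : ν < π) [DecidablePred (fun k : ZMod 9 => nv ρ k ∈ Sec θ ν)] :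
    Fnum ν ≤ ∑ k ∈ Finset.univ.filter (fun k : ZMod 9 => nv ρ k ∈ Sec θ ν),
      crs (e θ) (nv ρ k) * crs (nv ρ k) (e (θ + ν)) := by
  have hπ := Real.pi_pos
  -- value at an angle
  have hval : ∀ x, crs (e θ) (e (θ + x)) * crs (e (θ + x)) (e (θ + ν)) =
      (cos (2 * x - ν) - cos ν) / 2 := by
    intro x
    rw [crs_e_e, crs_e_e]
    have e1 : θ + x - θ = x := by ring
    have e2 : θ + ν - (θ + x) = ν - x := by ring
    rw [e1, e2]
    have h2 : cos (2 * x - ν) = cos x * cos (ν - x) + sin x * sin (ν - x) := by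
      rw [← Real.cos_sub]; congr 1; ring
    have h3 : cos ν = cos x * cos (ν - x) - sin x * sin (ν - x) := by
      rw [← Real.cos_add]; congr 1; ring
    rw [h2, h3]; ring
  have hmem : ∀ x, 0 < x → x < ν → e (θ + x) ∈ Sec θ ν := by
    intro x hx1 hx2
    have := (mem_Sec_iff (a := θ) (s := θ) (α := ν) (θ := θ + x) (r := 1) le_rfl h0 (by linarith)
      (by linarith) (by linarith) one_pos).mpr ⟨by linarith, by linarith⟩
    rwa [one_smul] at this
  have hnn : ∀ k ∈ Finset.univ.filter (fun k : ZMod 9 => nv ρ k ∈ Sec θ ν),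
      0 ≤ crs (e θ) (nv ρ k) * crs (nv ρ k) (e (θ + ν)) := by
    intro k hk
    obtain ⟨a, b⟩ := (Finset.mem_filter.mp hk).2
    exact (mul_pos a b).le
  -- one or two members
  have hone : ∀ (j : ℤ) (x : ℝ), ρ + 2 * π * (j : ℝ) / 9 = θ + x → 0 < x → x < ν →
      (cos (2 * x - ν) - cos ν) / 2 ≤ ∑ k ∈ Finset.univ.filter (fun k : ZMod 9 => nv ρ k ∈ Sec θ ν),
      crs (e θ) (nv ρ k) * crs (nv ρ k) (e (θ + ν)) := by
    intro j x hj hx1 hx2
    have hk : (j : ZMod 9) ∈ Finset.univ.filter (fun k : ZMod 9 => nv ρ k ∈ Sec θ ν) := by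
      rw [Finset.mem_filter, nv_int, hj]
      exact ⟨Finset.mem_univ _, hmem x hx1 hx2⟩
    have := Finset.single_le_sum hnn hk
    rw [nv_int, hj, hval] at this
    exact this
  have htwo : ∀ (j : ℤ) (x : ℝ), ρ + 2 * π * (j : ℝ) / 9 = θ + x → 0 < x → x + 2 * π / 9 < ν →
      cos (2 * x + 2 * π / 9 - ν) * cos (2 * π / 9) - cos ν ≤
        ∑ k ∈ Finset.univ.filter (fun k : ZMod 9 => nv ρ k ∈ Sec θ ν),
      crs (e θ) (nv ρ k) * crs (nv ρ k) (e (θ + ν)) := by
    intro j x hj hx1 hx2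
    have hj' : ρ + 2 * π * ((j + 1 : ℤ) : ℝ) / 9 = θ + (x + 2 * π / 9) := by
      push_cast; linarith
    have hk : (j : ZMod 9) ∈ Finset.univ.filter (fun k : ZMod 9 => nv ρ k ∈ Sec θ ν) := by
      rw [Finset.mem_filter, nv_int, hj]
      exact ⟨Finset.mem_univ _, hmem x hx1 (by linarith)⟩
    have hk' : ((j + 1 : ℤ) : ZMod 9) ∈ Finset.univ.filter (fun k : ZMod 9 => nv ρ k ∈ Sec θ ν) := by
      rw [Finset.mem_filter, nv_int, hj']
      exact ⟨Finset.mem_univ _, hmem _ (by linarith) hx2⟩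
    have hne : (j : ZMod 9) ≠ ((j + 1 : ℤ) : ZMod 9) := by
      push_cast
      intro h
      have : (1 : ZMod 9) = 0 := by
        have := congrArg (fun y => y - (j : ZMod 9)) h
        simpa using this.symm
      exact absurd this (by decide)
    have hsub : ({(j : ZMod 9), ((j + 1 : ℤ) : ZMod 9)} : Finset (ZMod 9)) ⊆
        Finset.univ.filter (fun k : ZMod 9 => nv ρ k ∈ Sec θ ν) := by
      intro k hk2
      rw [Finset.mem_insert, Finset.mem_singleton] at hk2
      rcases hk2 with rfl | rfl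
      · exact hk
      · exact hk'
    have := Finset.sum_le_sum_of_subset_of_nonneg hsub (fun k hk _ => hnn k hk)
    rw [Finset.sum_pair hne, nv_int, nv_int, hj, hj', hval, hval] at this
    refine le_trans (le_of_eq ?_) this
    have e1 : cos (2 * x - ν) = cos (2 * x + 2 * π / 9 - ν) * cos (2 * π / 9) +
        sin (2 * x + 2 * π / 9 - ν) * sin (2 * π / 9) := by
      rw [← Real.cos_sub]; congr 1; ring
    have e2 : cos (2 * (x + 2 * π / 9) - ν) = cos (2 * x + 2 * π / 9 - ν) * cos (2 * π / 9) -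
        sin (2 * x + 2 * π / 9 - ν) * sin (2 * π / 9) := by
      rw [← Real.cos_add]; congr 1; ring
    rw [e1, e2]
    ring
  unfold Fnum
  split_ifs with hA hB
  · exact Finset.sum_nonneg hnn
  · push Not at hA
    -- the first normal after θ
    set j : ℤ := ⌊(θ - ρ) / (2 * π / 9)⌋ + 1 with hj
    set x : ℝ := ρ + 2 * π * (j : ℝ) / 9 - θ with hx
    have hj1 : (θ - ρ) / (2 * π / 9) < (j : ℝ) := by
      rw [hj]; push_cast; exact Int.lt_floor_add_one _
    have hj2 : (j : ℝ) ≤ (θ - ρ) / (2 * π / 9) + 1 := by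
      rw [hj]; push_cast
      have := Int.floor_le ((θ - ρ) / (2 * π / 9))
      linarith
    have hx0 : 0 < x := by
      rw [div_lt_iff₀ (by positivity)] at hj1
      rw [hx]; linarith
    have hx1 : x ≤ 2 * π / 9 := by
      have : (j : ℝ) - 1 ≤ (θ - ρ) / (2 * π / 9) := by linarith
      rw [le_div_iff₀ (by positivity)] at this
      rw [hx]; linarith
    have hjx : ρ + 2 * π * (j : ℝ) / 9 = θ + x := by rw [hx]; ring
    rcases lt_or_ge (x + 2 * π / 9) ν with h2 | h2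
    · refine le_trans ?_ (htwo j x hjx hx0 h2)
      have h3 : cos (ν - 2 * π / 9) ≤ cos (2 * x + 2 * π / 9 - ν) := by
        rw [← Real.cos_abs (2 * x + 2 * π / 9 - ν)]
        apply Real.cos_le_cos_of_nonneg_of_le_pi (abs_nonneg _) (by linarith)
        rw [abs_le]; constructor <;> linarith
      have h4 : cos ν = cos (ν - 2 * π / 9) * cos (2 * π / 9) - sin (ν - 2 * π / 9) * sin (2 * π / 9) := by
        rw [← Real.cos_add]; congr 1; ring
      rw [h4]
      have h5 := cos40_bd.1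
      nlinarith
    · refine le_trans ?_ (hone j x hjx hx0 (by linarith))
      have h3 : cos (4 * π / 9 - ν) ≤ cos (2 * x - ν) := by
        rw [← Real.cos_abs (2 * x - ν)]
        apply Real.cos_le_cos_of_nonneg_of_le_pi (abs_nonneg _) (by linarith)
        rw [abs_le]; constructor <;> linarith
      have h4 : cos ν = cos (ν - 2 * π / 9) * cos (2 * π / 9) - sin (ν - 2 * π / 9) * sin (2 * π / 9) := by
        rw [← Real.cos_add]; congr 1; ring
      have h5 : cos (4 * π / 9 - ν) =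
          cos (ν - 2 * π / 9) * cos (2 * π / 9) + sin (ν - 2 * π / 9) * sin (2 * π / 9) := by
        rw [← Real.cos_sub, ← Real.cos_neg]; congr 1; ring
      rw [h4]
      rw [h5] at h3
      linarith
  · push Not at hA hB
    set j : ℤ := ⌈(θ + ν / 2 - 2 * π / 9 - ρ) / (2 * π / 9)⌉ with hj
    set x : ℝ := ρ + 2 * π * (j : ℝ) / 9 - θ with hx
    have hj1 : (θ + ν / 2 - 2 * π / 9 - ρ) / (2 * π / 9) ≤ (j : ℝ) := Int.le_ceil _
    have hj2 : (j : ℝ) < (θ + ν / 2 - 2 * π / 9 - ρ) / (2 * π / 9) + 1 := Int.ceil_lt_add_one _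
    have hx0 : ν / 2 - 2 * π / 9 ≤ x := by
      rw [div_le_iff₀ (by positivity)] at hj1
      rw [hx]; linarith
    have hx1 : x < ν / 2 := by
      have : (j : ℝ) - 1 < (θ + ν / 2 - 2 * π / 9 - ρ) / (2 * π / 9) := by linarith
      rw [lt_div_iff₀ (by positivity)] at this
      rw [hx]; linarith
    have hjx : ρ + 2 * π * (j : ℝ) / 9 = θ + x := by rw [hx]; ring
    refine le_trans ?_ (htwo j x hjx (by linarith) (by linarith))
    have h3 : cos (2 * π / 9) ≤ cos (2 * x + 2 * π / 9 - ν) := by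
      rw [← Real.cos_abs (2 * x + 2 * π / 9 - ν)]
      apply Real.cos_le_cos_of_nonneg_of_le_pi (abs_nonneg _) (by linarith)
      rw [abs_le]; constructor <;> linarith
    have h5 := cos40_bd.1
    nlinarith

/-- the open nonagon -/
def body (c : ℂ) (ρ : ℝ) : Set ℂ := {x | ∀ k : ZMod 9, dot (nv ρ k) (x - c) < 1}

/-- the closed nonagon -/
def bodyc (c : ℂ) (ρ : ℝ) : Set ℂ := {x | ∀ k : ZMod 9, dot (nv ρ k) (x - c) ≤ 1}

/-- vertices adjacent to side k -/
noncomputable def vA (c : ℂ) (ρ : ℝ) (k : ZMod 9) : ℂ :=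
  c + (1 / cos (π / 9)) • e (ρ + 2 * π * (k.val : ℝ) / 9 - π / 9)
noncomputable def vB (c : ℂ) (ρ : ℝ) (k : ZMod 9) : ℂ :=
  c + (1 / cos (π / 9)) • e (ρ + 2 * π * (k.val : ℝ) / 9 + π / 9)

lemma cos_bound {r : ℝ} (h1 : 1 ≤ r) (h2 : r ≤ 17) : cos (r * π / 9) ≤ cos (π / 9) := by
  have hπ := Real.pi_pos
  rcases le_or_gt r 9 with h | h
  · apply Real.cos_le_cos_of_nonneg_of_le_pi (by positivity)
    · nlinarith
    · nlinarith
  · have : cos (r * π / 9) = cos (2 * π - r * π / 9) := (Real.cos_two_pi_sub _).symm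
    rw [this]
    apply Real.cos_le_cos_of_nonneg_of_le_pi (by positivity)
    · nlinarith
    · nlinarith

lemma cos_bound_lt {r : ℝ} (h1 : 1 < r) (h2 : r < 17) : cos (r * π / 9) < cos (π / 9) := by
  have hπ := Real.pi_pos
  rcases le_or_gt r 9 with h | h
  · apply Real.cos_lt_cos_of_nonneg_of_le_pi (by positivity)
    · nlinarith
    · nlinarith
  · have : cos (r * π / 9) = cos (2 * π - r * π / 9) := (Real.cos_two_pi_sub _).symm
    rw [this]
    apply Real.cos_lt_cos_of_nonneg_of_le_pi (by positivity)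
    · nlinarith
    · nlinarith

lemma cos_mod (n : ℤ) : cos ((n : ℝ) * π / 9) = cos (((n % 18 : ℤ) : ℝ) * π / 9) := by
  have h2 : n = 18 * (n / 18) + n % 18 := (Int.mul_ediv_add_emod n 18).symm
  have h4 : (n : ℝ) = 18 * ((n / 18 : ℤ) : ℝ) + ((n % 18 : ℤ) : ℝ) := by exact_mod_cast h2
  rw [← Real.cos_add_int_mul_two_pi (((n % 18 : ℤ) : ℝ) * π / 9) (n / 18)]
  congr 1
  rw [h4]
  ring

lemma cos_odd_le (m : ℤ) : cos (((2 * m + 1 : ℤ) : ℝ) * π / 9) ≤ cos (π / 9) := by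
  rw [cos_mod]
  have h1 : 1 ≤ (2 * m + 1) % 18 := by omega
  have h2 : (2 * m + 1) % 18 ≤ 17 := by omega
  exact cos_bound (by exact_mod_cast h1) (by exact_mod_cast h2)

lemma cos_odd_lt (m : ℤ) (h : (2 * m + 1) % 18 ≠ 1) (h' : (2 * m + 1) % 18 ≠ 17) :
    cos (((2 * m + 1 : ℤ) : ℝ) * π / 9) < cos (π / 9) := by
  rw [cos_mod]
  have h1 : 1 < (2 * m + 1) % 18 := by omega
  have h2 : (2 * m + 1) % 18 < 17 := by omega
  exact cos_bound_lt (by exact_mod_cast h1) (by exact_mod_cast h2)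

lemma dot_vA (c : ℂ) (ρ : ℝ) (k l : ZMod 9) : dot (nv ρ l) (vA c ρ k - c) =
    cos (((2 * ((k.val : ℤ) - (l.val : ℤ) - 1) + 1 : ℤ) : ℝ) * π / 9) / cos (π / 9) := by
  unfold vA nv
  rw [add_sub_cancel_left, dot_smul, dot_e_e, one_div_mul_eq_div]
  congr 2
  push_cast
  ring

lemma dot_vB (c : ℂ) (ρ : ℝ) (k l : ZMod 9) : dot (nv ρ l) (vB c ρ k - c) =
    cos (((2 * ((k.val : ℤ) - (l.val : ℤ)) + 1 : ℤ) : ℝ) * π / 9) / cos (π / 9) := by
  unfold vB nv
  rw [add_sub_cancel_left, dot_smul, dot_e_e, one_div_mul_eq_div]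
  congr 2
  push_cast
  ring

lemma cos20_pos : 0 < cos (π / 9) := by linarith [cos20_ge]

lemma vA_mem (c : ℂ) (ρ : ℝ) (k : ZMod 9) : vA c ρ k ∈ bodyc c ρ := by
  intro l
  rw [dot_vA, div_le_one cos20_pos]
  exact cos_odd_le _

lemma vB_mem (c : ℂ) (ρ : ℝ) (k : ZMod 9) : vB c ρ k ∈ bodyc c ρ := by
  intro l
  rw [dot_vB, div_le_one cos20_pos]
  exact cos_odd_le _

lemma dot_vA_self (c : ℂ) (ρ : ℝ) (k : ZMod 9) : dot (nv ρ k) (vA c ρ k - c) = 1 := by
  rw [dot_vA, div_eq_one_iff_eq cos20_pos.ne', ← Real.cos_neg]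
  congr 1
  push_cast
  ring

lemma dot_vB_self (c : ℂ) (ρ : ℝ) (k : ZMod 9) : dot (nv ρ k) (vB c ρ k - c) = 1 := by
  rw [dot_vB, div_eq_one_iff_eq cos20_pos.ne']
  congr 1
  push_cast
  ring

lemma dot_vAB_lt (c : ℂ) (ρ : ℝ) {k l : ZMod 9} (h : k ≠ l) :
    dot (nv ρ l) (vA c ρ k - c) < 1 ∨ dot (nv ρ l) (vB c ρ k - c) < 1 := by
  rw [dot_vA, dot_vB, div_lt_one cos20_pos, div_lt_one cos20_pos]
  have hk := ZMod.val_lt k
  have hl := ZMod.val_lt l
  have hne : k.val ≠ l.val := fun h' => h (ZMod.val_injective 9 h')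
  by_cases h1 : (2 * ((k.val : ℤ) - (l.val : ℤ)) + 1) % 18 ≠ 1 ∧
      (2 * ((k.val : ℤ) - (l.val : ℤ)) + 1) % 18 ≠ 17
  · right
    exact cos_odd_lt _ h1.1 h1.2
  · left
    apply cos_odd_lt
    · omega
    · omega

lemma vB_sub_vA (c : ℂ) (ρ : ℝ) (k : ZMod 9) : vB c ρ k - vA c ρ k =
    (2 * tau) • e (ρ + 2 * π * (k.val : ℝ) / 9 + π / 2) := by
  unfold vA vB
  rw [tau_eq]
  have hc := cos20_pos.ne'
  apply Complex.ext
  · simp only [Complex.sub_re, Complex.add_re, Complex.smul_re, e_re, smul_eq_mul,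
      Real.cos_add_pi_div_two]
    rw [Real.cos_add (ρ + 2 * π * (k.val : ℝ) / 9) (π / 9), Real.cos_sub]
    field_simp
    ring
  · simp only [Complex.sub_im, Complex.add_im, Complex.smul_im, e_im, smul_eq_mul,
      Real.sin_add_pi_div_two]
    rw [Real.sin_add (ρ + 2 * π * (k.val : ℝ) / 9) (π / 9), Real.sin_sub]
    field_simp
    ring

lemma isOpen_body (c : ℂ) (ρ : ℝ) : IsOpen (body c ρ) := by
  have : body c ρ = ⋂ k : ZMod 9, {x | dot (nv ρ k) (x - c) < 1} := by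
    ext x; simp [body]
  rw [this]
  apply isOpen_iInter_of_finite
  intro k
  exact isOpen_lt ((continuous_dot _).comp (by fun_prop)) continuous_const

lemma convex_body (c : ℂ) (ρ : ℝ) : Convex ℝ (body c ρ) := by
  have : body c ρ = ⋂ k : ZMod 9, {x | dot (nv ρ k) x < 1 + dot (nv ρ k) c} := by
    ext x
    simp only [body, mem_ofPred_eq, mem_iInter, dot_sub]
    constructor
    · intro h k; linarith [h k]
    · intro h k; linarith [h k]
  rw [this]
  exact convex_iInter (fun k => convex_half _ _)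

lemma center_mem_body (c : ℂ) (ρ : ℝ) : c ∈ body c ρ := by
  intro k; rw [sub_self, dot_zero]; exact one_pos

lemma bodyc_subset_closure (c : ℂ) (ρ : ℝ) : bodyc c ρ ⊆ closure (body c ρ) := by
  intro z hz
  have hcont : Tendsto (fun s : ℝ => z + s • (c - z)) (𝓝[>] 0) (𝓝 z) := by
    have : Continuous (fun s : ℝ => z + s • (c - z)) := by fun_prop
    have h := (this.tendsto 0).mono_left (nhdsWithin_le_nhds (s := Ioi 0))
    simpa using h
  refine mem_closure_of_tendsto hcont ?_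
  filter_upwards [Ioo_mem_nhdsGT one_pos] with s hs
  intro k
  have h1 := hz k
  have h2 : z + s • (c - z) - c = (1 - s) • (z - c) := by
    rw [sub_smul, one_smul, smul_sub, smul_sub]; abel
  rw [h2, dot_smul]
  nlinarith [hs.1, hs.2]

end Nonagon
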