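import Pool.Agent.Lib.MP_b090c9_co.Maxi

set_option autoImplicit false

namespace Nonagon

open MeasureTheory Set Filter Topology

lemma Sec_inj {s α s' α' : ℝ} (h0 : 0 < α) (h1 : α ≤ Real.pi) (h0' : 0 < α')
    (h1' : α' ≤ Real.pi) (h : Sec s α = Sec s' α') : α = α' ∧ e s = e s' := by
  have hα := Sec_angle_inj h0 h1 h0' h1' h
  refine ⟨hα, ?_⟩
  subst hα
  rcases h1.lt_or_eq with hlt | heq
  · have m1 : e s ∈ closure (Sec s' α) := by rw [← h]; exact e_t_mem_closure_Sec h0 h1
    have m2 : e s' ∈ closure (Sec s α) := by rw [h]; exact e_t_mem_closure_Sec h0 h1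
    have c1 := closure_Sec_subset _ _ m1
    have c2 := closure_Sec_subset _ _ m2
    obtain ⟨a1, a2⟩ := c1
    obtain ⟨b1, b2⟩ := c2
    rw [crs_e_e] at a1 a2 b1 b2
    have hs : Real.sin (s - s') = 0 := by
      have : Real.sin (s' - s) = - Real.sin (s - s') := by rw [← Real.sin_neg]; congr 1; ring
      linarith
    have hα : 0 < Real.sin α := Real.sin_pos_of_pos_of_lt_pi h0 hlt
    have hc : 0 ≤ Real.cos (s - s') := by
      have : Real.sin (s + α - s') = Real.sin (s - s') * Real.cos α + Real.cos (s - s') * Real.sin α := by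
        rw [← Real.sin_add]; congr 1; ring
      rw [this, hs] at b2
      by_contra hc
      push Not at hc
      nlinarith
    have hc1 : Real.cos (s - s') = 1 := by
      have := Real.sin_sq_add_cos_sq (s - s')
      rw [hs] at this
      nlinarith
    rw [Real.cos_eq_one_iff] at hc1
    obtain ⟨n, hn⟩ := hc1
    have : s = s' + n * (2 * Real.pi) := by linarith
    rw [this]
    apply Complex.ext
    · rw [e_re, e_re, Real.cos_add_int_mul_two_pi]
    · rw [e_im, e_im, Real.sin_add_int_mul_two_pi]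
  · subst heq; exact half_eq h

/-- a quarter plane -/
def quad (Q : ℂ) (θ : ℝ) : Set ℂ := {x | 0 < crs (e θ) (x - Q) ∧ 0 < dot (e θ) (x - Q)}

lemma crs_e_half (θ : ℝ) (v : ℂ) : crs v (e (θ + Real.pi / 2)) = dot (e θ) v := by
  unfold crs dot
  rw [e_re, e_im, e_re, e_im, Real.cos_add_pi_div_two, Real.sin_add_pi_div_two]; ring

lemma quad_eq (Q : ℂ) (θ : ℝ) : quad Q θ = {x | ∀ p ∈ ({(-e (θ + Real.pi / 2),
    -dot (e (θ + Real.pi / 2)) Q), (-e θ, -dot (e θ) Q)} : Finset (ℂ × ℝ)), dot p.1 x < p.2} := by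
  ext x
  have hn : ∀ u v : ℂ, dot (-u) v = - dot u v := by intro u v; unfold dot; simp; ring
  simp only [quad, mem_ofPred_eq, Finset.mem_insert, Finset.mem_singleton, forall_eq_or_imp,
    forall_eq, hn, crs_e_eq_dot, dot_sub]
  constructor <;> rintro ⟨h1, h2⟩ <;> constructor <;> linarith

lemma quad_nonempty (Q : ℂ) (θ : ℝ) : (quad Q θ).Nonempty := by
  refine ⟨Q + e (θ + Real.pi / 4), ?_, ?_⟩
  · rw [add_sub_cancel_left, crs_e_e, add_sub_cancel_left]
    exact Real.sin_pos_of_pos_of_lt_pi (by positivity) (by linarith [Real.pi_pos])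
  · rw [add_sub_cancel_left, dot_e_e, add_sub_cancel_left]
    exact Real.cos_pos_of_mem_Ioo ⟨by linarith [Real.pi_pos], by linarith [Real.pi_pos]⟩

lemma quad_cell (Q : ℂ) (θ : ℝ) : IsCell (quad Q θ) := by
  have hpoly := quad_eq Q θ
  have hE : quad Q θ = {x | dot (-e (θ + Real.pi / 2)) x < -dot (e (θ + Real.pi / 2)) Q} ∩
      {x | dot (-e θ) x < -dot (e θ) Q} := by
    rw [hpoly]; ext x; simp
  refine ⟨?_, ?_, quad_nonempty Q θ, _, hpoly⟩
  · rw [hE]; exact (isOpen_half _ _).inter (isOpen_half _ _)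
  · rw [hE]; exact (convex_half _ _).inter (convex_half _ _)

lemma mem_closure_quad {Q x : ℂ} {θ : ℝ} :
    x ∈ closure (quad Q θ) ↔ 0 ≤ crs (e θ) (x - Q) ∧ 0 ≤ dot (e θ) (x - Q) := by
  rw [closure_poly (quad_eq Q θ) (quad_nonempty Q θ)]
  have hn : ∀ u v : ℂ, dot (-u) v = - dot u v := by intro u v; unfold dot; simp; ring
  simp only [mem_ofPred_eq, Finset.mem_insert, Finset.mem_singleton, forall_eq_or_imp,
    forall_eq, hn, crs_e_eq_dot, dot_sub]
  constructor <;> rintro ⟨h1, h2⟩ <;> constructor <;> linarith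

lemma tc_quad {Q P : ℂ} {θ : ℝ} (hP : P ∈ closure (quad Q θ)) :
    tc (quad Q θ) P = {v | (crs (e θ) (P - Q) = 0 → 0 < crs (e θ) v) ∧
      (dot (e θ) (P - Q) = 0 → 0 < dot (e θ) v)} := by
  rw [tc_poly (quad_eq Q θ) (quad_nonempty Q θ) hP]
  have hn : ∀ u v : ℂ, dot (-u) v = - dot u v := by intro u v; unfold dot; simp; ring
  ext v
  simp only [mem_ofPred_eq, Finset.mem_insert, Finset.mem_singleton, forall_eq_or_imp,
    forall_eq, hn, crs_e_eq_dot, dot_sub]
  constructor
  · rintro ⟨h1, h2⟩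
    exact ⟨fun h => by linarith [h1 (by linarith)], fun h => by linarith [h2 (by linarith)]⟩
  · rintro ⟨h1, h2⟩
    exact ⟨fun h => by linarith [h1 (by linarith)], fun h => by linarith [h2 (by linarith)]⟩

lemma quad_corner {Q P : ℂ} {θ t α : ℝ} (h : IsCorner (quad Q θ) P t α) :
    P = Q ∧ e t = e θ := by
  obtain ⟨hP, h0, h1, h2⟩ := h
  have hPU := not_mem_of_tc_Sec h2
  rw [tc_quad hP] at h2
  have hP' := mem_closure_quad.mp hP
  by_cases hY : crs (e θ) (P - Q) = 0
  · by_cases hX : dot (e θ) (P - Q) = 0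
    · refine ⟨?_, ?_⟩
      · have := frame θ (P - Q)
        rw [hX, hY] at this
        simp only [zero_smul, add_zero] at this
        exact sub_eq_zero.mp this
      · have h3 : Sec θ (Real.pi / 2) = Sec t α := by
          rw [← h2]
          ext v
          simp only [Sec, mem_ofPred_eq, hX, hY, forall_const, crs_e_half]
        have := Sec_inj (by positivity) (by linarith [Real.pi_pos]) h0 h1.le h3
        exact this.2.symm
    · exfalso
      have h3 : Sec θ Real.pi = Sec t α := by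
        rw [← h2, Sec_pi]
        ext v
        simp only [mem_ofPred_eq, hX, hY, forall_const, false_imp_iff, and_true]
      have := Sec_angle_inj Real.pi_pos le_rfl h0 h1.le h3
      linarith
  · by_cases hX : dot (e θ) (P - Q) = 0
    · exfalso
      have h3 : Sec (θ - Real.pi / 2) Real.pi = Sec t α := by
        rw [← h2, Sec_pi]
        ext v
        simp only [mem_ofPred_eq, hX, hY, forall_const, false_imp_iff, true_and]
        rw [crs_e_eq_dot, sub_add_cancel]
      have := Sec_angle_inj Real.pi_pos le_rfl h0 h1.le h3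
      linarith
    · exfalso
      apply hPU
      exact ⟨lt_of_le_of_ne hP'.1 (Ne.symm hY), lt_of_le_of_ne hP'.2 (Ne.symm hX)⟩

/-- the corner points of the square -/
noncomputable def Qc (L : ℝ) : Fin 4 → ℂ := ![⟨L, 0⟩, ⟨L, L⟩, ⟨0, L⟩, ⟨0, 0⟩]

/-- the four outer quarter planes -/
noncomputable def outer (L : ℝ) (k : Fin 4) : Set ℂ :=
  quad (Qc L k) (![Real.pi, -(Real.pi / 2), 0, Real.pi / 2] k)

lemma outer_zero (L : ℝ) : outer L 0 = {x | x.im < 0 ∧ x.re < L} := by
  ext x
  simp [outer, quad, Qc, crs, dot]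

lemma outer_one (L : ℝ) : outer L 1 = {x | L < x.re ∧ x.im < L} := by
  ext x
  simp [outer, quad, Qc, crs, dot]

lemma outer_two (L : ℝ) : outer L 2 = {x | L < x.im ∧ 0 < x.re} := by
  ext x
  simp [outer, quad, Qc, crs, dot]

lemma outer_three (L : ℝ) : outer L 3 = {x | x.re < 0 ∧ 0 < x.im} := by
  ext x
  simp [outer, quad, Qc, crs, dot]

lemma cl_zero (L : ℝ) : closure (outer L 0) = {x | x.im ≤ 0 ∧ x.re ≤ L} := by
  ext x
  rw [outer, mem_closure_quad]
  simp [Qc, crs, dot]

lemma cl_one (L : ℝ) : closure (outer L 1) = {x | L ≤ x.re ∧ x.im ≤ L} := by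
  ext x
  rw [outer, mem_closure_quad]
  simp [Qc, crs, dot]

lemma cl_two (L : ℝ) : closure (outer L 2) = {x | L ≤ x.im ∧ 0 ≤ x.re} := by
  ext x
  rw [outer, mem_closure_quad]
  simp [Qc, crs, dot]

lemma cl_three (L : ℝ) : closure (outer L 3) = {x | x.re ≤ 0 ∧ 0 ≤ x.im} := by
  ext x
  rw [outer, mem_closure_quad]
  simp [Qc, crs, dot]

/-- the open square -/
def sq (L : ℝ) : Set ℂ := {x | 0 < x.re ∧ x.re < L ∧ 0 < x.im ∧ x.im < L}

lemma outer_cover {L : ℝ} (hL : 0 < L) {x : ℂ} (hx : x ∉ sq L) : ∃ k, x ∈ closure (outer L k) := by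
  by_contra hcon
  push Not at hcon
  have h0 := hcon 0
  have h1 := hcon 1
  have h2 := hcon 2
  have h3 := hcon 3
  rw [cl_zero] at h0
  rw [cl_one] at h1
  rw [cl_two] at h2
  rw [cl_three] at h3
  simp only [mem_ofPred_eq, not_and, not_le] at h0 h1 h2 h3
  apply hx
  unfold sq
  simp only [mem_ofPred_eq]
  by_cases a : x.im ≤ 0
  · have := h0 a
    have := h1 this.le
    linarith
  by_cases b : x.re ≤ 0
  · have := h3 b
    linarith
  by_cases c : L ≤ x.im
  · have := h2 c
    linarith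
  by_cases d : L ≤ x.re
  · have := h1 d
    linarith
  push Not at a b c d
  exact ⟨b, d, a, c⟩

lemma outer_disj {L : ℝ} (hL : 0 < L) : Pairwise (fun i j => Disjoint (outer L i) (outer L j)) := by
  have key : ∀ i j : Fin 4, i < j → Disjoint (outer L i) (outer L j) := by
    intro i j hij
    rw [Set.disjoint_left]
    intro x hx hx'
    fin_cases i <;> fin_cases j <;>
      simp only [Fin.zero_eta, Fin.mk_one, Fin.reduceFinMk, Fin.isValue, outer_zero, outer_one,
        outer_two, outer_three, mem_ofPred_eq] at hx hx' <;>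
      first
        | (exfalso; linarith [hx.1, hx.2, hx'.1, hx'.2])
        | (exfalso; revert hij; decide)
  intro i j hij
  rcases lt_or_gt_of_ne hij with h | h
  · exact key i j h
  · exact (key j i h).symm

lemma outer_bl {L : ℝ} (hL : 0 < L) {k : Fin 4} {P : ℂ} {t α : ℝ} (h : IsCorner (outer L k) P t α) :
    ∃ k', k' ≠ k ∧ (Osid (outer L k) P (e t) ∩ closure (outer L k')).Nonempty := by
  obtain ⟨rfl, ht⟩ := quad_corner h
  fin_cases k
  · refine ⟨3, by decide, ⟨0, 0⟩, ?_, ?_⟩
    · refine ⟨L, 2 * L, hL, by linarith, ?_, ?_⟩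
      · rw [ht]
        apply Complex.ext <;> simp [Qc, e]
      · rw [ht]
        simp only [Fin.zero_eta, Fin.isValue, cl_zero]
        simp [Qc, e]; linarith
    · rw [cl_three]; simp
  · refine ⟨0, by decide, ⟨L, 0⟩, ?_, ?_⟩
    · refine ⟨L, 2 * L, hL, by linarith, ?_, ?_⟩
      · rw [ht]
        apply Complex.ext <;> simp [Qc, e]
      · rw [ht]
        simp only [Fin.mk_one, Fin.isValue, cl_one]
        simp [Qc, e]; linarith
    · rw [cl_zero]; simp
  · refine ⟨1, by decide, ⟨L, L⟩, ?_, ?_⟩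
    · refine ⟨L, 2 * L, hL, by linarith, ?_, ?_⟩
      · rw [ht]
        apply Complex.ext <;> simp [Qc, e]
      · rw [ht]
        simp only [Fin.reduceFinMk, Fin.isValue, cl_two]
        simp [Qc, e]; linarith
    · rw [cl_one]; simp
  · refine ⟨2, by decide, ⟨0, L⟩, ?_, ?_⟩
    · refine ⟨L, 2 * L, hL, by linarith, ?_, ?_⟩
      · rw [ht]
        apply Complex.ext <;> simp [Qc, e]
      · rw [ht]
        simp only [Fin.reduceFinMk, Fin.isValue, cl_three]
        simp [Qc, e]; linarith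
    · rw [cl_two]; simp

lemma outer_cell (L : ℝ) (k : Fin 4) : IsCell (outer L k) := quad_cell _ _

/-- open sets missing the outer sets lie in the square -/
lemma subset_sq {L : ℝ} (hL : 0 < L) {V : Set ℂ} (hV : IsOpen V)
    (hd : ∀ k, Disjoint V (outer L k)) : V ⊆ sq L := by
  intro x hx
  by_contra hxs
  obtain ⟨k, hk⟩ := outer_cover hL hxs
  exact not_mem_of_disjoint_closure hV (hd k).symm hk hx

lemma bounded_sq (L : ℝ) : Bornology.IsBounded (sq L) := by
  rw [Metric.isBounded_iff_subset_closedBall 0]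
  refine ⟨|L| + |L|, ?_⟩
  rintro x ⟨h1, h2, h3, h4⟩
  rw [Metric.mem_closedBall, dist_zero_right]
  have := Complex.norm_le_abs_re_add_abs_im x
  have h5 : |x.re| ≤ |L| := by rw [abs_of_pos h1, abs_of_pos (by linarith)]; exact h2.le
  have h6 : |x.im| ≤ |L| := by rw [abs_of_pos h3, abs_of_pos (by linarith)]; exact h4.le
  linarith

end Nonagon
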