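import Pool.Agent.Lib.MP_b090c9_co.Cone

set_option autoImplicit false

namespace Nonagon

open MeasureTheory Set Filter Topology

/-- relative interior of the side of U leaving P in direction r -/
def Osid (U : Set ℂ) (P r : ℂ) : Set ℂ :=
  {z | ∃ s s' : ℝ, 0 < s ∧ s < s' ∧ z = P + s • r ∧ P + s' • r ∈ closure U}

lemma e_t_mem_closure_Sec {t α : ℝ} (h0 : 0 < α) (h1 : α ≤ Real.pi) : e t ∈ closure (Sec t α) := by
  have := mem_closure_Sec (a := t) (s := t) (α := α) (θ := t) (r := 1) le_rfl h0 (by linarith)
    one_pos le_rfl (by linarith)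
  rwa [one_smul] at this

lemma e_end_mem_closure_Sec {t α : ℝ} (h0 : 0 < α) (h1 : α ≤ Real.pi) :
    e (t + α) ∈ closure (Sec t α) := by
  have := mem_closure_Sec (a := t) (s := t) (α := α) (θ := t + α) (r := 1) le_rfl h0 (by linarith)
    one_pos (by linarith) le_rfl
  rwa [one_smul] at this

/-- membership in the closure of a sector, in a half-plane frame -/
lemma mem_closure_Sec_frame {a s α θ : ℝ} (h1 : a ≤ s) (h0 : 0 < α) (h2 : s + α ≤ a + Real.pi)
    (hθ1 : a ≤ θ) (hθ2 : θ ≤ a + Real.pi) (h : e θ ∈ closure (Sec s α)) (hα : α < Real.pi) :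
    s ≤ θ ∧ θ ≤ s + α := by
  obtain ⟨h3, h4⟩ := closure_Sec_subset s α h
  rw [crs_e_e] at h3 h4
  have hπ := Real.pi_pos
  by_contra hcon
  rw [not_and_or] at hcon
  rcases hcon with hc | hc
  · push Not at hc
    -- θ < s
    have h5 : ¬ (θ - s > -Real.pi) := by
      intro h6
      have := Real.sin_neg_of_neg_of_neg_pi_lt (x := θ - s) (by linarith) (by linarith)
      linarith
    linarith
  · push Not at hc
    have h5 : ¬ (s + α - θ > -Real.pi) := by
      intro h6
      have := Real.sin_neg_of_neg_of_neg_pi_lt (x := s + α - θ) (by linarith) (by linarith)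
      linarith
    linarith

lemma mem_closure_Sec_frame' {a s α θ : ℝ} (h1 : a ≤ s) (h0 : 0 < α) (h2 : s + α ≤ a + Real.pi)
    (hθ1 : a ≤ θ) (hθ2 : θ ≤ a + Real.pi) (h : e θ ∈ closure (Sec s α)) :
    s ≤ θ ∧ θ ≤ s + α := by
  rcases lt_or_ge α Real.pi with hα | hα
  · exact mem_closure_Sec_frame h1 h0 h2 hθ1 hθ2 h hα
  · constructor <;> linarith

section side
variable {U : Set ℂ} {P z : ℂ} {t : ℝ}

/-- points on the relative interior of a side are flat -/
lemma flat_on_side (hU : IsCell U) (hP : P ∈ closure U) (ht : ∀ v ∈ tc U P, 0 < crs (e t) v)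
    (hz : z ∈ Osid U P (e t)) : z ∈ closure U ∧ tc U z = Sec t Real.pi := by
  obtain ⟨s, s', hs, hss', rfl, hend⟩ := hz
  have hs' : 0 < s' := by linarith
  have hzc : P + s • e t ∈ closure U := by
    have h := (hU.cv.closure) hP hend (a := 1 - s / s') (b := s / s')
      (by rw [sub_nonneg, div_le_one hs']; linarith) (by positivity) (by ring)
    have h2 : (1 - s / s') • P + (s / s') • (P + s' • e t) = P + s • e t := by
      rw [smul_add, smul_smul, div_mul_cancel₀ _ hs'.ne', sub_smul, one_smul]; abel
    rwa [h2] at h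
  refine ⟨hzc, ?_⟩
  have hhalf : ∀ v ∈ tc U (P + s • e t), 0 < crs (e t) v := by
    rintro v ⟨τ, hτ, hv⟩
    have h1 := ht _ (sub_mem_tc (P := P) hv)
    have h2 : P + s • e t + τ • v - P = s • e t + τ • v := by abel
    rw [h2, crs_add, crs_smul, crs_smul, crs_self, mul_zero, zero_add] at h1
    by_contra hneg
    push Not at hneg
    nlinarith
  rw [Sec_pi]
  apply Subset.antisymm
  · intro v hv; exact hhalf v hv
  · intro v hv
    obtain ⟨u0, hu0⟩ := hU.ne
    have hu := sub_mem_tc (P := P + s • e t) hu0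
    have hy0 := hhalf _ hu
    have hv' : 0 < crs (e t) v := hv
    set z := P + s • e t with hz
    -- both directions ± e t are in the closure of the tangent cone
    have hm : (-1 : ℝ) • e t ∈ closure (tc U z) := by
      apply mem_closure_tc hs
      rw [hz, smul_smul]
      have : P + s • e t + (s * -1) • e t = P := by
        rw [add_assoc, ← add_smul]; simp
      rwa [this]
    have hp : e t ∈ closure (tc U z) := by
      apply mem_closure_tc (t := s' - s) (by linarith)
      rw [hz]
      have : P + s • e t + (s' - s) • e t = P + s' • e t := by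
        rw [add_assoc, ← add_smul]; congr 2; ring
      rwa [this]
    -- decompose
    set c := crs (e t) v / crs (e t) (u0 - z) with hc
    have hc0 : 0 < c := div_pos hv' hy0
    set w := v - c • (u0 - z) with hw
    have hw0 : crs (e t) w = 0 := by
      rw [hw, crs_sub, crs_smul, hc, div_mul_cancel₀ _ hy0.ne', sub_self]
    have hwf : w = (dot (e t) w) • e t := by
      have := frame t w
      rw [hw0, zero_smul, add_zero] at this
      exact this
    have hwc : w ∈ closure (tc U z) := by
      rw [hwf]
      rcases lt_trichotomy (dot (e t) w) 0 with h | h | h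
      · have := smul_mem_closure_tc (r := - dot (e t) w) (by linarith) hm
        rwa [smul_smul, show -dot (e t) w * -1 = dot (e t) w by ring] at this
      · rw [h, zero_smul]
        -- 0 is in the closure of the cone
        have hcont : Tendsto (fun r : ℝ => r • (u0 - z)) (𝓝[>] 0) (𝓝 0) := by
          have : Continuous (fun r : ℝ => r • (u0 - z)) := by fun_prop
          have h := (this.tendsto 0).mono_left (nhdsWithin_le_nhds (s := Ioi 0))
          simpa using h
        refine mem_closure_of_tendsto hcont ?_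
        filter_upwards [self_mem_nhdsWithin] with r hr
        exact smul_mem_tc hr hu
      · exact smul_mem_closure_tc h hp
    have := tc_add_closure hU.op hU.cv hzc (smul_mem_tc hc0 hu) hwc
    rwa [hw, add_sub_cancel] at this

/-- along a ray in the closure, with the other direction too, there is a last point -/
lemma ray_end (hb : Bornology.IsBounded U) {d : ℂ} (hd : d ≠ 0) (hz : z ∈ closure U) :
    ∃ L : ℝ, 0 ≤ L ∧ z + L • d ∈ closure U ∧ ∀ s, L < s → z + s • d ∉ closure U := by
  set A : Set ℝ := {s | 0 ≤ s ∧ z + s • d ∈ closure U} with hA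
  have hclosed : IsClosed A := by
    have : A = Ici 0 ∩ (fun s : ℝ => z + s • d) ⁻¹' closure U := by
      ext s; simp [hA]
    rw [this]
    exact isClosed_Ici.inter (isClosed_closure.preimage (by fun_prop))
  have hne : A.Nonempty := ⟨0, le_rfl, by simpa using hz⟩
  have hbdd : BddAbove A := by
    obtain ⟨R, hR⟩ := hb.closure.subset_closedBall 0
    refine ⟨(R + ‖z‖) / ‖d‖, ?_⟩
    rintro s ⟨hs0, hs⟩
    have h1 := hR hs
    rw [Metric.mem_closedBall, dist_zero_right] at h1
    have hdn : 0 < ‖d‖ := norm_pos_iff.mpr hd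
    rw [le_div_iff₀ hdn]
    have h2 : ‖s • d‖ ≤ ‖z + s • d‖ + ‖z‖ := by
      have := norm_sub_le (z + s • d) z
      rwa [add_sub_cancel_left] at this
    rw [norm_smul, Real.norm_eq_abs, abs_of_nonneg hs0] at h2
    linarith
  have hmem := hclosed.csSup_mem hne hbdd
  refine ⟨sSup A, hmem.1, hmem.2, ?_⟩
  intro s hs hs'
  have : s ∈ A := ⟨by linarith [hmem.1], hs'⟩
  have := le_csSup hbdd this
  linarith

/-- going backwards along a supporting line we reach a corner -/
lemma ray_back (hU : IsCell U) (hb : Bornology.IsBounded U) (hz : z ∈ closure U)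
    (ht : ∀ v ∈ tc U z, 0 < crs (e t) v) (hback : e (t + Real.pi) ∈ closure (tc U z)) :
    ∃ L α : ℝ, 0 < L ∧ IsCorner U (z + L • e (t + Real.pi)) t α := by
  obtain ⟨L, hL0, hL, hmax⟩ := ray_end hb (e_ne_zero (t + Real.pi)) hz
  have hLpos : 0 < L := by
    have h := local_exact hU hz hback
    obtain ⟨s, hs, hs0⟩ := (h.and self_mem_nhdsWithin).exists
    have hs0' : (0:ℝ) < s := hs0
    by_contra hcon
    have : L = 0 := le_antisymm (not_lt.mp hcon) hL0
    exact hmax s (by linarith) hs
  set P := z + L • e (t + Real.pi) with hP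
  have hPhalf : ∀ v ∈ tc U P, 0 < crs (e t) v := by
    rintro v ⟨τ, hτ, hv⟩
    have h1 := ht _ (sub_mem_tc (P := z) hv)
    have h2 : P + τ • v - z = L • e (t + Real.pi) + τ • v := by rw [hP]; abel
    rw [h2, crs_add, crs_smul, crs_smul, e_add_pi, crs_neg, crs_self, neg_zero, mul_zero,
      zero_add] at h1
    by_contra hneg
    push Not at hneg
    nlinarith
  obtain ⟨s, α, h1, h2, h3, h4⟩ := tc_frame hU.op hU.cv hU.ne hL hPhalf
  have hfwd : e t ∈ closure (tc U P) := by
    apply mem_closure_tc hLpos
    have : P + L • e t = z := by rw [hP, e_add_pi]; simp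
    rw [this]; exact hz
  rw [h4] at hfwd
  have h5 := mem_closure_Sec_frame' h1 h2 h3 le_rfl (by linarith [Real.pi_pos]) hfwd
  have hst : s = t := le_antisymm h5.1 h1
  subst hst
  refine ⟨L, α, hLpos, hL, h2, ?_, h4⟩
  rcases lt_or_ge α Real.pi with h | h
  · exact h
  · exfalso
    have hα : α = Real.pi := le_antisymm (by linarith) h
    have h6 : e (s + Real.pi) ∈ closure (tc U P) := by
      rw [h4, hα]; exact e_end_mem_closure_Sec Real.pi_pos le_rfl
    obtain ⟨r, hr, hr0⟩ := ((local_exact hU hL h6).and self_mem_nhdsWithin).exists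
    have hr0' : (0:ℝ) < r := hr0
    apply hmax (L + r) (by linarith)
    rw [add_smul, ← add_assoc]; exact hr

/-- going forwards along a supporting line we reach a corner -/
lemma ray_fwd (hU : IsCell U) (hb : Bornology.IsBounded U) (hz : z ∈ closure U)
    (ht : ∀ v ∈ tc U z, 0 < crs (e t) v) (hfwd : e t ∈ closure (tc U z)) :
    ∃ L s : ℝ, 0 < L ∧ t < s ∧ s < t + Real.pi ∧ IsCorner U (z + L • e t) s (t + Real.pi - s)
      ∧ (∀ r, L < r → z + r • e t ∉ closure U) := by
  obtain ⟨L, hL0, hL, hmax⟩ := ray_end hb (e_ne_zero t) hz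
  have hLpos : 0 < L := by
    have h := local_exact hU hz hfwd
    obtain ⟨s, hs, hs0⟩ := (h.and self_mem_nhdsWithin).exists
    have hs0' : (0:ℝ) < s := hs0
    by_contra hcon
    have : L = 0 := le_antisymm (not_lt.mp hcon) hL0
    exact hmax s (by linarith) hs
  set P := z + L • e t with hP
  have hPhalf : ∀ v ∈ tc U P, 0 < crs (e t) v := by
    rintro v ⟨τ, hτ, hv⟩
    have h1 := ht _ (sub_mem_tc (P := z) hv)
    have h2 : P + τ • v - z = L • e t + τ • v := by rw [hP]; abel
    rw [h2, crs_add, crs_smul, crs_smul, crs_self, mul_zero, zero_add] at h1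
    by_contra hneg
    push Not at hneg
    nlinarith
  obtain ⟨s, α, h1, h2, h3, h4⟩ := tc_frame hU.op hU.cv hU.ne hL hPhalf
  have hbk : e (t + Real.pi) ∈ closure (tc U P) := by
    apply mem_closure_tc hLpos
    have : P + L • e (t + Real.pi) = z := by rw [hP, e_add_pi]; simp
    rw [this]; exact hz
  rw [h4] at hbk
  have h5 := mem_closure_Sec_frame' h1 h2 h3 (by linarith [Real.pi_pos]) le_rfl hbk
  have hα : s + α = t + Real.pi := le_antisymm h3 h5.2
  have hts : t < s := by
    rcases h1.lt_or_eq with h | h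
    · exact h
    · exfalso
      have h6 : e t ∈ closure (tc U P) := by
        rw [h4, ← h]; exact e_t_mem_closure_Sec h2 (by linarith)
      obtain ⟨r, hr, hr0⟩ := ((local_exact hU hL h6).and self_mem_nhdsWithin).exists
      have hr0' : (0:ℝ) < r := hr0
      apply hmax (L + r) (by linarith)
      rw [add_smul, ← add_assoc]; exact hr
  refine ⟨L, s, hLpos, hts, by linarith, ⟨hL, by linarith, by linarith, ?_⟩, hmax⟩
  rw [h4]; congr 1; linarith

end side

end Nonagon
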