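import Pool.Agent.Lib.MP_b090c9_co.Area

set_option autoImplicit false

namespace Nonagon

open MeasureTheory Set Filter Topology Real

/-- area of the nonagon of inradius 1 -/
noncomputable def A0 : ℝ := (volume (body 0 0)).toReal

lemma mul_crs_dot (a u v : ℂ) : dot (a * u) (a * v) = (a.re ^ 2 + a.im ^ 2) * dot u v := by
  unfold dot; simp [Complex.mul_re, Complex.mul_im]; ring

lemma dot_e_mul (ρ : ℝ) (u v : ℂ) : dot (e ρ * u) v = dot u (e (-ρ) * v) := by
  unfold dot
  simp only [Complex.mul_re, Complex.mul_im, e_re, e_im, Real.cos_neg, Real.sin_neg]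
  ring

lemma nv_rot (ρ : ℝ) (k : ZMod 9) : nv ρ k = e ρ * nv 0 k := by
  unfold nv
  rw [e_mul]; congr 1; ring

lemma body_eq (c : ℂ) (ρ : ℝ) : body c ρ = (fun x => x - c) ⁻¹' ((fun z => e (-ρ) * z) ⁻¹' body 0 0) := by
  ext x
  simp only [body, mem_preimage, mem_ofPred_eq, sub_zero]
  constructor
  · intro h k
    have := h k
    rwa [nv_rot, dot_e_mul] at this
  · intro h k
    rw [nv_rot, dot_e_mul]
    exact h k

lemma volume_body (c : ℂ) (ρ : ℝ) : volume (body c ρ) = volume (body 0 0) := by
  rw [body_eq]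
  have h1 : volume ((fun x => x - c) ⁻¹' ((fun z => e (-ρ) * z) ⁻¹' body 0 0)) =
      volume ((fun z => e (-ρ) * z) ⁻¹' body 0 0) := by
    have : (fun x : ℂ => x - c) = fun x => x + (-c) := by ext x; ring_nf
    rw [this, measure_preimage_add_right]
  rw [h1]
  exact volume_image_rot (-ρ) _ (isOpen_body 0 0).measurableSet

lemma volume_sq {L : ℝ} (hL : 0 ≤ L) : volume (sq L) = ENNReal.ofReal (L ^ 2) := by
  have h1 : volume (Complex.measurableEquivRealProd ⁻¹' (Ioo 0 L ×ˢ Ioo 0 L)) =
      volume (Ioo (0:ℝ) L ×ˢ Ioo (0:ℝ) L) := by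
    apply Complex.volume_preserving_equiv_real_prod.measure_preimage
    exact (measurableSet_Ioo.prod measurableSet_Ioo).nullMeasurableSet
  have h2 : Complex.measurableEquivRealProd ⁻¹' (Ioo 0 L ×ˢ Ioo 0 L) = sq L := by
    ext z
    simp only [mem_preimage, Complex.measurableEquivRealProd_apply, mem_prod, mem_Ioo, sq,
      mem_ofPred_eq, and_assoc]
  rw [← h2, h1, Measure.volume_eq_prod, Measure.prod_prod, Real.volume_Ioo, sub_zero,
    ← ENNReal.ofReal_mul hL]
  congr 1; ring

theorem square_bound {ι : Type*} [Fintype ι] {L : ℝ} (hL : 0 < L) {cen : ι → ℂ} {rot : ι → ℝ}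
    (hd : Pairwise (fun i j => Disjoint (body (cen i) (rot i)) (body (cen j) (rot j))))
    (hs : ∀ i, body (cen i) (rot i) ⊆ sq L) :
    (Fintype.card ι : ℝ) * (A0 + 2 * W) ≤ L ^ 2 + 4 := by
  classical
  have hπ := Real.pi_pos
  obtain ⟨U, h1, h2, hF⟩ := exists_fam hL (B := fun i => body (cen i) (rot i))
    (fun i => isOpen_body _ _) (fun i => convex_body _ _) (fun i => ⟨_, center_mem_body _ _⟩) hd hs
  have hw := weight_sum hL hF
  have hbd : ∀ i, Bornology.IsBounded (U i) := fun i => (bounded_sq L).subset (h2 i)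
  have hc : ∀ i, IsCell (U i) := fun i => hF.cell (Sum.inl i)
  have hsum18 : ∀ i, ∑ P ∈ (finite_corners (hc i)).toFinset, (9 - sang (U i) P) = 18 := by
    intro i
    have h := angle_sum (hc i) (hbd i)
    have h2 : ∑ P ∈ (finite_corners (hc i)).toFinset, (9 - sang (U i) P) =
        9 / π * ∑ P ∈ (finite_corners (hc i)).toFinset, (π - ang (U i) P) := by
      rw [Finset.mul_sum]
      apply Finset.sum_congr rfl
      intro P _
      unfold sang
      field_simp
    rw [h2, h]
    field_simp
    norm_num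
  have hw2 : ∀ i, ∑ P ∈ (finite_corners (hc i)).toFinset, gw (9 - sang (U i) P) =
      ∑ P ∈ (finite_corners (hc i)).toFinset, lam (9 - sang (U i) P) - 2 * W := by
    intro i
    unfold gw
    rw [Finset.sum_sub_distrib, ← Finset.mul_sum, hsum18]
    ring
  have hw3 : -4 ≤ ∑ i, ∑ P ∈ (finite_corners (hc i)).toFinset, lam (9 - sang (U i) P) -
      (Fintype.card ι : ℝ) * (2 * W) := by
    have : ∑ i, ∑ P ∈ (finite_corners (hF.cell (Sum.inl i))).toFinset, gw (9 - sang (U i) P) =
        ∑ i, (∑ P ∈ (finite_corners (hc i)).toFinset, lam (9 - sang (U i) P) - 2 * W) :=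
      Finset.sum_congr rfl (fun i _ => hw2 i)
    rw [this, Finset.sum_sub_distrib, Finset.sum_const, nsmul_eq_mul, Finset.card_univ] at hw
    exact hw
  have hcell : ∀ i, A0 + ∑ P ∈ (finite_corners (hc i)).toFinset, lam (9 - sang (U i) P) ≤
      (volume (U i)).toReal := by
    intro i
    have := cell_area (hc i) (hbd i) (h1 i)
    rw [volume_body] at this
    exact this
  have hfin : ∀ i, volume (U i) ≠ ⊤ := fun i => (hbd i).measure_lt_top.ne
  have hvol : ∑ i, (volume (U i)).toReal ≤ L ^ 2 := by
    have hdU : Pairwise (fun i j => Disjoint (U i) (U j)) := by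
      intro i j hij
      exact hF.dj (i := Sum.inl i) (j := Sum.inl j) (fun h => hij (Sum.inl_injective h))
    have h3 : volume (⋃ i, U i) ≤ volume (sq L) := measure_mono (iUnion_subset h2)
    rw [measure_iUnion hdU (fun i => (hc i).op.measurableSet), tsum_fintype, volume_sq hL.le] at h3
    have h4 := ENNReal.toReal_mono ENNReal.ofReal_ne_top h3
    rw [ENNReal.toReal_sum (fun i _ => hfin i), ENNReal.toReal_ofReal (by positivity)] at h4
    exact h4
  have hall : (Fintype.card ι : ℝ) * A0 +
      ∑ i, ∑ P ∈ (finite_corners (hc i)).toFinset, lam (9 - sang (U i) P) ≤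
      ∑ i, (volume (U i)).toReal := by
    have := Finset.sum_le_sum (fun i (_ : i ∈ Finset.univ) => hcell i)
    rw [Finset.sum_add_distrib, Finset.sum_const, nsmul_eq_mul, Finset.card_univ] at this
    exact this
  linarith

/-- points of the nonagon are at distance less than 2 from the center -/
lemma norm_lt_two {c x : ℂ} {ρ : ℝ} (hx : x ∈ body c ρ) : ‖x - c‖ < 2 := by
  have h0 := hx (0 : ℤ)
  have h3 := hx (3 : ℤ)
  have h6 := hx (6 : ℤ)
  rw [nv_int] at h0 h3 h6
  set v := x - c with hv
  have e0 : ρ + 2 * π * ((0 : ℤ) : ℝ) / 9 = ρ := by push_cast; ring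
  have e3 : ρ + 2 * π * ((3 : ℤ) : ℝ) / 9 = ρ + 2 * π / 3 := by push_cast; ring
  have e6 : ρ + 2 * π * ((6 : ℤ) : ℝ) / 9 = ρ - 2 * π / 3 + 2 * π := by push_cast; ring
  rw [e0] at h0
  rw [e3] at h3
  rw [e6, e_add_two_pi] at h6
  have c3 : cos (2 * π / 3) = -1 / 2 := by
    have : 2 * π / 3 = π - π / 3 := by ring
    rw [this, Real.cos_pi_sub, Real.cos_pi_div_three]; ring
  have s3 : sin (2 * π / 3) = √3 / 2 := by
    have : 2 * π / 3 = π - π / 3 := by ring
    rw [this, Real.sin_pi_sub, Real.sin_pi_div_three]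
  have hs3 : √3 ^ 2 = 3 := Real.sq_sqrt (by norm_num)
  set X := dot (e ρ) v with hX
  set Y := crs (e ρ) v with hY
  have hd : ∀ θ, dot (e (ρ + θ)) v = X * cos θ + Y * sin θ := by
    intro θ
    rw [hX, hY]
    unfold dot crs
    rw [e_re, e_im, e_re, e_im, Real.cos_add, Real.sin_add]
    ring
  rw [hd, c3, s3] at h3
  have h6' : dot (e (ρ - 2 * π / 3)) v = X * cos (2 * π / 3) - Y * sin (2 * π / 3) := by
    have := hd (-(2 * π / 3))
    rw [Real.cos_neg, Real.sin_neg] at this
    rw [show ρ - 2 * π / 3 = ρ + -(2 * π / 3) by ring, this]; ring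
  rw [h6', c3, s3] at h6
  have hnorm : ‖v‖ ^ 2 = X ^ 2 + Y ^ 2 := by
    rw [← Complex.normSq_eq_norm_sq, Complex.normSq_apply, hX, hY]
    unfold dot crs
    rw [e_re, e_im]
    have := Real.sin_sq_add_cos_sq ρ
    have h : (cos ρ * v.re + sin ρ * v.im) ^ 2 + (cos ρ * v.im - sin ρ * v.re) ^ 2 =
        (sin ρ ^ 2 + cos ρ ^ 2) * (v.re * v.re + v.im * v.im) := by ring
    rw [h, this, one_mul]
  have p1 : 0 < (1 - X) * (1 - (X * (-1 / 2) + Y * (√3 / 2))) := mul_pos (by linarith) (by linarith)
  have p2 : 0 < (1 - X) * (1 - (X * (-1 / 2) - Y * (√3 / 2))) := mul_pos (by linarith) (by linarith)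
  have p3 : 0 < (1 - (X * (-1 / 2) + Y * (√3 / 2))) * (1 - (X * (-1 / 2) - Y * (√3 / 2))) :=
    mul_pos (by linarith) (by linarith)
  have h4 : X ^ 2 + Y ^ 2 < 4 := by nlinarith
  rw [← hnorm] at h4
  nlinarith [norm_nonneg v]

/-- averaging over translates of the square -/
theorem avg_bound {ι : Type*} [Fintype ι] {L r : ℝ} (hL : 4 < L) (hr : 0 ≤ r) {cen : ι → ℂ}
    {rot : ι → ℝ}
    (hd : Pairwise (fun i j => Disjoint (body (cen i) (rot i)) (body (cen j) (rot j))))
    (hs : ∀ i, ‖cen i‖ ≤ r) :
    (Fintype.card ι : ℝ) * (L - 4) ^ 2 * (A0 + 2 * W) ≤ π * (r + 2 * L) ^ 2 * (L ^ 2 + 4) := by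
  classical
  have hπ := Real.pi_pos
  have hW : 0 < W := by unfold W; norm_num
  have hA0 : 0 ≤ A0 := ENNReal.toReal_nonneg
  set G : ι → Set ℂ := fun i => {x | 2 < (cen i - x).re ∧ (cen i - x).re < L - 2 ∧
    2 < (cen i - x).im ∧ (cen i - x).im < L - 2} with hG
  have hGeq : ∀ i, G i = (fun x => (cen i + (-2 - 2 * Complex.I)) - x) ⁻¹' (sq (L - 4)) := by
    intro i
    ext x
    simp only [hG, sq, mem_preimage, mem_ofPred_eq, Complex.sub_re, Complex.add_re, Complex.mul_re,
      Complex.neg_re, Complex.sub_im, Complex.add_im, Complex.mul_im, Complex.neg_im, Complex.I_re,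
      Complex.I_im]
    norm_num
    constructor
    · rintro ⟨a, b, c, d⟩
      exact ⟨by linarith, by linarith, by linarith, by linarith⟩
    · rintro ⟨a, b, c, d⟩
      exact ⟨by linarith, by linarith, by linarith, by linarith⟩
  have hsqo : ∀ l, IsOpen (sq l) := by
    intro l
    have : sq l = {x : ℂ | 0 < x.re} ∩ ({x | x.re < l} ∩ ({x | 0 < x.im} ∩ {x | x.im < l})) := by
      ext x; simp [sq]
    rw [this]
    exact (isOpen_lt continuous_const Complex.continuous_re).inter
      ((isOpen_lt Complex.continuous_re continuous_const).inter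
      ((isOpen_lt continuous_const Complex.continuous_im).inter
      (isOpen_lt Complex.continuous_im continuous_const)))
  have hGm : ∀ i, MeasurableSet (G i) := by
    intro i
    rw [hGeq]
    exact ((hsqo _).preimage (by fun_prop)).measurableSet
  have hGv : ∀ i, volume (G i) = ENNReal.ofReal ((L - 4) ^ 2) := by
    intro i
    rw [hGeq, (Measure.measurePreserving_sub_left volume _).measure_preimage
      (hsqo _).measurableSet.nullMeasurableSet, volume_sq (by linarith)]
  set M : ℝ := (L ^ 2 + 4) / (A0 + 2 * W) with hM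
  have hM0 : 0 ≤ M := by positivity
  -- count at x
  have hcount : ∀ x, ∑ i, (G i).indicator (1 : ℂ → ENNReal) x ≤
      (Metric.closedBall (0:ℂ) (r + 2 * L)).indicator (fun _ => ENNReal.ofReal M) x := by
    intro x
    have h1 : ∑ i, (G i).indicator (1 : ℂ → ENNReal) x =
        ((Finset.univ.filter (fun i => x ∈ G i)).card : ENNReal) := by
      rw [Finset.sum_congr rfl (fun i _ => Set.indicator_apply (G i) 1 x), ← Finset.sum_filter]
      simp
    rw [h1]
    by_cases hne : (Finset.univ.filter (fun i => x ∈ G i)).Nonempty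
    · obtain ⟨i, hi⟩ := hne
      have hxi := (Finset.mem_filter.mp hi).2
      have hxb : x ∈ Metric.closedBall (0:ℂ) (r + 2 * L) := by
        rw [Metric.mem_closedBall, dist_zero_right]
        obtain ⟨a, b, c', d⟩ := hxi
        have h2 : ‖cen i - x‖ ≤ 2 * L := by
          have := Complex.norm_le_abs_re_add_abs_im (cen i - x)
          rw [abs_of_pos (by linarith), abs_of_pos (by linarith)] at this
          linarith
        have h3 : ‖x‖ ≤ ‖cen i‖ + ‖cen i - x‖ := by
          have := norm_sub_le (cen i) (cen i - x)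
          rwa [sub_sub_cancel] at this
        linarith [hs i]
      rw [Set.indicator_of_mem hxb]
      have hcard : (Finset.univ.filter (fun i => x ∈ G i)).card = Fintype.card {i : ι // x ∈ G i} := by
        rw [Fintype.card_subtype]
      have hb := square_bound (ι := {i : ι // x ∈ G i}) (L := L) (by linarith) (cen := fun i => cen i.1 - x)
        (rot := fun i => rot i.1) (by
          intro i j hij
          have hij' : i.1 ≠ j.1 := fun h => hij (Subtype.ext h)
          have h2 : Disjoint (body (cen i.1) (rot i.1)) (body (cen j.1) (rot j.1)) := hd hij'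
          rw [Set.disjoint_left] at h2 ⊢
          intro y hy1 hy2
          apply h2 (a := y + x)
          · intro k
            have := hy1 k
            rwa [show y + x - cen i.1 = y - (cen i.1 - x) by ring]
          · intro k
            have := hy2 k
            rwa [show y + x - cen j.1 = y - (cen j.1 - x) by ring]) (by
          intro i y hy
          have h2 := norm_lt_two hy
          obtain ⟨a, b, c', d⟩ := i.2
          have hre := (Complex.abs_re_le_norm (y - (cen i.1 - x))).trans_lt h2
          have him := (Complex.abs_im_le_norm (y - (cen i.1 - x))).trans_lt h2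
          rw [abs_lt] at hre him
          rw [Complex.sub_re] at hre
          rw [Complex.sub_im] at him
          refine ⟨?_, ?_, ?_, ?_⟩ <;> linarith [hre.1, hre.2, him.1, him.2])
      rw [hcard]
      have hb2 : (Fintype.card {i : ι // x ∈ G i} : ℝ) ≤ M := by
        rw [hM, le_div_iff₀ (by positivity)]; exact hb
      calc (Fintype.card {i : ι // x ∈ G i} : ENNReal) =
            ENNReal.ofReal (Fintype.card {i : ι // x ∈ G i} : ℝ) := by
            rw [ENNReal.ofReal_natCast]
        _ ≤ ENNReal.ofReal M := ENNReal.ofReal_le_ofReal hb2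
    · rw [Finset.not_nonempty_iff_eq_empty] at hne
      rw [hne]; simp
  have hint := lintegral_mono (μ := volume) hcount
  rw [lintegral_finsetSum _ (fun i _ => (measurable_one.indicator (hGm i))),
    lintegral_indicator Metric.isClosed_closedBall.measurableSet, setLIntegral_const] at hint
  have h2 : ∀ i, ∫⁻ x, (G i).indicator (1 : ℂ → ENNReal) x = ENNReal.ofReal ((L - 4) ^ 2) := by
    intro i
    rw [lintegral_indicator_one (hGm i), hGv]
  rw [Finset.sum_congr rfl (fun i _ => h2 i), Finset.sum_const, Finset.card_univ,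
    Complex.volume_closedBall, nsmul_eq_mul] at hint
  have h3 : (Fintype.card ι : ENNReal) * ENNReal.ofReal ((L - 4) ^ 2) =
      ENNReal.ofReal ((Fintype.card ι : ℝ) * (L - 4) ^ 2) := by
    rw [ENNReal.ofReal_mul (by positivity), ENNReal.ofReal_natCast]
  have h4 : ENNReal.ofReal M * (ENNReal.ofReal (r + 2 * L) ^ 2 * (NNReal.pi : ENNReal)) =
      ENNReal.ofReal (M * ((r + 2 * L) ^ 2 * π)) := by
    rw [ENNReal.ofReal_mul hM0, ENNReal.ofReal_mul (by positivity), ENNReal.ofReal_pow (by positivity)]
    congr 2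
    rw [← NNReal.coe_real_pi, ENNReal.ofReal_coe_nnreal]
  rw [h3, h4, ENNReal.ofReal_le_ofReal_iff (by positivity)] at hint
  have h5 := mul_le_mul_of_nonneg_right hint (show 0 ≤ A0 + 2 * W by positivity)
  have h6 : M * ((r + 2 * L) ^ 2 * π) * (A0 + 2 * W) = π * (r + 2 * L) ^ 2 * (L ^ 2 + 4) := by
    rw [hM]
    field_simp
  linarith

end Nonagon
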