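import Pool.Agent.Lib.MP_b090c9_co.Comb

set_option autoImplicit false

namespace Nonagon

open MeasureTheory Set Filter Topology

/-- linear map sending 1 to u and I to v -/
noncomputable def lm (u v : ℂ) : ℂ →ₗ[ℝ] ℂ :=
  Matrix.toLin Complex.basisOneI Complex.basisOneI !![u.re, v.re; u.im, v.im]

lemma lm_apply (u v z : ℂ) : lm u v z = z.re • u + z.im • v := by
  unfold lm
  rw [Matrix.toLin_apply]
  apply Complex.ext
  · simp [Matrix.mulVec, dotProduct, Fin.sum_univ_two]
    ring
  · simp [Matrix.mulVec, dotProduct, Fin.sum_univ_two]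
    ring

lemma det_lm (u v : ℂ) : LinearMap.det (lm u v) = crs u v := by
  unfold lm
  rw [LinearMap.det_toLin, Matrix.det_fin_two]
  simp [crs]; ring

/-- standard open triangle -/
def std : Set ℂ := {z | 0 < z.re ∧ 0 < z.im ∧ z.re + z.im < 1}

/-- standard closed triangle -/
def stdc : Set ℂ := {z | 0 ≤ z.re ∧ 0 ≤ z.im ∧ z.re + z.im ≤ 1}

lemma isOpen_std : IsOpen std := by
  have : std = {z : ℂ | 0 < z.re} ∩ ({z : ℂ | 0 < z.im} ∩ {z : ℂ | z.re + z.im < 1}) := by
    ext z; simp [std]
  rw [this]
  exact (isOpen_lt continuous_const Complex.continuous_re).inter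
    ((isOpen_lt continuous_const Complex.continuous_im).inter
      (isOpen_lt (Complex.continuous_re.add Complex.continuous_im) continuous_const))

lemma convex_stdc : Convex ℝ stdc := by
  rintro x ⟨h1, h2, h3⟩ y ⟨g1, g2, g3⟩ a b ha hb hab
  refine ⟨?_, ?_, ?_⟩
  · simp; nlinarith [mul_nonneg ha h1, mul_nonneg hb g1]
  · simp; nlinarith [mul_nonneg ha h2, mul_nonneg hb g2]
  · simp; nlinarith [mul_nonneg ha (sub_nonneg.mpr h3), mul_nonneg hb (sub_nonneg.mpr g3)]

lemma volume_std : volume std = ENNReal.ofReal (1 / 2) := by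
  have h1 : volume (Complex.measurableEquivRealProd ⁻¹'
      (regionBetween (fun _ : ℝ => (0:ℝ)) (fun x => 1 - x) (Ioo 0 1))) =
      volume (regionBetween (fun _ : ℝ => (0:ℝ)) (fun x => 1 - x) (Ioo 0 1)) := by
    apply Complex.volume_preserving_equiv_real_prod.measure_preimage
    exact (measurableSet_regionBetween measurable_const (by fun_prop) measurableSet_Ioo).nullMeasurableSet
  have h2 : Complex.measurableEquivRealProd ⁻¹'
      (regionBetween (fun _ : ℝ => (0:ℝ)) (fun x => 1 - x) (Ioo 0 1)) = std := by
    ext z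
    simp only [mem_preimage, regionBetween, mem_ofPred_eq, mem_Ioo, std,
      Complex.measurableEquivRealProd_apply]
    constructor
    · rintro ⟨⟨a, b⟩, c, d⟩
      exact ⟨a, c, by linarith⟩
    · rintro ⟨a, b, c⟩
      exact ⟨⟨a, by linarith⟩, b, by linarith⟩
  rw [← h2, h1, Measure.volume_eq_prod, volume_regionBetween_eq_integral]
  · congr 1
    rw [← integral_Ioc_eq_integral_Ioo, ← intervalIntegral.integral_of_le zero_le_one]
    simp only [Pi.sub_apply, sub_zero]
    rw [intervalIntegral.integral_sub (by simp) (by simp)]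
    simp
    norm_num
  · exact (ContinuousOn.integrableOn_Icc (by fun_prop)).mono_set Ioo_subset_Icc_self
  · exact (ContinuousOn.integrableOn_Icc (by fun_prop)).mono_set Ioo_subset_Icc_self
  · exact measurableSet_Ioo
  · intro x hx
    linarith [hx.2]

lemma volume_stdc : volume stdc = ENNReal.ofReal (1 / 2) := by
  have hsub : std ⊆ stdc := fun z hz => ⟨hz.1.le, hz.2.1.le, hz.2.2.le⟩
  have hsub2 : stdc ⊆ closure std := by
    intro z hz
    have hp : (⟨1/4, 1/4⟩ : ℂ) ∈ std := by
      refine ⟨?_, ?_, ?_⟩ <;> norm_num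
    have hcont : Tendsto (fun s : ℝ => z + s • ((⟨1/4, 1/4⟩ : ℂ) - z)) (𝓝[>] 0) (𝓝 z) := by
      have : Continuous (fun s : ℝ => z + s • ((⟨1/4, 1/4⟩ : ℂ) - z)) := by fun_prop
      have h := (this.tendsto 0).mono_left (nhdsWithin_le_nhds (s := Ioi 0))
      simpa using h
    refine mem_closure_of_tendsto hcont ?_
    filter_upwards [Ioo_mem_nhdsGT one_pos] with s hs
    obtain ⟨h1, h2, h3⟩ := hz
    obtain ⟨s0, s1⟩ := hs
    refine ⟨?_, ?_, ?_⟩
    · simp only [Complex.add_re, Complex.smul_re, Complex.sub_re, smul_eq_mul]; nlinarith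
    · simp only [Complex.add_im, Complex.smul_im, Complex.sub_im, smul_eq_mul]; nlinarith
    · simp only [Complex.add_re, Complex.smul_re, Complex.sub_re, smul_eq_mul,
        Complex.add_im, Complex.smul_im, Complex.sub_im]; nlinarith
  apply le_antisymm
  · rw [← volume_std]
    have hc : Convex ℝ std := by
      rintro x ⟨h1, h2, h3⟩ y ⟨g1, g2, g3⟩ a b ha hb hab
      have hb' : b = 1 - a := by linarith
      subst hb'
      refine ⟨?_, ?_, ?_⟩
      · simp
        rcases ha.lt_or_eq with h | h
        · nlinarith [mul_pos h h1, mul_nonneg hb g1.le]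
        · rw [← h]; simpa using g1
      · simp
        rcases ha.lt_or_eq with h | h
        · nlinarith [mul_pos h h2, mul_nonneg hb g2.le]
        · rw [← h]; simpa using g2
      · simp
        rcases ha.lt_or_eq with h | h
        · nlinarith [mul_pos h (sub_pos.mpr h3), mul_nonneg hb (sub_pos.mpr g3).le]
        · rw [← h]; simpa using g3
    calc volume stdc ≤ volume (closure std) := measure_mono hsub2
      _ = volume std := by
        have hfr := hc.addHaar_frontier volume
        apply le_antisymm _ (measure_mono subset_closure)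
        have : closure std ⊆ std ∪ frontier std := by
          rw [frontier, isOpen_std.interior_eq]
          intro x hx
          by_cases h : x ∈ std
          · exact Or.inl h
          · exact Or.inr ⟨hx, h⟩
        calc volume (closure std) ≤ _ := measure_mono this
          _ ≤ _ := measure_union_le _ _
          _ = volume std := by rw [hfr, add_zero]
  · rw [← volume_std]; exact measure_mono hsub

/-- open triangle -/
def tri (A B P : ℂ) : Set ℂ := (fun z => A + lm (B - A) (P - A) z) '' std

lemma volume_affine (A u v : ℂ) (S : Set ℂ) :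
    volume ((fun z => A + lm u v z) '' S) = ENNReal.ofReal |crs u v| * volume S := by
  have : (fun z => A + lm u v z) '' S = (fun x => A + x) '' ((lm u v) '' S) := by
    rw [image_image]
  rw [this, image_add_left, measure_preimage_add, Measure.addHaar_image_linearMap, det_lm]

lemma volume_tri (A B P : ℂ) : volume (tri A B P) = ENNReal.ofReal (|crs (B - A) (P - A)| / 2) := by
  unfold tri
  rw [volume_affine, volume_std, ← ENNReal.ofReal_mul (abs_nonneg _)]
  congr 1; ring

end Nonagon
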