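import Pool.Agent.Lib.MP_b090c9_co.Tri

set_option autoImplicit false

namespace Nonagon

open Set Filter Topology Real

/-- half side length of the nonagon -/
noncomputable def tau : ℝ := Real.tan (π / 9)

lemma cos20_eq : 4 * cos (π / 9) ^ 3 - 3 * cos (π / 9) = 1 / 2 := by
  rw [← Real.cos_three_mul, ← Real.cos_pi_div_three]
  congr 1; ring

lemma cos20_ge : 0.9 ≤ cos (π / 9) := by
  have h := Real.one_sub_sq_div_two_le_cos (x := π / 9)
  have := Real.pi_lt_d2
  have := Real.pi_gt_three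
  nlinarith

lemma cos20_lo : 0.939692 < cos (π / 9) := by
  have h1 := cos20_eq
  have h2 := cos20_ge
  by_contra hc
  push Not at hc
  nlinarith [mul_nonneg (sub_nonneg.mpr h2) (sub_nonneg.mpr hc), sq_nonneg (cos (π/9))]

lemma cos20_hi : cos (π / 9) < 0.939693 := by
  have h1 := cos20_eq
  have h2 := cos20_ge
  have h3 := Real.cos_le_one (π / 9)
  by_contra hc
  push Not at hc
  nlinarith [mul_nonneg (sub_nonneg.mpr hc) (sub_nonneg.mpr h3), sq_nonneg (cos (π/9))]

lemma sin20_pos : 0 < sin (π / 9) :=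
  Real.sin_pos_of_pos_of_lt_pi (by positivity) (by linarith [Real.pi_pos])

lemma sin20_sq : sin (π / 9) ^ 2 = 1 - cos (π / 9) ^ 2 := by
  have := Real.sin_sq_add_cos_sq (π / 9); linarith

lemma sin20_lo : 0.342016 < sin (π / 9) := by
  have h1 := sin20_sq
  have h2 := cos20_hi
  have h3 := cos20_lo
  have h4 := sin20_pos
  by_contra hc
  push Not at hc
  nlinarith

lemma sin20_hi : sin (π / 9) < 0.342023 := by
  have h1 := sin20_sq
  have h2 := cos20_hi
  have h3 := cos20_lo
  have h4 := sin20_pos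
  by_contra hc
  push Not at hc
  nlinarith

lemma tau_eq : tau = sin (π / 9) / cos (π / 9) := Real.tan_eq_sin_div_cos _

lemma tau_lo : 0.36396 < tau := by
  rw [tau_eq, lt_div_iff₀ (by linarith [cos20_ge])]
  linarith [sin20_lo, cos20_hi]

lemma tau_hi : tau < 0.36398 := by
  rw [tau_eq, div_lt_iff₀ (by linarith [cos20_ge])]
  linarith [sin20_hi, cos20_lo]

lemma cos40_eq : cos (2 * π / 9) = 2 * cos (π / 9) ^ 2 - 1 := by
  rw [← Real.cos_two_mul]; congr 1; ring

lemma sin40_eq : sin (2 * π / 9) = 2 * sin (π / 9) * cos (π / 9) := by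
  rw [← Real.sin_two_mul]; congr 1; ring

lemma cos80_eq : cos (4 * π / 9) = 2 * cos (2 * π / 9) ^ 2 - 1 := by
  rw [← Real.cos_two_mul]; congr 1; ring

lemma sin80_eq : sin (4 * π / 9) = 2 * sin (2 * π / 9) * cos (2 * π / 9) := by
  rw [← Real.sin_two_mul]; congr 1; ring

lemma cos40_bd : 0.76604 < cos (2 * π / 9) ∧ cos (2 * π / 9) < 0.76605 := by
  rw [cos40_eq]
  have h2 := cos20_hi
  have h3 := cos20_lo
  constructor <;> nlinarith

lemma sin40_bd : 0.64277 < sin (2 * π / 9) ∧ sin (2 * π / 9) < 0.64280 := by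
  rw [sin40_eq]
  have h2 := cos20_hi
  have h3 := cos20_lo
  have h4 := sin20_lo
  have h5 := sin20_hi
  constructor <;> nlinarith

/-- minus the cotangent -/
noncomputable def mcot (x : ℝ) : ℝ := - (cos x / sin x)

lemma hasDerivAt_mcot {x : ℝ} (hx : sin x ≠ 0) : HasDerivAt mcot (1 / sin x ^ 2) x := by
  have h : HasDerivAt mcot (-((-sin x * sin x - cos x * cos x) / sin x ^ 2)) x :=
    ((Real.hasDerivAt_cos x).div (Real.hasDerivAt_sin x) hx).neg
  apply h.congr_deriv
  have := Real.sin_sq_add_cos_sq x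
  rw [← neg_div]
  congr 1
  linarith

lemma concave_mcot : ConcaveOn ℝ (Icc (2 * π / 9) (4 * π / 9)) mcot := by
  have hpos : ∀ x ∈ Icc (2 * π / 9) (4 * π / 9), 0 < sin x := by
    intro x hx
    exact Real.sin_pos_of_pos_of_lt_pi (by linarith [hx.1, Real.pi_pos]) (by linarith [hx.2, Real.pi_pos])
  apply AntitoneOn.concaveOn_of_deriv (convex_Icc _ _)
  · intro x hx
    exact (hasDerivAt_mcot (hpos x hx).ne').continuousAt.continuousWithinAt
  · intro x hx
    rw [interior_Icc] at hx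
    exact (hasDerivAt_mcot (hpos x (Ioo_subset_Icc_self hx)).ne').differentiableAt.differentiableWithinAt
  · rw [interior_Icc]
    intro x hx y hy hxy
    have hx' := Ioo_subset_Icc_self hx
    have hy' := Ioo_subset_Icc_self hy
    rw [(hasDerivAt_mcot (hpos x hx').ne').deriv, (hasDerivAt_mcot (hpos y hy').ne').deriv]
    have h1 : sin x ≤ sin y := by
      apply Real.sin_le_sin_of_le_of_le_pi_div_two _ _ hxy
      · linarith [hx'.1, Real.pi_pos]
      · linarith [hy'.2, Real.pi_pos]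
    have h2 := hpos x hx'
    apply one_div_le_one_div_of_le (by positivity)
    exact pow_le_pow_left₀ h2.le h1 2

/-- lower bound for the sums over the normal arc -/
noncomputable def Fnum (ν : ℝ) : ℝ :=
  if ν ≤ 2 * π / 9 then 0
  else if ν ≤ 4 * π / 9 then sin (2 * π / 9) * sin (ν - 2 * π / 9)
  else cos (2 * π / 9) ^ 2 - cos ν

lemma lam_le_one (x : ℝ) (hx : 2 ≤ x) : lam x ≤ 0.067 * x - 0.134 := by
  unfold lam
  apply max_le (by linarith)
  apply max_le
  · exact min_le_left _ _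
  · exact (min_le_left _ _).trans (by linarith)

lemma lam_le_two (x : ℝ) (hx : 2 ≤ x) (hx4 : x ≤ 4) : lam x ≤ 0.0438 * x - 0.0644 := by
  unfold lam
  apply max_le (by linarith)
  apply max_le
  · exact min_le_right _ _
  · exact (min_le_left _ _).trans (by linarith)

lemma lam_le_three (x : ℝ) (hx4 : 4 ≤ x) : lam x ≤ 0.067 * x - 0.1572 := by
  unfold lam
  apply max_le (by linarith)
  apply max_le
  · exact (min_le_right _ _).trans (by linarith)
  · exact min_le_left _ _

lemma lam_zero_of_le (x : ℝ) (hx : 0 ≤ x) (hx2 : x ≤ 2) : lam x = 0 := by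
  apply le_antisymm _ (lam_nonneg x)
  unfold lam
  apply max_le le_rfl
  apply max_le
  · exact (min_le_left _ _).trans (by linarith)
  · exact (min_le_left _ _).trans (by linarith)

/-- F1 in terms of the cotangent -/
lemma F1_eq {ν : ℝ} (hν : sin ν ≠ 0) : sin (2 * π / 9) * sin (ν - 2 * π / 9) / sin ν =
    sin (2 * π / 9) * cos (2 * π / 9) + sin (2 * π / 9) ^ 2 * mcot ν := by
  unfold mcot
  rw [Real.sin_sub]
  field_simp
  ring

lemma F60 : 0.067 ≤ 2 * tau ^ 2 * (sin (2 * π / 9) * sin (3 * π / 9 - 2 * π / 9) / sin (3 * π / 9)) := by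
  have h1 : sin (3 * π / 9) = √3 / 2 := by
    rw [← Real.sin_pi_div_three]; congr 1; ring
  have h2 : sin (3 * π / 9 - 2 * π / 9) = sin (π / 9) := by congr 1; ring
  rw [h1, h2, ← mul_div_assoc, le_div_iff₀ (by positivity)]
  have h3 : √3 < 1.73206 := by
    rw [Real.sqrt_lt' (by norm_num)]; norm_num
  have h4 := tau_lo
  have h5 := sin40_bd.1
  have h6 := sin20_lo
  have h7 : (0.36396:ℝ) ^ 2 < tau ^ 2 := pow_lt_pow_left₀ h4 (by norm_num) two_ne_zero
  have h8 : (0.64277:ℝ) * 0.342016 < sin (2 * π / 9) * sin (π / 9) := by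
    apply mul_lt_mul'' h5 h6 <;> norm_num
  have h9 : (2 * 0.36396 ^ 2 : ℝ) * (0.64277 * 0.342016) < 2 * tau ^ 2 * (sin (2 * π / 9) * sin (π / 9)) := by
    apply mul_lt_mul'' (by linarith) h8 <;> norm_num
  norm_num at h9 ⊢
  linarith

lemma F80' : 0.1108 ≤ 2 * tau ^ 2 * (sin (2 * π / 9) ^ 2 / sin (4 * π / 9)) := by
  rw [sin80_eq]
  have h1 := sin40_bd
  have h2 := cos40_bd
  have h4 := tau_lo
  have h7 : (0.36396:ℝ) ^ 2 < tau ^ 2 := pow_lt_pow_left₀ h4 (by norm_num) two_ne_zero
  have h5 : sin (2 * π / 9) ^ 2 / (2 * sin (2 * π / 9) * cos (2 * π / 9)) =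
      sin (2 * π / 9) / (2 * cos (2 * π / 9)) := by
    have : sin (2 * π / 9) ≠ 0 := by linarith [h1.1]
    have : cos (2 * π / 9) ≠ 0 := by linarith [h2.1]
    field_simp
  rw [h5, ← mul_div_assoc, le_div_iff₀ (by linarith [h2.1])]
  have h9 : (2 * 0.36396 ^ 2 : ℝ) * 0.64277 < 2 * tau ^ 2 * sin (2 * π / 9) := by
    apply mul_lt_mul'' (by linarith) h1.1 <;> norm_num
  norm_num at h9 ⊢
  linarith [h2.2]

lemma F80 : 0.1108 ≤ 2 * tau ^ 2 * (sin (2 * π / 9) * sin (4 * π / 9 - 2 * π / 9) / sin (4 * π / 9)) := by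
  have h2 : sin (4 * π / 9 - 2 * π / 9) = sin (2 * π / 9) := by congr 1; ring
  rw [h2, ← pow_two]; exact F80'

/-- third function -/
noncomputable def hfun (x : ℝ) : ℝ := (cos (2 * π / 9) ^ 2 - cos x) / sin x

lemma hasDerivAt_hfun {x : ℝ} (hx : sin x ≠ 0) :
    HasDerivAt hfun ((1 - cos (2 * π / 9) ^ 2 * cos x) / sin x ^ 2) x := by
  have h1 : HasDerivAt (fun x => cos (2 * π / 9) ^ 2 - cos x) (0 - (- sin x)) x :=
    (hasDerivAt_const x _).sub (Real.hasDerivAt_cos x)
  have h : HasDerivAt hfun (((0 - (- sin x)) * sin x - (cos (2 * π / 9) ^ 2 - cos x) * cos x) /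
      sin x ^ 2) x := h1.div (Real.hasDerivAt_sin x) hx
  apply h.congr_deriv
  have := Real.sin_sq_add_cos_sq x
  congr 1
  linarith

lemma hfun_ge {ν : ℝ} (h1 : 4 * π / 9 ≤ ν) (h2 : ν < π) :
    hfun (4 * π / 9) + 0.89 * (ν - 4 * π / 9) ≤ hfun ν := by
  have hpos : ∀ x ∈ Ico (4 * π / 9) π, 0 < sin x := by
    intro x hx
    exact Real.sin_pos_of_pos_of_lt_pi (by linarith [hx.1, Real.pi_pos]) hx.2
  have key := (convex_Ico (4 * π / 9) π).mul_sub_le_image_sub_of_le_deriv (f := hfun) (C := 0.89)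
    (fun x hx => (hasDerivAt_hfun (hpos x hx).ne').continuousAt.continuousWithinAt)
    (fun x hx => by
      rw [interior_Ico] at hx
      exact (hasDerivAt_hfun (hpos x (Ioo_subset_Ico_self hx)).ne').differentiableAt.differentiableWithinAt)
    (fun x hx => by
      rw [interior_Ico] at hx
      have hx' := Ioo_subset_Ico_self hx
      have hs := hpos x hx'
      rw [(hasDerivAt_hfun hs.ne').deriv, le_div_iff₀ (by positivity)]
      have hc : cos x ≤ cos (4 * π / 9) := by
        apply Real.cos_le_cos_of_nonneg_of_le_pi _ hx.2.le hx.1.le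
        linarith [Real.pi_pos]
      have hc80 : cos (4 * π / 9) < 0.1737 := by
        rw [cos80_eq]
        have := cos40_bd
        nlinarith
      have hs1 : sin x ^ 2 ≤ 1 := Real.sin_sq_le_one x
      have hC1 : cos (2 * π / 9) ^ 2 < 0.587 := by
        have := cos40_bd
        nlinarith
      have hC0 : 0 ≤ cos (2 * π / 9) ^ 2 := sq_nonneg _
      have : cos (2 * π / 9) ^ 2 * cos x ≤ 0.11 := by
        rcases le_or_gt (cos x) 0 with h | h
        · nlinarith
        · nlinarith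
      linarith)
    (4 * π / 9) ⟨le_rfl, by linarith [Real.pi_pos]⟩ ν ⟨h1, h2⟩ h1
  linarith

theorem lam_le_F {x : ℝ} (h0 : 0 ≤ x) (h9 : x < 9) :
    lam x * sin (π * x / 9) ≤ 2 * tau ^ 2 * Fnum (π * x / 9) := by
  have hπ := Real.pi_pos
  have hs0 : 0 ≤ sin (π * x / 9) := Real.sin_nonneg_of_nonneg_of_le_pi (by positivity) (by nlinarith)
  unfold Fnum
  split_ifs with hA hB
  · have : x ≤ 2 := by
      by_contra hc
      push Not at hc
      nlinarith
    rw [lam_zero_of_le x h0 this]; simp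
  · push Not at hA
    have h2 : 2 < x := by
      by_contra hc
      push Not at hc
      nlinarith
    have h4 : x ≤ 4 := by
      by_contra hc
      push Not at hc
      nlinarith
    have hspos : 0 < sin (π * x / 9) := Real.sin_pos_of_pos_of_lt_pi (by positivity) (by nlinarith)
    rw [← le_div_iff₀ hspos, mul_div_assoc, F1_eq hspos.ne']
    set K1 := sin (2 * π / 9) * cos (2 * π / 9) with hK1
    set K2 := sin (2 * π / 9) ^ 2 with hK2
    have hK20 : 0 ≤ K2 := sq_nonneg _
    have hs40 : sin (2 * π / 9) ≠ 0 := by linarith [sin40_bd.1]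
    have hs60 : sin (3 * π / 9) ≠ 0 := by
      have : 0 < sin (3 * π / 9) := Real.sin_pos_of_pos_of_lt_pi (by positivity) (by nlinarith)
      exact this.ne'
    have hs80 : sin (4 * π / 9) ≠ 0 := by
      have : 0 < sin (4 * π / 9) := Real.sin_pos_of_pos_of_lt_pi (by positivity) (by nlinarith)
      exact this.ne'
    have e40 : K1 + K2 * mcot (2 * π / 9) = 0 := by
      rw [hK1, hK2, ← F1_eq hs40, sub_self, Real.sin_zero]; simp
    have e60 : 0.067 ≤ 2 * tau ^ 2 * (K1 + K2 * mcot (3 * π / 9)) := by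
      rw [hK1, hK2, ← F1_eq hs60]; exact F60
    have e80 : 0.1108 ≤ 2 * tau ^ 2 * (K1 + K2 * mcot (4 * π / 9)) := by
      rw [hK1, hK2, ← F1_eq hs80]; exact F80
    have m40 : 2 * π / 9 ∈ Icc (2 * π / 9) (4 * π / 9) := ⟨le_rfl, by linarith⟩
    have m60 : 3 * π / 9 ∈ Icc (2 * π / 9) (4 * π / 9) := ⟨by linarith, by linarith⟩
    have m80 : 4 * π / 9 ∈ Icc (2 * π / 9) (4 * π / 9) := ⟨by linarith, le_rfl⟩
    have ht : 0 ≤ tau ^ 2 := sq_nonneg _
    rcases le_or_gt x 3 with h3 | h3
    · have hc := concave_mcot.2 m40 m60 (show 0 ≤ 3 - x by linarith) (show 0 ≤ x - 2 by linarith) (by ring)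
      simp only [smul_eq_mul] at hc
      have heq : (3 - x) * (2 * π / 9) + (x - 2) * (3 * π / 9) = π * x / 9 := by ring
      rw [heq] at hc
      have h5 : (3 - x) * (K1 + K2 * mcot (2 * π / 9)) + (x - 2) * (K1 + K2 * mcot (3 * π / 9)) ≤
          K1 + K2 * mcot (π * x / 9) := by
        have := mul_le_mul_of_nonneg_left hc hK20
        linarith
      have h6 := lam_le_one x h2.le
      rw [e40, mul_zero, zero_add] at h5
      have h7 := mul_le_mul_of_nonneg_left h5 (show 0 ≤ 2 * tau ^ 2 by positivity)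
      have h8 := mul_le_mul_of_nonneg_left e60 (show 0 ≤ x - 2 by linarith)
      linarith
    · have hc := concave_mcot.2 m60 m80 (show 0 ≤ 4 - x by linarith) (show 0 ≤ x - 3 by linarith) (by ring)
      simp only [smul_eq_mul] at hc
      have heq : (4 - x) * (3 * π / 9) + (x - 3) * (4 * π / 9) = π * x / 9 := by ring
      rw [heq] at hc
      have h5 : (4 - x) * (K1 + K2 * mcot (3 * π / 9)) + (x - 3) * (K1 + K2 * mcot (4 * π / 9)) ≤
          K1 + K2 * mcot (π * x / 9) := by
        have := mul_le_mul_of_nonneg_left hc hK20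
        linarith
      have h6 := lam_le_two x h2.le h4
      have h7 := mul_le_mul_of_nonneg_left h5 (show 0 ≤ 2 * tau ^ 2 by positivity)
      have h8 := mul_le_mul_of_nonneg_left e60 (show 0 ≤ 4 - x by linarith)
      have h9' := mul_le_mul_of_nonneg_left e80 (show 0 ≤ x - 3 by linarith)
      linarith
  · push Not at hA hB
    have h4 : 4 < x := by
      by_contra hc
      push Not at hc
      nlinarith
    have hspos : 0 < sin (π * x / 9) := Real.sin_pos_of_pos_of_lt_pi (by positivity) (by nlinarith)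
    rw [← le_div_iff₀ hspos, mul_div_assoc]
    have h5 := hfun_ge (ν := π * x / 9) hB.le (by nlinarith)
    have h6 := lam_le_three x h4.le
    have h7 : hfun (4 * π / 9) = sin (2 * π / 9) ^ 2 / sin (4 * π / 9) := by
      unfold hfun
      rw [cos80_eq, Real.sin_sq]
      congr 1; ring
    have h8 := F80'
    rw [← h7] at h8
    have h9' : hfun (π * x / 9) = (cos (2 * π / 9) ^ 2 - cos (π * x / 9)) / sin (π * x / 9) := rfl
    rw [← h9']
    have h10 := mul_le_mul_of_nonneg_left h5 (show 0 ≤ 2 * tau ^ 2 by positivity)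
    have h11 : 0.067 ≤ 2 * tau ^ 2 * (0.89 * (π / 9)) := by
      have h12 := tau_lo
      have h13 : (0.36396:ℝ) ^ 2 < tau ^ 2 := pow_lt_pow_left₀ h12 (by norm_num) two_ne_zero
      have h14 := Real.pi_gt_three
      nlinarith
    have h15 := mul_le_mul_of_nonneg_left h11 (show 0 ≤ x - 4 by linarith)
    nlinarith

end Nonagon
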