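import Pool.Agent.Lib.MP_b090c9_co.Block

set_option autoImplicit false

namespace Nonagon

open MeasureTheory Set Filter Topology

lemma Sec_angle_inj {s α s' α' : ℝ} (h0 : 0 < α) (h1 : α ≤ Real.pi) (h0' : 0 < α')
    (h1' : α' ≤ Real.pi) (h : Sec s α = Sec s' α') : α = α' := by
  have h2 := volume_Sec (s := s) h0 h1
  rw [h, volume_Sec h0' h1'] at h2
  rw [ENNReal.ofReal_eq_ofReal_iff (by linarith) (by linarith)] at h2
  linarith

/-- an open set disjoint from an open half plane lies in the opposite open half plane -/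
lemma half_of_disjoint {K : Set ℂ} (hK : IsOpen K) {t : ℝ} (hd : Disjoint K (Sec t Real.pi)) :
    ∀ v ∈ K, crs (e t) v < 0 := by
  intro v hv
  rw [Sec_pi] at hd
  rcases lt_trichotomy (crs (e t) v) 0 with h | h | h
  · exact h
  · exfalso
    have hcont : Tendsto (fun r : ℝ => v + r • e (t + Real.pi / 2)) (𝓝[>] 0) (𝓝 v) := by
      have : Continuous (fun r : ℝ => v + r • e (t + Real.pi / 2)) := by fun_prop
      have h := (this.tendsto 0).mono_left (nhdsWithin_le_nhds (s := Ioi 0))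
      simpa using h
    have hev := (hcont.eventually (hK.mem_nhds hv)).and self_mem_nhdsWithin
    obtain ⟨r, hr, hr0⟩ := hev.exists
    have hr0' : (0:ℝ) < r := hr0
    apply Set.disjoint_left.mp hd hr
    simp only [mem_ofPred_eq]
    rw [crs_add, h, crs_smul, crs_e_e]
    simp; exact hr0'
  · exact absurd h (fun h => Set.disjoint_left.mp hd hv h)

/-- the outgoing side at P of cell j is initially not met by other cells -/
def Free {J : Type*} (U : J → Set ℂ) (j : J) (P : ℂ) (t : ℝ) : Prop :=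
  ∀ᶠ s in 𝓝[>] (0:ℝ), ∀ k, k ≠ j → P + s • e t ∉ closure (U k)

section
variable {J : Type*} [Finite J] {U : J → Set ℂ}

/-- choosing the first cell in a half plane: it is a free corner or flat -/
lemma first_cell (hU : ∀ j, IsCell (U j)) (hd : Pairwise (fun i j => Disjoint (U i) (U j)))
    {z : ℂ} {a : ℝ} (hh : ∀ k, z ∈ closure (U k) → (∀ v ∈ tc (U k) z, 0 < crs (e a) v) ∨
      e a ∉ closure (tc (U k) z) ∧ ∀ θ, a < θ → θ < a + Real.pi → e θ ∉ closure (tc (U k) z))
    (hex : ∃ k, z ∈ closure (U k) ∧ ∀ v ∈ tc (U k) z, 0 < crs (e a) v) :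
    ∃ k s α, z ∈ closure (U k) ∧ a ≤ s ∧ 0 < α ∧ s + α ≤ a + Real.pi ∧ tc (U k) z = Sec s α ∧
      Free U k z s := by
  classical
  set K : Set J := {k | z ∈ closure (U k) ∧ ∀ v ∈ tc (U k) z, 0 < crs (e a) v} with hK
  have hfr : ∀ k ∈ K, ∃ s α : ℝ, a ≤ s ∧ 0 < α ∧ s + α ≤ a + Real.pi ∧ tc (U k) z = Sec s α := by
    intro k hk
    exact tc_frame (hU k).op (hU k).cv (hU k).ne hk.1 hk.2
  choose! s α h1 h2 h3 h4 using hfr
  obtain ⟨k, hkK, hkmin⟩ := Set.exists_min_image K s (Set.toFinite K) hex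
  refine ⟨k, s k, α k, hkK.1, h1 k hkK, h2 k hkK, h3 k hkK, h4 k hkK, ?_⟩
  unfold Free
  rw [Filter.eventually_all]
  intro m
  by_cases hmk : m = k
  · exact Filter.Eventually.of_forall (fun _ h => absurd hmk h)
  by_cases hzm : z ∈ closure (U m)
  · have hnot : e (s k) ∉ closure (tc (U m) z) := by
      intro hcl
      by_cases hmK : m ∈ K
      · rw [h4 m hmK] at hcl
        have hsk1 : a ≤ s k := h1 k hkK
        have hsk2 : s k ≤ a + Real.pi := by linarith [h3 k hkK, h2 k hkK]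
        have h5 := mem_closure_Sec_frame' (h1 m hmK) (h2 m hmK) (h3 m hmK) hsk1 hsk2 hcl
        have h6 : s k = s m := le_antisymm (hkmin m hmK) h5.1
        have hdis := disjoint_tc (hU m).op (hU m).cv hzm (hU k).op (hU k).cv hkK.1 (hd hmk)
        have hmin : 0 < min (α k) (α m) := lt_min (h2 k hkK) (h2 m hmK)
        have e1 : (1:ℝ) • e (s k + min (α k) (α m) / 2) ∈ Sec (s k) (α k) := by
          rw [mem_Sec_iff hsk1 (h2 k hkK) (h3 k hkK) (by linarith) _ one_pos]
          · constructor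
            · linarith
            · linarith [min_le_left (α k) (α m)]
          · linarith [min_le_left (α k) (α m), h3 k hkK]
        have e2 : (1:ℝ) • e (s k + min (α k) (α m) / 2) ∈ Sec (s m) (α m) := by
          rw [mem_Sec_iff (h1 m hmK) (h2 m hmK) (h3 m hmK) (by linarith) _ one_pos]
          · constructor
            · linarith
            · linarith [min_le_right (α k) (α m)]
          · linarith [min_le_left (α k) (α m), h3 k hkK]
        rw [h4 m hmK, h4 k hkK] at hdis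
        exact Set.disjoint_left.mp hdis e2 e1
      · rcases hh m hzm with h | h
        · exact hmK ⟨hzm, h⟩
        · have hsk1 : a ≤ s k := h1 k hkK
          rcases hsk1.lt_or_eq with h' | h'
          · exact h.2 (s k) h' (by linarith [h3 k hkK, h2 k hkK]) hcl
          · rw [← h'] at hcl; exact h.1 hcl
    filter_upwards [self_mem_nhdsWithin] with r hr _ hcl
    exact hnot (mem_closure_tc hr hcl)
  · have hcont : Tendsto (fun r : ℝ => z + r • e (s k)) (𝓝[>] 0) (𝓝 z) := by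
      have : Continuous (fun r : ℝ => z + r • e (s k)) := by fun_prop
      have h := (this.tendsto 0).mono_left (nhdsWithin_le_nhds (s := Ioi 0))
      simpa using h
    have hev := hcont.eventually (isClosed_closure.isOpen_compl.mem_nhds hzm)
    filter_upwards [hev] with r hr _
    exact hr

lemma walk_step (hU : ∀ j, IsCell (U j)) (hd : Pairwise (fun i j => Disjoint (U i) (U j)))
    (hB : ∀ j P t α, IsCorner (U j) P t α → ∃ k, k ≠ j ∧ (Osid (U j) P (e t) ∩ closure (U k)).Nonempty)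
    {j : J} {P : ℂ} {t α : ℝ} (hc : IsCorner (U j) P t α) (hf : Free U j P t) :
    ∃ k P' t' α', k ≠ j ∧ IsCorner (U k) P' t' α' ∧ Free U k P' t' ∧ P' ∈ Osid (U j) P (e t) := by
  obtain ⟨k0, hk0, z0, ⟨sb, s', hsb, hsb', rfl, hend⟩, hz0⟩ := hB j P t α hc
  have hhalfP : ∀ v ∈ tc (U j) P, 0 < crs (e t) v := by
    intro v hv; rw [hc.2.2.2] at hv; exact hv.1
  obtain ⟨ε, hε, hεf⟩ := mem_nhdsGT_iff_exists_Ioo_subset.mp hf
  have hε' : (0:ℝ) < ε := hε
  have hεsb : ε ≤ sb := by
    by_contra h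
    push Not at h
    exact hεf ⟨hsb, h⟩ k0 hk0 hz0
  set B : Set ℝ := Icc ε sb ∩ ⋃ k ∈ {k | k ≠ j}, (fun s : ℝ => P + s • e t) ⁻¹' closure (U k) with hB'
  have hBclosed : IsClosed B := by
    apply isClosed_Icc.inter
    apply (Set.toFinite _).isClosed_biUnion
    intro k _
    exact isClosed_closure.preimage (by fun_prop)
  have hBne : B.Nonempty := ⟨sb, ⟨hεsb, le_rfl⟩, by simp only [mem_iUnion]; exact ⟨k0, hk0, hz0⟩⟩
  have hBbdd : BddBelow B := ⟨ε, fun x hx => hx.1.1⟩
  have hs0 := hBclosed.csInf_mem hBne hBbdd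
  set s0 := sInf B with hs0def
  have hs0pos : 0 < s0 := lt_of_lt_of_le hε' hs0.1.1
  have hmin : ∀ s, 0 < s → s < s0 → ∀ k, k ≠ j → P + s • e t ∉ closure (U k) := by
    intro s hs hss k hk hcl
    rcases lt_or_ge s ε with h | h
    · exact hεf ⟨hs, h⟩ k hk hcl
    · have : s ∈ B := ⟨⟨h, by linarith [hs0.1.2]⟩, by simp only [mem_iUnion]; exact ⟨k, hk, hcl⟩⟩
      have := csInf_le hBbdd this
      linarith
  have hOs : P + s0 • e t ∈ Osid (U j) P (e t) := ⟨s0, s', hs0pos, by linarith [hs0.1.2], rfl, hend⟩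
  obtain ⟨hz, hflat⟩ := flat_on_side (hU j) hc.1 hhalfP hOs
  set z := P + s0 • e t with hzdef
  have hotherhalf : ∀ k, k ≠ j → z ∈ closure (U k) → ∀ v ∈ tc (U k) z, 0 < crs (e (t + Real.pi)) v := by
    intro k hk hzk v hv
    have hdis := disjoint_tc (hU k).op (hU k).cv hzk (hU j).op (hU j).cv hz (hd hk)
    rw [hflat] at hdis
    have := half_of_disjoint (isOpen_tc (hU k).op) hdis v hv
    rw [e_add_pi, neg_crs]; linarith
  have hnot0 : ∀ θ, t + Real.pi < θ → θ < t + Real.pi + Real.pi → e θ ∉ closure (tc (U j) z) := by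
    intro θ h1 h2 hcl
    rw [hflat] at hcl
    have h3 := (closure_Sec_subset _ _ hcl).1
    rw [crs_e_e] at h3
    have h4 : Real.sin (θ - t) = - Real.sin (θ - t - Real.pi) := by rw [Real.sin_sub_pi]; ring
    have h5 := Real.sin_pos_of_pos_of_lt_pi (x := θ - t - Real.pi) (by linarith) (by linarith)
    linarith
  -- direction back is not in closures
  have hback : ∀ k, k ≠ j → z ∈ closure (U k) → e (t + Real.pi) ∉ closure (tc (U k) z) := by
    intro k hk hzk hcl
    have hev := (local_exact (hU k) hzk hcl).and (Ioo_mem_nhdsGT hs0pos)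
    obtain ⟨r, hr1, hr2⟩ := hev.exists
    have hr3 : z + r • e (t + Real.pi) = P + (s0 - r) • e t := by
      rw [hzdef, e_add_pi, sub_smul, smul_neg]; abel
    rw [hr3] at hr1
    exact hmin (s0 - r) (by linarith [hr2.2]) (by linarith [hr2.1]) k hk hr1
  -- apply first_cell to the family without j
  obtain ⟨_, hk1⟩ := hs0
  simp only [mem_iUnion] at hk1
  obtain ⟨k1, hk1j, hk1z⟩ := hk1
  set U' : {k : J // k ≠ j} → Set ℂ := fun k => U k.1 with hU'
  have hfc := first_cell (U := U') (z := z) (a := t + Real.pi) (fun k => hU k.1)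
    (fun i k hik => hd (fun h => hik (Subtype.ext h)))
    (fun k hzk => Or.inl (hotherhalf k.1 k.2 hzk)) ⟨⟨k1, hk1j⟩, hk1z, hotherhalf k1 hk1j hk1z⟩
  obtain ⟨⟨k, hkj⟩, s, β, hzk, h1, h2, h3, h4, hfree⟩ := hfc
  have hs : t + Real.pi < s := by
    rcases h1.lt_or_eq with h | h
    · exact h
    · exfalso
      apply hback k hkj hzk
      have h4' : tc (U k) z = Sec s β := h4
      rw [h4', ← h]; exact e_t_mem_closure_Sec h2 (by linarith)
  refine ⟨k, z, s, β, hkj, ⟨hzk, h2, by linarith, h4⟩, ?_, hOs⟩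
  -- free with respect to all cells
  unfold Free at hfree ⊢
  filter_upwards [hfree, self_mem_nhdsWithin] with r hr hr0 m hmk
  by_cases hmj : m = j
  · subst hmj
    intro hcl
    exact hnot0 s hs (by linarith) (mem_closure_tc hr0 hcl)
  · exact hr ⟨m, hmj⟩ (fun h => hmk (congrArg Subtype.val h))

lemma half_eq {t1 t2 : ℝ} (h : Sec t1 Real.pi = Sec t2 Real.pi) : e t1 = e t2 := by
  rw [Sec_pi, Sec_pi] at h
  have key : ∀ v, 0 < crs (e t1) v ↔ 0 < crs (e t2) v := by
    intro v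
    constructor
    · intro hv
      have : v ∈ {v | 0 < crs (e t1) v} := hv
      rw [h] at this; exact this
    · intro hv
      have : v ∈ {v | 0 < crs (e t2) v} := hv
      rw [← h] at this; exact this
  have h0 : crs (e t1) (e t2) = 0 := by
    rcases lt_trichotomy (crs (e t1) (e t2)) 0 with h1 | h1 | h1
    · exfalso
      have := (key (- e t2)).mp (by rw [crs_neg]; linarith)
      rw [crs_neg, crs_self] at this; linarith
    · exact h1
    · exfalso
      have := (key (e t2)).mp h1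
      rw [crs_self] at this; linarith
  have hf : e t2 = (dot (e t1) (e t2)) • e t1 := by
    have := frame t1 (e t2)
    rw [h0, zero_smul, add_zero] at this
    exact this
  have hn : |dot (e t1) (e t2)| = 1 := by
    have := congrArg norm hf
    rw [norm_smul, norm_e, norm_e, mul_one, Real.norm_eq_abs] at this
    exact this.symm
  rcases (abs_eq (by norm_num)).mp hn with h1 | h1
  · rw [hf, h1, one_smul]
  · exfalso
    have h2 := (key (e (t1 + Real.pi / 2))).mp (by rw [crs_e_e]; simp)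
    rw [hf, h1, smul_crs, crs_e_e] at h2
    simp at h2
    linarith

lemma walk_inj (hU : ∀ j, IsCell (U j)) (hd : Pairwise (fun i j => Disjoint (U i) (U j)))
    {j1 j2 k : J} {P1 P2 z : ℂ} {t1 α1 t2 α2 : ℝ} (hc1 : IsCorner (U j1) P1 t1 α1)
    (hc2 : IsCorner (U j2) P2 t2 α2) (hz1 : z ∈ Osid (U j1) P1 (e t1))
    (hz2 : z ∈ Osid (U j2) P2 (e t2)) (hk : z ∈ closure (U k)) (hk1 : k ≠ j1) (hk2 : k ≠ j2) :
    j1 = j2 ∧ P1 = P2 := by
  have hh1 : ∀ v ∈ tc (U j1) P1, 0 < crs (e t1) v := by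
    intro v hv; rw [hc1.2.2.2] at hv; exact hv.1
  have hh2 : ∀ v ∈ tc (U j2) P2, 0 < crs (e t2) v := by
    intro v hv; rw [hc2.2.2.2] at hv; exact hv.1
  obtain ⟨hzc1, hf1⟩ := flat_on_side (hU j1) hc1.1 hh1 hz1
  obtain ⟨hzc2, hf2⟩ := flat_on_side (hU j2) hc2.1 hh2 hz2
  obtain ⟨v, hv⟩ := tc_nonempty (P := z) (hU k).ne
  have hd1 := disjoint_tc (hU k).op (hU k).cv hk (hU j1).op (hU j1).cv hzc1 (hd hk1)
  have hd2 := disjoint_tc (hU k).op (hU k).cv hk (hU j2).op (hU j2).cv hzc2 (hd hk2)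
  rw [hf1] at hd1
  rw [hf2] at hd2
  have hv1 := half_of_disjoint (isOpen_tc (hU k).op) hd1 v hv
  have hv2 := half_of_disjoint (isOpen_tc (hU k).op) hd2 v hv
  have hj : j1 = j2 := by
    by_contra hne
    have hd12 := disjoint_tc (hU j1).op (hU j1).cv hzc1 (hU j2).op (hU j2).cv hzc2 (hd hne)
    rw [hf1, hf2] at hd12
    have m1 : -v ∈ Sec t1 Real.pi := by
      rw [Sec_pi]; simp only [mem_ofPred_eq]; rw [crs_neg]; linarith
    have m2 : -v ∈ Sec t2 Real.pi := by
      rw [Sec_pi]; simp only [mem_ofPred_eq]; rw [crs_neg]; linarith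
    exact Set.disjoint_left.mp hd12 m1 m2
  refine ⟨hj, ?_⟩
  subst hj
  have het : e t1 = e t2 := half_eq (hf1.symm.trans hf2)
  obtain ⟨s1, s1', h1, h2, h3, h4⟩ := hz1
  obtain ⟨s2, s2', h5, h6, h7, h8⟩ := hz2
  rcases lt_trichotomy s1 s2 with h | h | h
  · exfalso
    have hP1 : P1 ∈ Osid (U j1) P2 (e t2) := by
      refine ⟨s2 - s1, s2', by linarith, by linarith, ?_, h8⟩
      have : P1 = z - s1 • e t1 := by rw [h3]; abel
      rw [this, h7, het, sub_smul]; abel
    have := (flat_on_side (hU j1) hc2.1 hh2 hP1).2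
    rw [hc1.2.2.2] at this
    have := Sec_angle_inj hc1.2.1 hc1.2.2.1.le Real.pi_pos le_rfl this
    linarith [hc1.2.2.1]
  · have : P1 = z - s1 • e t1 := by rw [h3]; abel
    rw [this, h7, het, h]; abel
  · exfalso
    have hP2 : P2 ∈ Osid (U j1) P1 (e t1) := by
      refine ⟨s1 - s2, s1', by linarith, by linarith, ?_, h4⟩
      have : P2 = z - s2 • e t2 := by rw [h7]; abel
      rw [this, h3, ← het, sub_smul]; abel
    have := (flat_on_side (hU j1) hc1.1 hh1 hP2).2
    rw [hc2.2.2.2] at this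
    have := Sec_angle_inj hc2.2.1 hc2.2.2.1.le Real.pi_pos le_rfl this
    linarith [hc2.2.2.1]

/-- every free corner lies in the relative interior of a side of another cell -/
theorem walk (hU : ∀ j, IsCell (U j)) (hd : Pairwise (fun i j => Disjoint (U i) (U j)))
    (hB : ∀ j P t α, IsCorner (U j) P t α → ∃ k, k ≠ j ∧ (Osid (U j) P (e t) ∩ closure (U k)).Nonempty)
    {k : J} {z : ℂ} {t α : ℝ} (hc : IsCorner (U k) z t α) (hf : Free U k z t) :
    ∃ j t', j ≠ k ∧ z ∈ closure (U j) ∧ tc (U j) z = Sec t' Real.pi := by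
  classical
  set X := {x : J × ℂ // ∃ t α, IsCorner (U x.1) x.2 t α ∧ Free U x.1 x.2 t} with hX
  have hfinX : Finite X := by
    have hfin : (⋃ j : J, (fun P => (j, P)) '' {P | ∃ t α, IsCorner (U j) P t α}).Finite :=
      Set.finite_iUnion (fun j => (finite_corners (hU j)).image _)
    apply (hfin.subset _).to_subtype
    rintro ⟨j, P⟩ ⟨t, α, h1, h2⟩
    simp only [mem_iUnion]
    exact ⟨j, P, ⟨t, α, h1⟩, rfl⟩
  have hstep : ∀ x : X, ∃ y : X, y.1.1 ≠ x.1.1 ∧ ∃ t α, IsCorner (U x.1.1) x.1.2 t α ∧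
      y.1.2 ∈ Osid (U x.1.1) x.1.2 (e t) := by
    rintro ⟨⟨j, P⟩, t, α, h1, h2⟩
    obtain ⟨k, P', t', α', hkj, h3, h4, h5⟩ := walk_step hU hd hB h1 h2
    exact ⟨⟨(k, P'), t', α', h3, h4⟩, hkj, t, α, h1, h5⟩
  choose F hF using hstep
  have hinj : Function.Injective F := by
    intro x1 x2 h
    obtain ⟨hn1, t1, α1, hc1, ho1⟩ := hF x1
    obtain ⟨hn2, t2, α2, hc2, ho2⟩ := hF x2
    rw [← h] at hn2 ho2
    obtain ⟨_, _, hcF, _⟩ := (F x1).2
    have := walk_inj hU hd hc1 hc2 ho1 ho2 hcF.1 hn1 hn2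
    apply Subtype.ext
    exact Prod.ext this.1 this.2
  have hsurj := Finite.injective_iff_surjective.mp hinj
  obtain ⟨x, hx⟩ := hsurj ⟨(k, z), t, α, hc, hf⟩
  obtain ⟨hn, t', α', hcx, ho⟩ := hF x
  rw [hx] at hn ho
  have hh : ∀ v ∈ tc (U x.1.1) x.1.2, 0 < crs (e t') v := by
    intro v hv; rw [hcx.2.2.2] at hv; exact hv.1
  have := flat_on_side (hU x.1.1) hcx.1 hh ho
  exact ⟨x.1.1, t', fun h => hn h.symm, this.1, this.2⟩

end

end Nonagon
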