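import Pool.Agent.Lib.MP_b090c9_co.Square

set_option autoImplicit false

namespace Nonagon

open MeasureTheory Set Filter Topology Real

lemma vA_zero (j : ℤ) : vA 0 0 (j : ZMod 9) = (1 / cos (π / 9)) • e (2 * π * (j : ℝ) / 9 - π / 9) := by
  unfold vA
  rw [zero_add]
  congr 1
  have := nv_int (-(π / 9)) j
  unfold nv at this
  rw [show (0:ℝ) + 2 * π * (((j : ZMod 9).val : ℕ) : ℝ) / 9 - π / 9 =
    -(π / 9) + 2 * π * (((j : ZMod 9).val : ℕ) : ℝ) / 9 by ring, this]
  congr 1; ring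

lemma vB_zero (j : ℤ) : vB 0 0 (j : ZMod 9) = (1 / cos (π / 9)) • e (2 * π * (j : ℝ) / 9 + π / 9) := by
  unfold vB
  rw [zero_add]
  congr 1
  have := nv_int (π / 9) j
  unfold nv at this
  rw [show (0:ℝ) + 2 * π * (((j : ZMod 9).val : ℕ) : ℝ) / 9 + π / 9 =
    (π / 9) + 2 * π * (((j : ZMod 9).val : ℕ) : ℝ) / 9 by ring, this]
  congr 1; ring

lemma crs_vAB (k : ZMod 9) : crs (vA 0 0 k) (vB 0 0 k) = 2 * tau := by
  unfold vA vB
  simp only [zero_add]
  rw [crs_smul, smul_crs, crs_e_e, tau_eq,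
    show 2 * π * (k.val : ℝ) / 9 + π / 9 - (2 * π * (k.val : ℝ) / 9 - π / 9) =
      2 * π / 9 by ring, sin40_eq]
  have := cos20_pos.ne'
  field_simp

lemma body_subset_tri : body 0 0 ⊆ ⋃ k : ZMod 9, (fun z => 0 + lm (vA 0 0 k) (vB 0 0 k) z) '' stdc := by
  intro x hx
  rw [mem_iUnion]
  have hπ := Real.pi_pos
  by_cases hx0 : x = 0
  · refine ⟨0, 0, ⟨by simp, by simp, by simp⟩, ?_⟩
    rw [hx0]; simp
  obtain ⟨r, ψ, hr, rfl⟩ := exists_angle hx0
  set j : ℤ := round (ψ / (2 * π / 9)) with hj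
  set δ : ℝ := ψ - 2 * π * (j : ℝ) / 9 with hδ
  have h1 : |ψ / (2 * π / 9) - (j : ℝ)| ≤ 1 / 2 := abs_sub_round _
  rw [abs_le] at h1
  obtain ⟨h1a, h1b⟩ := h1
  have h2 : ψ / (2 * π / 9) * (2 * π / 9) = ψ := div_mul_cancel₀ _ (by positivity)
  have hδ1 : -(π / 9) ≤ δ := by
    have := mul_le_mul_of_nonneg_right h1a (show 0 ≤ 2 * π / 9 by positivity)
    rw [sub_mul, h2] at this
    rw [hδ]; linarith
  have hδ2 : δ ≤ π / 9 := by
    have := mul_le_mul_of_nonneg_right h1b (show 0 ≤ 2 * π / 9 by positivity)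
    rw [sub_mul, h2] at this
    rw [hδ]; linarith
  have hdot := hx (j : ZMod 9)
  rw [nv_int, sub_zero, dot_smul, dot_e_e] at hdot
  have hδe : ψ - (0 + 2 * π * (j : ℝ) / 9) = δ := by rw [hδ]; ring
  rw [hδe] at hdot
  have hs40 : 0 < sin (2 * π / 9) := by linarith [sin40_bd.1]
  have hc20 := cos20_pos
  set p : ℝ := r * cos (π / 9) * sin (π / 9 - δ) / sin (2 * π / 9) with hp
  set q : ℝ := r * cos (π / 9) * sin (π / 9 + δ) / sin (2 * π / 9) with hq
  have hsa : 0 ≤ sin (π / 9 - δ) := Real.sin_nonneg_of_nonneg_of_le_pi (by linarith) (by linarith)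
  have hsb : 0 ≤ sin (π / 9 + δ) := Real.sin_nonneg_of_nonneg_of_le_pi (by linarith) (by linarith)
  refine ⟨(j : ZMod 9), ⟨p, q⟩, ⟨?_, ?_, ?_⟩, ?_⟩
  · show 0 ≤ p
    positivity
  · show 0 ≤ q
    positivity
  · show p + q ≤ 1
    have : p + q = r * cos δ := by
      rw [hp, hq, ← add_div, ← mul_add, Real.sin_sub, Real.sin_add, sin40_eq]
      have := cos20_pos.ne'
      have := sin20_pos.ne'
      field_simp
      ring
    rw [this]; exact hdot.le
  · simp only [lm_apply, zero_add]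
    rw [vA_zero, vB_zero, smul_smul, smul_smul]
    have hcombo := @e_combo (2 * π * (j : ℝ) / 9 - π / 9) ψ (2 * π * (j : ℝ) / 9 + π / 9)
    rw [show 2 * π * (j : ℝ) / 9 + π / 9 - (2 * π * (j : ℝ) / 9 - π / 9) = 2 * π / 9 by ring,
      show 2 * π * (j : ℝ) / 9 + π / 9 - ψ = π / 9 - δ by rw [hδ]; ring,
      show ψ - (2 * π * (j : ℝ) / 9 - π / 9) = π / 9 + δ by rw [hδ]; ring] at hcombo
    have e1 : p * (1 / cos (π / 9)) = (r / sin (2 * π / 9)) * sin (π / 9 - δ) := by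
      rw [hp]; field_simp
    have e2 : q * (1 / cos (π / 9)) = (r / sin (2 * π / 9)) * sin (π / 9 + δ) := by
      rw [hq]; field_simp
    rw [e1, e2, ← smul_smul, ← smul_smul, ← smul_add, ← hcombo, smul_smul,
      div_mul_cancel₀ _ hs40.ne']

lemma A0_le : A0 ≤ 9 * tau := by
  have htau : 0 < tau := by linarith [tau_lo]
  have h1 : volume (body 0 0) ≤ ENNReal.ofReal (9 * tau) := by
    calc volume (body 0 0) ≤ volume (⋃ k : ZMod 9, (fun z => 0 + lm (vA 0 0 k) (vB 0 0 k) z) '' stdc) :=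
          measure_mono body_subset_tri
      _ ≤ ∑ k : ZMod 9, volume ((fun z => 0 + lm (vA 0 0 k) (vB 0 0 k) z) '' stdc) := by
          rw [← tsum_fintype (L := .unconditional _)]; exact measure_iUnion_le _
      _ = ∑ k : ZMod 9, ENNReal.ofReal tau := by
          apply Finset.sum_congr rfl
          intro k _
          rw [volume_affine, volume_stdc, crs_vAB, abs_of_pos (by positivity),
            ← ENNReal.ofReal_mul (by positivity)]
          congr 1; ring
      _ = ENNReal.ofReal (9 * tau) := by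
          rw [Finset.sum_const, Finset.card_univ, ZMod.card, nsmul_eq_mul,
            ENNReal.ofReal_mul (by norm_num)]
          norm_num
  unfold A0
  exact ENNReal.toReal_le_of_le_ofReal (by positivity) h1

lemma A0_pos : 0 < A0 := by
  unfold A0
  apply ENNReal.toReal_pos
  · exact ((isOpen_body 0 0).measure_pos volume ⟨0, center_mem_body 0 0⟩).ne'
  · have hb : body 0 0 ⊆ Metric.ball (0:ℂ) 2 := by
      intro x hx
      have := norm_lt_two hx
      rw [sub_zero] at this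
      rwa [Metric.mem_ball, dist_zero_right]
    exact ne_top_of_le_ne_top (measure_ball_lt_top.ne) (measure_mono hb)

lemma A0_top : volume (body 0 0) ≠ ⊤ := by
  have hb : body 0 0 ⊆ Metric.ball (0:ℂ) 2 := by
    intro x hx
    have := norm_lt_two hx
    rw [sub_zero] at this
    rwa [Metric.mem_ball, dist_zero_right]
  exact ne_top_of_le_ne_top (measure_ball_lt_top.ne) (measure_mono hb)

/-- numerical density bound -/
theorem ratio_bound {ι : Type*} [Fintype ι] {r : ℝ} (hr : 10 ^ 12 ≤ r) {cen : ι → ℂ}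
    {rot : ι → ℝ}
    (hd : Pairwise (fun i j => Disjoint (body (cen i) (rot i)) (body (cen j) (rot j))))
    (hs : ∀ i, ‖cen i‖ ≤ r) :
    (Fintype.card ι : ℝ) * A0 ≤ 0.9021 * (π * r ^ 2) := by
  have h := avg_bound (L := 10 ^ 6) (r := r) (by norm_num) (by linarith) hd hs
  have hπ := Real.pi_pos
  have hA := A0_le
  have hA0 := A0_pos
  have ht := tau_hi
  have hA' : A0 ≤ 3.27582 := by linarith
  have hW : W = 0.1778 := rfl
  have h1 : A0 ≤ 0.90208 * (A0 + 2 * W) := by rw [hW]; linarith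
  have h2 : (r + 2 * 10 ^ 6) ^ 2 ≤ 1.00001 * r ^ 2 := by nlinarith
  have hr0 : 0 < r := by linarith
  have h3 : (Fintype.card ι : ℝ) * (A0 + 2 * W) ≤ 1.00001 * (π * (r + 2 * 10 ^ 6) ^ 2) := by
    have h4 : (Fintype.card ι : ℝ) * (10 ^ 6 - 4) ^ 2 * (A0 + 2 * W) ≤
        1.00001 * (π * (r + 2 * 10 ^ 6) ^ 2) * (10 ^ 6 - 4) ^ 2 := by
      refine h.trans ?_
      have h5 : (0:ℝ) ≤ π * (r + 2 * 10 ^ 6) ^ 2 := by positivity
      nlinarith
    have h6 : (0:ℝ) < (10 ^ 6 - 4) ^ 2 := by norm_num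
    by_contra hc
    push Not at hc
    have := mul_lt_mul_of_pos_right hc h6
    linarith
  have h7 : (Fintype.card ι : ℝ) * A0 ≤ 0.90208 * ((Fintype.card ι : ℝ) * (A0 + 2 * W)) := by
    have := mul_le_mul_of_nonneg_left h1 (Nat.cast_nonneg (α := ℝ) (Fintype.card ι))
    linarith
  have h8 := mul_le_mul_of_nonneg_left h2 hπ.le
  have h9 : 0 ≤ π * r ^ 2 := by positivity
  nlinarith

/-- images of the nonagon under isometries of the plane -/
lemma mem_bodyc_iff (c : ℂ) (ρ : ℝ) (x : ℂ) : x ∈ bodyc c ρ ↔ e (-ρ) * (x - c) ∈ bodyc 0 0 := by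
  simp only [bodyc, mem_ofPred_eq, sub_zero]
  constructor
  · intro h k
    have := h k
    rwa [nv_rot, dot_e_mul] at this
  · intro h k
    rw [nv_rot, dot_e_mul]
    exact h k

lemma e_zero : e 0 = 1 := by
  apply Complex.ext <;> simp

lemma nv_neg (k : ZMod 9) : nv 0 (-k) = (starRingEnd ℂ) (nv 0 k) := by
  have h1 : (k : ZMod 9) = (((k.val : ℤ)) : ZMod 9) := by
    simp
  have h2 : nv 0 k = e (0 + 2 * π * ((k.val : ℤ) : ℝ) / 9) := by
    conv_lhs => rw [h1]
    exact nv_int 0 _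
  have h3 : nv 0 (-k) = e (0 + 2 * π * ((-(k.val : ℤ) : ℤ) : ℝ) / 9) := by
    conv_lhs => rw [h1, ← Int.cast_neg]
    exact nv_int 0 _
  rw [h2, h3]
  have : (0:ℝ) + 2 * π * ((-(k.val : ℤ) : ℤ) : ℝ) / 9 = -(0 + 2 * π * ((k.val : ℤ) : ℝ) / 9) := by
    push_cast; ring
  rw [this]
  apply Complex.ext
  · simp only [e_re, Complex.conj_re, Real.cos_neg]
  · simp only [e_im, Complex.conj_im, Real.sin_neg]

lemma conj_mem_bodyc (x : ℂ) : (starRingEnd ℂ) x ∈ bodyc 0 0 ↔ x ∈ bodyc 0 0 := by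
  have key : ∀ x, x ∈ bodyc 0 0 → (starRingEnd ℂ) x ∈ bodyc 0 0 := by
    intro x hx k
    have := hx (-k)
    rw [nv_neg, sub_zero] at this
    rw [sub_zero]
    have h : dot ((starRingEnd ℂ) (nv 0 k)) x = dot (nv 0 k) ((starRingEnd ℂ) x) := by
      unfold dot; simp
    rwa [← h]
  constructor
  · intro h
    have := key _ h
    rwa [Complex.conj_conj] at this
  · exact key x

lemma circle_eq_e (a : Circle) : ∃ ρ, (a : ℂ) = e ρ := by
  refine ⟨(a : ℂ).arg, ?_⟩
  rw [e_eq_exp]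
  have h := Complex.norm_mul_exp_arg_mul_I (a : ℂ)
  rw [Circle.norm_coe] at h
  simpa using h.symm

lemma isometry_image (g : ℂ ≃ᵢ ℂ) : ∃ c ρ, g '' (bodyc 0 0) = bodyc c ρ := by
  set l := g.toRealLinearIsometryEquiv with hl
  have hg : ∀ x, g x = l x + g 0 := by
    intro x
    have := g.toRealLinearIsometryEquiv_apply x
    rw [hl, this]; ring
  obtain ⟨a, ha⟩ := linear_isometry_complex l
  obtain ⟨ρ, hρ⟩ := circle_eq_e a
  have hee : e (-ρ) * e ρ = 1 := by rw [e_mul, neg_add_cancel, e_zero]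
  refine ⟨g 0, ρ, ?_⟩
  have hkey : ∀ x, x ∈ bodyc 0 0 ↔ g x ∈ bodyc (g 0) ρ := by
    intro x
    rw [mem_bodyc_iff (g 0) ρ (g x)]
    have hx : g x - g 0 = l x := by rw [hg x]; ring
    rw [hx]
    rcases ha with h | h
    · rw [h, rotation_apply, hρ, ← mul_assoc, hee, one_mul]
    · rw [h, LinearIsometryEquiv.trans_apply, rotation_apply, hρ, ← mul_assoc, hee, one_mul,
        Complex.conjLIE_apply, conj_mem_bodyc]
  ext y
  constructor
  · rintro ⟨x, hx, rfl⟩
    exact (hkey x).mp hx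
  · intro hy
    obtain ⟨x, rfl⟩ := g.surjective y
    exact ⟨x, (hkey x).mpr hy, rfl⟩

lemma body_subset_bodyc (c : ℂ) (ρ : ℝ) : body c ρ ⊆ bodyc c ρ := fun _ hx k => (hx k).le

lemma isClosed_bodyc (c : ℂ) (ρ : ℝ) : IsClosed (bodyc c ρ) := by
  have : bodyc c ρ = ⋂ k : ZMod 9, {x | dot (nv ρ k) (x - c) ≤ 1} := by
    ext x; simp [bodyc]
  rw [this]
  apply isClosed_iInter
  intro k
  exact isClosed_le ((continuous_dot _).comp (by fun_prop)) continuous_const

lemma bodyc_eq_closure (c : ℂ) (ρ : ℝ) : bodyc c ρ = closure (body c ρ) :=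
  Subset.antisymm (bodyc_subset_closure c ρ)
    (closure_minimal (body_subset_bodyc c ρ) (isClosed_bodyc c ρ))

lemma volume_bodyc (c : ℂ) (ρ : ℝ) : volume (bodyc c ρ) = ENNReal.ofReal A0 := by
  rw [bodyc_eq_closure, closure_volume (isOpen_body _ _) (convex_body _ _), volume_body]
  unfold A0
  rw [ENNReal.ofReal_toReal A0_top]

lemma isCompact_bodyc (c : ℂ) (ρ : ℝ) : IsCompact (bodyc c ρ) := by
  rw [bodyc_eq_closure]
  apply Bornology.IsBounded.isCompact_closure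
  rw [Metric.isBounded_iff_subset_closedBall c]
  refine ⟨2, ?_⟩
  intro x hx
  rw [Metric.mem_closedBall, dist_eq_norm]
  exact (norm_lt_two hx).le

lemma convex_bodyc (c : ℂ) (ρ : ℝ) : Convex ℝ (bodyc c ρ) := by
  rw [bodyc_eq_closure]; exact (convex_body c ρ).closure

end Nonagon
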